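import Pool.Agent.H.MP_0cad2f_co.bd.Basic

/-!
The sum over the feasible bases outside a block; blocks.
-/

set_option autoImplicit false

namespace Pool.Agent.H.MP_0cad2f_co.bd

open MeasureTheory ProbabilityTheory Matrix Finset
open scoped NNReal ENNReal
open Pool.Agent.H.MP_0cad2f_co.helper47

variable {n d : ℕ}

open Classical in
/-- The sum over the feasible bases outside `G`. -/
noncomputable def coreSum (cc a : Fin n → Fin d → ℝ) (G : Finset (Fin n)) (p : Fin d → ℝ)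
    (M R : ℝ) (r : ℕ) : ℝ≥0∞ :=
  ∑ I : Idx n d, if rng I ⊆ Gᶜ ∧ Good a I ∧ (∀ i ∈ Gᶜ, n2 (a i - cc i) ≤ 1) then
    R0 a p (cI a I) M R r (G ∪ rng I) else 0

/-- The block `{g} ∪ B` is ill-conditioned. -/
def BlkBad (g : Fin n) (B : Idx n d) (T : ℝ) : Set (Fin n → Fin d → ℝ) :=
  {a | (mat (sh a (a g)) B).det = 0 ∨ ∃ k, T < n2 (nu (sh a (a g)) B k)}

/-- The block. -/
def blk (g : Fin n) (B : Idx n d) : Finset (Fin n) := insert g (rng B)

/-- The number of blocks in one group. -/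
def mm (n d : ℕ) : ℕ := d * (Nat.log 2 n + 1) + (2 * d + 1)

/-- The radius of the blocks. -/
noncomputable def rhoB (d : ℕ) (σ : ℝ) : ℝ := 2 * d ^ 2 * (d + 1) / σ

/-- The length of the segments. -/
noncomputable def MM (n d : ℕ) (σ : ℝ) : ℝ := (n : ℝ) ^ (2 * d + 1) * d / σ * (3 * d ^ 2)

/-- The thickness. -/
noncomputable def s0B (d : ℕ) (σ : ℝ) : ℝ := σ ^ 2 / (4 * (1 + 4 * rhoB d σ))

/-- The final threshold. -/
noncomputable def lamB (n d : ℕ) (σ : ℝ) : ℝ :=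
  3 * (((2 * d + 1 + d * d + 1 : ℕ) : ℝ) ^ d) * ((d : ℝ) + 1) ^ (d + 3) *
    Lam d (2 * d + 1 + d * d) (s0B d σ) (3 * d ^ 2) (MM n d σ) *
      (24 * (d : ℝ) ^ 2 * (48 * d * (1 + 4 * rhoB d σ) / σ ^ 2))

end Pool.Agent.H.MP_0cad2f_co.bd
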