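import Pool.Agent.H.MP_0cad2f_co.bd.Basic
import Pool.Agent.H.MP_0cad2f_co.qp.Adj

/-!
The diameter in bounded dimension: the polytopes defined by the shifted constraints `a i - y`, for
interior points `y` of the convex hull of the constraints, have the same graph.
-/

set_option autoImplicit false

namespace Pool.Agent.H.MP_0cad2f_co.bd

open MeasureTheory ProbabilityTheory Matrix Finset
open scoped NNReal ENNReal
open Pool.Agent.H.MP_0cad2f_co.helper47
open Pool.Agent.H.MP_0cad2f_co.helper29 (toVert)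

variable {n d : ℕ}

private theorem ge_sh_dot (a : Fin n → Fin d → ℝ) (y v : Fin d → ℝ) (i : Fin n) :
    sh a y i ⬝ᵥ v = a i ⬝ᵥ v - y ⬝ᵥ v := by
  unfold sh
  rw [sub_dotProduct]

theorem simple_sh {a : Fin n → Fin d → ℝ} (ha : AffGen a) (y : Fin d → ℝ) :
    Simple (sh a y) := by
  intro B hB i hi h1
  have hi' : i ∉ rng B := by
    rw [mem_rng]
    rintro ⟨k, hk⟩
    exact hi ⟨k, hk⟩
  have h2 := ha B i hi'
  have h3 : vtx (sh a y) B = 0 := by
    apply eq_of_dot_eq h2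
    intro k
    have h4 := dot_vtx hB.1 k
    rw [ge_sh_dot] at h1 h4
    rw [dotProduct_zero, ge_sh_dot]
    linarith
  rw [h3, dotProduct_zero] at h1
  exact zero_ne_one h1

private theorem ge_good {a : Fin n → Fin d → ℝ} {y y' : Fin d → ℝ} (hy' : Inn a y')
    {B : Idx n d} (hB : Good (sh a y) B) : Good (sh a y') B := by
  rcases Nat.eq_zero_or_pos d with h0 | hd
  · subst h0
    refine ⟨?_, fun i => ?_⟩
    · rw [Matrix.det_isEmpty]
      exact one_ne_zero
    · simp [dotProduct]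
  obtain ⟨v, hv⟩ : ∃ v, v = vtx (sh a y) B := ⟨_, rfl⟩
  have h1 : ∀ k, a (B k) ⬝ᵥ v = 1 + y ⬝ᵥ v := by
    intro k
    have := dot_vtx hB.1 k
    rw [← hv, ge_sh_dot] at this
    linarith
  have h2 : ∀ i, a i ⬝ᵥ v ≤ 1 + y ⬝ᵥ v := by
    intro i
    have := hB.2 i
    rw [← hv, ge_sh_dot] at this
    linarith
  have hv0 : v ≠ 0 := by
    intro h
    have h3 := h1 ⟨0, hd⟩
    rw [h, dotProduct_zero, dotProduct_zero, add_zero] at h3
    exact zero_ne_one h3
  obtain ⟨i₀, hi₀⟩ := hy' v hv0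
  obtain ⟨s, hs⟩ : ∃ s, s = 1 + y ⬝ᵥ v - y' ⬝ᵥ v := ⟨_, rfl⟩
  have hs0 : 0 < s := by
    have := h2 i₀
    linarith
  have h3 : ∀ k, sh a y' (B k) ⬝ᵥ (s⁻¹ • v) = 1 := by
    intro k
    rw [dotProduct_smul, ge_sh_dot, h1 k, smul_eq_mul, ← hs]
    exact inv_mul_cancel₀ hs0.ne'
  have hdet : (mat (sh a y') B).det ≠ 0 := by
    intro h4
    obtain ⟨w, hw0, hw⟩ := Matrix.exists_vecMul_eq_zero_iff.2 h4
    have h5 : ∑ k, w k = 0 := by
      have h6 : (w ᵥ* mat (sh a y') B) ⬝ᵥ (s⁻¹ • v) = 0 := by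
        rw [hw, zero_dotProduct]
      rw [← Matrix.dotProduct_mulVec] at h6
      have h7 : mat (sh a y') B *ᵥ (s⁻¹ • v) = fun _ => 1 := by
        funext k
        exact h3 k
      rw [h7] at h6
      simpa [dotProduct] using h6
    have h6 : w ᵥ* mat (sh a y) B = 0 := by
      funext j
      have h7 := congrFun hw j
      simp only [Matrix.vecMul, dotProduct, mat, sh, Pi.sub_apply, Pi.zero_apply] at h7 ⊢
      have h8 : ∑ k, w k * (a (B k) j - y j) =
          ∑ k, w k * (a (B k) j - y' j) + (∑ k, w k) * (y' j - y j) := by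
        rw [Finset.sum_mul, ← Finset.sum_add_distrib]
        exact Finset.sum_congr rfl fun k _ => by ring
      rw [h8, h7, h5, zero_mul, add_zero]
    exact hB.1 (Matrix.exists_vecMul_eq_zero_iff.1 ⟨w, hw0, h6⟩)
  have h4 : s⁻¹ • v = vtx (sh a y') B := eq_vtx hdet h3
  refine ⟨hdet, fun i => ?_⟩
  rw [← h4, dotProduct_smul, ge_sh_dot, smul_eq_mul, inv_mul_le_iff₀ hs0]
  have := h2 i
  linarith

theorem good_sh_iff {a : Fin n → Fin d → ℝ} {y y' : Fin d → ℝ} (hy : Inn a y) (hy' : Inn a y')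
    (B : Idx n d) : Good (sh a y) B ↔ Good (sh a y') B :=
  ⟨ge_good hy', ge_good hy⟩

theorem cgraph_sh_eq {a : Fin n → Fin d → ℝ} {y y' : Fin d → ℝ} (hy : Inn a y)
    (hy' : Inn a y') : cgraph (sh a y) = cgraph (sh a y') := by
  have h : ∀ B, Good (sh a y) B = Good (sh a y') B := fun B => propext (good_sh_iff hy hy' B)
  unfold cgraph
  simp only [h]

theorem inn_of_mem_interior {a : Fin n → Fin d → ℝ} {y : Fin d → ℝ}
    (hy : y ∈ interior (convexHull ℝ (Set.range a))) : Inn a y := by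
  intro v hv
  by_contra hcon
  push Not at hcon
  have h1 : convexHull ℝ (Set.range a) ⊆ {z | z ⬝ᵥ v ≤ y ⬝ᵥ v} := by
    refine convexHull_min ?_ ?_
    · rintro _ ⟨i, rfl⟩
      exact hcon i
    · intro z hz z' hz' p q hp hq hpq
      have hz1 : z ⬝ᵥ v ≤ y ⬝ᵥ v := hz
      have hz2 : z' ⬝ᵥ v ≤ y ⬝ᵥ v := hz'
      show (p • z + q • z') ⬝ᵥ v ≤ y ⬝ᵥ v
      rw [add_dotProduct, smul_dotProduct, smul_dotProduct, smul_eq_mul, smul_eq_mul]
      calc p * (z ⬝ᵥ v) + q * (z' ⬝ᵥ v) ≤ p * (y ⬝ᵥ v) + q * (y ⬝ᵥ v) := by gcongr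
        _ = y ⬝ᵥ v := by rw [← add_mul, hpq, one_mul]
  have hpos : 0 < v ⬝ᵥ v := by
    rcases (dot_self_nonneg v).lt_or_eq with h | h
    · exact h
    · exact absurd (dotProduct_self_eq_zero.1 h.symm) hv
  have h2 : Filter.Tendsto (fun t : ℝ => y + t • v) (nhdsWithin 0 (Set.Ioi 0)) (nhds y) := by
    have h3 : Continuous fun t : ℝ => y + t • v := by fun_prop
    have h4 := h3.tendsto 0
    simp only [zero_smul, add_zero] at h4
    exact h4.mono_left nhdsWithin_le_nhds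
  have h3 := h2.eventually (mem_interior_iff_mem_nhds.1 hy)
  obtain ⟨t, ht, ht0⟩ := (h3.and self_mem_nhdsWithin).exists
  have ht0' : (0 : ℝ) < t := ht0
  have h4 : (y + t • v) ⬝ᵥ v ≤ y ⬝ᵥ v := h1 ht
  rw [add_dotProduct, smul_dotProduct, smul_eq_mul] at h4
  have := mul_pos ht0' hpos
  linarith

private theorem ge_n2_pos {v : Fin d → ℝ} (hv : v ≠ 0) : 0 < n2 v := by
  rcases (n2_nonneg v).lt_or_eq with h | h
  · exact h
  · exfalso
    apply hv
    have h1 := n2_sq v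
    rw [← h] at h1
    exact dotProduct_self_eq_zero.1 (by rw [← h1]; norm_num)

theorem inn_of_bdd {a : Fin n → Fin d → ℝ} {y : Fin d → ℝ} {G : Finset (Fin n)} {ρ : ℝ}
    (h : Bdd (sh a y) G ρ) : Inn a y := by
  intro v hv
  by_contra hcon
  push Not at hcon
  have hpos := ge_n2_pos hv
  have h1 : ∀ t : ℝ, 0 ≤ t → t * n2 v ≤ ρ := by
    intro t ht
    have h2 := h (t • v) fun i _ => by
      rw [dotProduct_smul, ge_sh_dot, smul_eq_mul]
      have h3 : t * (a i ⬝ᵥ v - y ⬝ᵥ v) ≤ 0 :=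
        mul_nonpos_of_nonneg_of_nonpos ht (by have := hcon i; linarith)
      linarith
    rwa [n2_smul, abs_of_nonneg ht] at h2
  have h2 := h1 ((|ρ| + 1) / n2 v) (by positivity)
  rw [div_mul_cancel₀ _ hpos.ne'] at h2
  have := le_abs_self ρ
  linarith

theorem bdd_of_inn {a : Fin n → Fin d → ℝ} {y : Fin d → ℝ} (hd : 1 ≤ d) (hy : Inn a y) :
    ∃ ρ, Bdd (sh a y) Finset.univ ρ := by
  have hcn : Continuous (n2 : (Fin d → ℝ) → ℝ) := by
    unfold n2
    simp only [dotProduct]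
    fun_prop
  obtain ⟨g, hg⟩ : ∃ g : (Fin d → ℝ) → ℝ, g = fun v => ∑ i, max 0 (sh a y i ⬝ᵥ v) := ⟨_, rfl⟩
  have hgc : Continuous g := by
    rw [hg]
    simp only [dotProduct]
    fun_prop
  have hK : IsCompact {v : Fin d → ℝ | n2 v = 1} := by
    refine Metric.isCompact_of_isClosed_isBounded (isClosed_eq hcn continuous_const) ?_
    rw [isBounded_iff_forall_norm_le]
    exact ⟨1, fun x hx => (norm_le_n2 x).trans (le_of_eq hx)⟩
  have hne : {v : Fin d → ℝ | n2 v = 1}.Nonempty := by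
    refine ⟨Pi.single ⟨0, hd⟩ 1, ?_⟩
    show n2 (Pi.single ⟨0, hd⟩ 1 : Fin d → ℝ) = 1
    unfold n2
    simp
  obtain ⟨v₀, hv₀, hmin⟩ := hK.exists_isMinOn hne hgc.continuousOn
  have hv₀' : n2 v₀ = 1 := hv₀
  have hgpos : 0 < g v₀ := by
    have hv0 : v₀ ≠ 0 := by
      intro h
      rw [h] at hv₀'
      have : n2 (0 : Fin d → ℝ) = 0 := by simp [n2]
      rw [this] at hv₀'
      exact zero_ne_one hv₀'
    obtain ⟨i, hi⟩ := hy v₀ hv0
    rw [hg]
    refine Finset.sum_pos' (fun j _ => le_max_left _ _) ⟨i, Finset.mem_univ _, ?_⟩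
    refine lt_max_of_lt_right ?_
    rw [ge_sh_dot]
    linarith
  refine ⟨n / g v₀, fun x hx => ?_⟩
  by_cases hx0 : x = 0
  · subst hx0
    have : n2 (0 : Fin d → ℝ) = 0 := by simp [n2]
    rw [this]
    positivity
  have hpos := ge_n2_pos hx0
  have h1 : g v₀ ≤ g ((n2 x)⁻¹ • x) := by
    refine hmin ?_
    show n2 ((n2 x)⁻¹ • x) = 1
    rw [n2_smul, abs_of_pos (inv_pos.2 hpos), inv_mul_cancel₀ hpos.ne']
  have h2 : g ((n2 x)⁻¹ • x) ≤ n * (n2 x)⁻¹ := by
    rw [hg]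
    have h3 : ∀ i : Fin n, max 0 (sh a y i ⬝ᵥ ((n2 x)⁻¹ • x)) ≤ (n2 x)⁻¹ := by
      intro i
      refine max_le (inv_pos.2 hpos).le ?_
      rw [dotProduct_smul, smul_eq_mul]
      exact mul_le_of_le_one_right (inv_pos.2 hpos).le (hx i (Finset.mem_univ _))
    refine (Finset.sum_le_sum fun i _ => h3 i).trans ?_
    rw [Finset.sum_const, Finset.card_univ, Fintype.card_fin, nsmul_eq_mul]
  have h3 := h1.trans h2
  rw [le_div_iff₀ hgpos]
  have h4 := mul_le_mul_of_nonneg_left h3 hpos.le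
  rw [mul_left_comm, mul_inv_cancel₀ hpos.ne', mul_one] at h4
  exact h4

private theorem ge_adj {a : Fin n → Fin d → ℝ} {I J : Idx n d} (h : (cgraph a).Adj I J) :
    Good a I ∧ Good a J ∧ ∃ k, (rng I).erase (I k) ⊆ rng J := by
  unfold cgraph at h
  rw [SimpleGraph.fromRel_adj] at h
  obtain ⟨hne, hor⟩ := h
  have h1 : Good a I ∧ Good a J ∧ (rng I ∩ rng J).card = d - 1 := by
    rcases hor with h | h
    · exact h
    · exact ⟨h.2.1, h.1, by rw [Finset.inter_comm]; exact h.2.2⟩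
  refine ⟨h1.1, h1.2.1, ?_⟩
  have h2 := Finset.card_sdiff_add_card_inter (rng I) (rng J)
  rw [card_rng, h1.2.2] at h2
  have h3 : (rng I \ rng J).card ≠ 0 := by
    intro h4
    rw [Finset.card_eq_zero, Finset.sdiff_eq_empty_iff_subset] at h4
    exact hne (rng_injective (Finset.eq_of_subset_of_card_le h4 (by
      rw [card_rng, card_rng])))
  have h4 : (rng I \ rng J).card = 1 := by omega
  obtain ⟨f, hf⟩ := Finset.card_eq_one.1 h4
  have h5 : f ∈ rng I := by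
    have : f ∈ rng I \ rng J := by rw [hf]; exact Finset.mem_singleton_self f
    exact (Finset.mem_sdiff.1 this).1
  obtain ⟨k, hk⟩ := mem_rng.1 h5
  refine ⟨k, fun i hi => ?_⟩
  rw [Finset.mem_erase] at hi
  by_contra hcon
  have h6 : i ∈ rng I \ rng J := Finset.mem_sdiff.2 ⟨hi.2, hcon⟩
  rw [hf, Finset.mem_singleton] at h6
  exact hi.1 (h6.trans hk.symm)

private theorem ge_walk {a : Fin n → Fin d → ℝ} (hs : Simple a) {I J : Idx n d}
    (p : (cgraph a).Walk I J) : ∀ (hI : Good a I) (hJ : Good a J),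
    (graph a).edist (toVert a ⟨I, hI⟩) (toVert a ⟨J, hJ⟩) ≤ (p.length : ℕ∞) := by
  induction p with
  | nil =>
    intro hI hJ
    simp
  | cons h p ih =>
    intro hI hJ
    obtain ⟨h1, h2, k, h3⟩ := ge_adj h
    refine (SimpleGraph.edist_triangle (v := toVert a ⟨_, h2⟩)).trans ?_
    rw [SimpleGraph.Walk.length_cons, Nat.cast_add, Nat.cast_one, add_comm]
    exact add_le_add (ih h2 hJ) (qp.edist_le_one hs h1 h2 (k := k) h3)

theorem ediam_le_of_cgraph {a : Fin n → Fin d → ℝ} (hs : Simple a) {D : ℝ≥0∞}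
    (h : ∀ I I' : Idx n d, Good a I → Good a I' →
      (((cgraph a).edist I I' : ℕ∞) : ℝ≥0∞) ≤ D) :
    (((graph a).ediam : ℕ∞) : ℝ≥0∞) ≤ D := by
  by_cases hD : D = ⊤
  · rw [hD]
    exact le_top
  have hkey : (graph a).ediam ≤ ((⌊D.toReal⌋₊ : ℕ) : ℕ∞) := by
    refine SimpleGraph.ediam_le_of_edist_le fun u v => ?_
    obtain ⟨⟨I, hI⟩, rfl⟩ := helper29.toVert_surjective a u
    obtain ⟨⟨J, hJ⟩, rfl⟩ := helper29.toVert_surjective a v
    have h1 := h I J hI hJ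
    have hne : (cgraph a).edist I J ≠ ⊤ := by
      intro h2
      rw [h2] at h1
      exact hD (top_le_iff.1 h1)
    obtain ⟨p, hp⟩ := SimpleGraph.exists_walk_of_edist_ne_top hne
    refine (ge_walk hs p hI hJ).trans ?_
    rw [← hp] at h1
    have h2 : ((p.length : ℕ) : ℝ≥0∞) ≤ D := by simpa using h1
    have h3 : (p.length : ℝ) ≤ D.toReal := by
      have := ENNReal.toReal_mono hD h2
      simpa using this
    exact_mod_cast Nat.le_floor h3
  calc (((graph a).ediam : ℕ∞) : ℝ≥0∞) ≤ (((⌊D.toReal⌋₊ : ℕ) : ℕ∞) : ℝ≥0∞) :=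
        ENat.toENNReal_le.2 hkey
    _ = ENNReal.ofReal ((⌊D.toReal⌋₊ : ℕ) : ℝ) := by
        rw [ENNReal.ofReal_natCast]
        rfl
    _ ≤ ENNReal.ofReal D.toReal :=
        ENNReal.ofReal_le_ofReal (Nat.floor_le ENNReal.toReal_nonneg)
    _ = D := ENNReal.ofReal_toReal hD

end Pool.Agent.H.MP_0cad2f_co.bd
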