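import Pool.Agent.H.MP_0cad2f_co.bd.Defs

/-!
Basic facts about bases, masks and crossings.
-/

set_option autoImplicit false

namespace Pool.Agent.H.MP_0cad2f_co.bd

open MeasureTheory ProbabilityTheory Matrix Finset
open scoped NNReal ENNReal
open Pool.Agent.H.MP_0cad2f_co.helper47
open Pool.Agent.H.MP_0cad2f_co.helper29 (toVert)

variable {n d : ℕ}

theorem mem_rng {B : Idx n d} {i : Fin n} : i ∈ rng B ↔ ∃ k, B k = i := by
  unfold rng
  rw [Finset.mem_map]
  constructor
  · rintro ⟨k, _, h⟩
    exact ⟨k, h⟩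
  · rintro ⟨k, h⟩
    exact ⟨k, Finset.mem_univ k, h⟩

theorem mem_rng_self (B : Idx n d) (k : Fin d) : B k ∈ rng B := mem_rng.mpr ⟨k, rfl⟩

theorem card_rng (B : Idx n d) : (rng B).card = d := by
  unfold rng
  rw [Finset.card_map, Finset.card_univ, Fintype.card_fin]

theorem rng_injective : Function.Injective (rng : Idx n d → Finset (Fin n)) := by
  intro B B' h
  apply OrderEmbedding.range_inj.mp
  ext i
  have h1 : i ∈ rng B ↔ i ∈ rng B' := by rw [h]
  rw [mem_rng, mem_rng] at h1
  exact h1

theorem card_idx_le : Fintype.card (Idx n d) ≤ n ^ d := by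
  have h : Function.Injective (fun B : Idx n d => (B : Fin d → Fin n)) := by
    intro B B' h
    exact RelEmbedding.ext fun k => congrFun h k
  have h1 := Fintype.card_le_of_injective _ h
  simpa using h1

/-- The number of small subsets. -/
theorem card_small_le (U : Finset (Fin n)) (d : ℕ) :
    (U.powerset.filter fun J => J.card ≤ d).card ≤ (U.card + 1) ^ d := by
  classical
  -- a small set is the image of a map to `Option U`
  let f : (Fin d → Option U) → Finset (Fin n) := fun g =>
    (Finset.univ.biUnion fun k => (g k).elim ∅ fun i => {i.1})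
  have hsub : (U.powerset.filter fun J => J.card ≤ d) ⊆ Finset.univ.image f := by
    intro J hJ
    rw [Finset.mem_filter, Finset.mem_powerset] at hJ
    rw [Finset.mem_image]
    let e := J.equivFin
    refine ⟨fun k => if h : (k : ℕ) < J.card then
      some ⟨(e.symm ⟨k, h⟩).1, hJ.1 (e.symm ⟨k, h⟩).2⟩ else none, Finset.mem_univ _, ?_⟩
    ext i
    simp only [f, Finset.mem_biUnion, Finset.mem_univ, true_and]
    constructor
    · rintro ⟨k, hk⟩
      by_cases h : (k : ℕ) < J.card
      · rw [dif_pos h] at hk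
        simp only [Option.elim_some, Finset.mem_singleton] at hk
        rw [hk]
        exact (e.symm ⟨k, h⟩).2
      · rw [dif_neg h] at hk
        simp at hk
    · intro hi
      have hlt : ((e ⟨i, hi⟩ : Fin J.card) : ℕ) < d := lt_of_lt_of_le (e ⟨i, hi⟩).2 hJ.2
      refine ⟨⟨e ⟨i, hi⟩, hlt⟩, ?_⟩
      rw [dif_pos (e ⟨i, hi⟩).2]
      simp
  calc (U.powerset.filter fun J => J.card ≤ d).card ≤ (Finset.univ.image f).card :=
        Finset.card_le_card hsub
    _ ≤ (Finset.univ : Finset (Fin d → Option U)).card := Finset.card_image_le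
    _ = (U.card + 1) ^ d := by
        rw [Finset.card_univ, Fintype.card_fun, Fintype.card_option, Fintype.card_fin,
          Fintype.card_coe]

theorem mat_mask {S : Finset (Fin n)} (a : Fin n → Fin d → ℝ) {B : Idx n d} (h : rng B ⊆ S) :
    mat (mask S a) B = mat a B := by
  funext k j
  unfold mat mask
  rw [if_pos (h (mem_rng_self B k))]

theorem nu_mask {S : Finset (Fin n)} (a : Fin n → Fin d → ℝ) {B : Idx n d} (h : rng B ⊆ S)
    (k : Fin d) : nu (mask S a) B k = nu a B k := by
  unfold nu
  rw [mat_mask a h]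

theorem vtx_mask {S : Finset (Fin n)} (a : Fin n → Fin d → ℝ) {B : Idx n d} (h : rng B ⊆ S) :
    vtx (mask S a) B = vtx a B := by
  unfold vtx
  exact Finset.sum_congr rfl fun k _ => nu_mask a h k

theorem good_mask {S : Finset (Fin n)} {a : Fin n → Fin d → ℝ} {B : Idx n d} (h : rng B ⊆ S)
    (hG : Good a B) : Good (mask S a) B := by
  refine ⟨?_, fun i => ?_⟩
  · rw [mat_mask a h]
    exact hG.1
  · rw [vtx_mask a h]
    unfold mask
    by_cases hi : i ∈ S
    · rw [if_pos hi]
      exact hG.2 i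
    · rw [if_neg hi, zero_dotProduct]
      exact zero_le_one

theorem mask_update {S : Finset (Fin n)} (a : Fin n → Fin d → ℝ) {f : Fin n} (hf : f ∈ S)
    (x : Fin d → ℝ) : mask S (Function.update a f x) = Function.update (mask S a) f x := by
  funext i
  unfold mask
  by_cases hi : i = f
  · subst hi
    rw [if_pos hf, Function.update_self, Function.update_self]
  · rw [Function.update_of_ne hi, Function.update_of_ne hi]

theorem hit_of_hitE {a : Fin n → Fin d → ℝ} {B : Idx n d} {k : Fin d} {c X : Fin d → ℝ} {M : ℝ}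
    (h : HitE a B k c M X) : Hit a B k c M X := by
  obtain ⟨h1, h2, h3, h4⟩ := h
  refine ⟨tm a B k c X, ⟨h2, h3⟩, h4, ?_⟩
  rw [dotProduct_add, dotProduct_smul, smul_eq_mul]
  unfold tm
  rw [div_mul_cancel₀ _ h1]
  ring

theorem hitE_of_hit {a : Fin n → Fin d → ℝ} {B : Idx n d} {k : Fin d} {c X : Fin d → ℝ} {M : ℝ}
    (hX : nu a B k ⬝ᵥ X ≠ 0) (h : Hit a B k c M X) : HitE a B k c M X := by
  obtain ⟨μ, hμ, h1, h2⟩ := h
  rw [dotProduct_add, dotProduct_smul, smul_eq_mul] at h2
  have hc : nu a B k ⬝ᵥ c ≠ 0 := by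
    intro h0
    rw [h0, mul_zero, add_zero] at h2
    exact hX h2
  have ht : tm a B k c X = μ := by
    unfold tm
    rw [div_eq_iff hc]
    linarith
  refine ⟨hc, ?_, ?_, ?_⟩
  · rw [ht]
    exact hμ.1
  · rw [ht]
    exact hμ.2
  · rw [ht]
    exact h1

end Pool.Agent.H.MP_0cad2f_co.bd
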