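import Pool.Agent.H.MP_0cad2f_co.bd.Defs
import Pool.Agent.H.MP_0cad2f_co.bd.Basic
import Pool.Agent.H.MP_0cad2f_co.helper73.Walk

/-!
The diameter in bounded dimension: the walk along a segment of objectives.
-/

set_option autoImplicit false

namespace Pool.Agent.H.MP_0cad2f_co.bd

open MeasureTheory ProbabilityTheory Matrix Finset
open scoped NNReal ENNReal
open Pool.Agent.H.MP_0cad2f_co.helper47

variable {n d : ℕ}

open Classical in
/-- Two different normal cones meeting in a point in general position share `d - 1` constraints. -/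
theorem Walk_card {a : Fin n → Fin d → ℝ} (hs : Simple a) {B B' : Idx n d}
    (hB : Good a B) (hB' : Good a B') (hne : B ≠ B') {w : Fin d → ℝ} (h : InCone a B w)
    (h' : InCone a B' w)
    (hw : ∀ s : Finset (Fin n), s.card + 1 < d → w ∉ Submodule.span ℝ (a '' (s : Set (Fin n)))) :
    (rng B ∩ rng B').card = d - 1 := by
  set K : Finset (Fin d) := Finset.univ.filter fun k => B k ∈ rng B' with hK
  have hK1 : ∀ k, nu a B k ⬝ᵥ w ≠ 0 → k ∈ K := fun k hk => by
    rw [hK, Finset.mem_filter]
    refine ⟨Finset.mem_univ k, ?_⟩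
    obtain ⟨l, hl⟩ := helper73.mem_range_of_ne hs hB hB' h h' hk
    exact mem_rng.2 ⟨l, hl⟩
  have hcard : (rng B ∩ rng B').card = K.card := by
    have : rng B ∩ rng B' = K.map B.toEmbedding := by
      ext i
      rw [Finset.mem_inter, mem_rng, Finset.mem_map]
      constructor
      · rintro ⟨⟨k, rfl⟩, h2⟩
        exact ⟨k, by rw [hK, Finset.mem_filter]; exact ⟨Finset.mem_univ k, h2⟩, rfl⟩
      · rintro ⟨k, hk, rfl⟩
        rw [hK, Finset.mem_filter] at hk
        exact ⟨⟨k, rfl⟩, hk.2⟩
    rw [this, Finset.card_map]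
  have hlt : (rng B ∩ rng B').card < d := by
    refine lt_of_lt_of_eq ?_ (card_rng B)
    refine Finset.card_lt_card ⟨Finset.inter_subset_left, fun h1 => hne ?_⟩
    apply rng_injective
    exact Finset.eq_of_subset_of_card_le (fun i hi => (Finset.mem_inter.1 (h1 hi)).2)
      (by rw [card_rng, card_rng])
  have hge : d ≤ K.card + 1 := by
    by_contra hlt'
    refine hw (K.map B.toEmbedding) (by rw [Finset.card_map]; omega) ?_
    exact helper73.mem_span_support hB.1 w K hK1
  omega

/-- The walk along a segment. -/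
theorem exists_walk {a : Fin n → Fin d → ℝ} (hd : 1 ≤ d) (hs : Simple a) {c X : Fin d → ℝ}
    {M : ℝ} (hM : 0 < M) (hX : Generic a c X)
    (hcov : ∀ μ ∈ Set.Icc (0 : ℝ) M, Generic a c (X + μ • c) →
      ∃ B, Good a B ∧ InCone a B (X + μ • c)) {B₀ B₁ : Idx n d} (hB₀ : Good a B₀)
    (hB₁ : Good a B₁) (h₀ : InCone a B₀ X) (h₁ : InCone a B₁ (X + M • c)) :
    ∃ w : (cgraph a).Walk B₀ B₁, w.length + 1 ≤ nVis a c M X ∧
      ∀ B ∈ w.support, Good a B ∧ Vis a c M B X := by
  classical
  have hadj : ∀ B B' : {B : Idx n d // Good a B}, (helper73.contact a c M X).Adj B B' →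
      (cgraph a).Adj B.1 B'.1 := by
    rintro B B' ⟨hne, μ, _, h1, h2⟩
    rw [cgraph, SimpleGraph.fromRel_adj]
    refine ⟨fun he => hne (Subtype.ext he), Or.inl ⟨B.2, B'.2, ?_⟩⟩
    have := Walk_card hs B.2 B'.2 (fun h => hne (Subtype.ext h)) h1 h2
      fun s hsc => helper73.line_generic hX μ s hsc
    convert this
  obtain ⟨p, hp⟩ := (helper73.reachable hM hX hcov ⟨B₀, hB₀⟩ ⟨B₁, hB₁⟩ h₀ h₁).exists_isPath
  have hvis : ∀ B ∈ p.support, Vis a c M B.1 X := by
    intro B hB
    by_cases hB0 : B = ⟨B₀, hB₀⟩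
    · subst hB0
      exact ⟨0, Set.left_mem_Icc.2 hM.le, by rwa [zero_smul, add_zero]⟩
    · have hq : 0 < (p.takeUntil B hB).length := by
        rcases Nat.eq_zero_or_pos (p.takeUntil B hB).length with h1 | h1
        · exact absurd (SimpleGraph.Walk.eq_of_length_eq_zero h1).symm hB0
        · exact h1
      have hr : 0 < (p.takeUntil B hB).reverse.length := by
        rwa [SimpleGraph.Walk.length_reverse]
      generalize (p.takeUntil B hB).reverse = r at hr
      cases r with
      | nil => simp at hr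
      | cons h q =>
        obtain ⟨-, μ, hμ, h1, -⟩ := h
        exact ⟨μ, hμ, h1⟩
  have h1 : (p.support.map Subtype.val).toFinset.card = p.length + 1 := by
    rw [List.toFinset_card_of_nodup (hp.support_nodup.map Subtype.val_injective),
      List.length_map, SimpleGraph.Walk.length_support]
  have h2 : (p.support.map Subtype.val).toFinset ⊆
      Finset.univ.filter fun B : Idx n d => Good a B ∧ Vis a c M B X := by
    intro B hB
    rw [List.mem_toFinset, List.mem_map] at hB
    obtain ⟨C, hC, rfl⟩ := hB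
    rw [Finset.mem_filter]
    exact ⟨Finset.mem_univ _, C.2, hvis C hC⟩
  refine ⟨p.map (⟨Subtype.val, fun {B B'} h => hadj B B' h⟩ :
    helper73.contact a c M X →g cgraph a), ?_, ?_⟩
  · rw [SimpleGraph.Walk.length_map, ← h1]
    unfold nVis
    convert Finset.card_le_card h2
  · intro B hB
    rw [SimpleGraph.Walk.support_map, List.mem_map] at hB
    obtain ⟨C, hC, rfl⟩ := hB
    exact ⟨C.2, hvis C hC⟩

end Pool.Agent.H.MP_0cad2f_co.bd
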