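import Pool.Agent.H.MP_0cad2f_co.bd.Defs
import Pool.Agent.H.MP_0cad2f_co.bd.Basic
import Pool.Agent.H.MP_0cad2f_co.bd.Walk
import Pool.Agent.H.MP_0cad2f_co.helper29.Cover
import Pool.Agent.H.MP_0cad2f_co.helper29.Point

/-!
The diameter in bounded dimension: the distance of two bases.
-/

set_option autoImplicit false

namespace Pool.Agent.H.MP_0cad2f_co.bd

open MeasureTheory ProbabilityTheory Matrix Finset
open scoped NNReal ENNReal Pointwise
open Pool.Agent.H.MP_0cad2f_co.helper47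

variable {n d : ℕ}

/-- In a polytope every generic objective lies in the cone of a feasible basis. -/
theorem PairDist_cover {a : Fin n → Fin d → ℝ} (hd : 1 ≤ d) {ρ : ℝ}
    (hb : Bdd a Finset.univ ρ) {c w : Fin d → ℝ} (hw : Generic a c w) :
    ∃ B, Good a B ∧ InCone a B w := by
  refine helper29.exists_good_cone (K := (n2 w + 1) * max ρ 0) hd (fun x hx => ?_) hw
  have h1 : n2 x ≤ max ρ 0 := (hb x fun i _ => hx i).trans (le_max_left _ _)
  have h2 := dot_le w x
  have h3 : (n2 w + 1) * n2 x ≤ (n2 w + 1) * max ρ 0 :=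
    mul_le_mul_of_nonneg_left h1 (by linarith [n2_nonneg w])
  linarith

theorem PairDist_meas (a : Fin n → Fin d → ℝ) (c p : Fin d → ℝ) (M : ℝ) :
    Measurable fun X : Fin d → ℝ => (nVis a c M (X + p) : ℝ≥0∞) := by
  classical
  have h1 : ∀ B : Idx n d, MeasurableSet {X : Fin d → ℝ | Vis a c M B (X + p)} := by
    intro B
    have hC : IsClosed {w : Fin d → ℝ | InCone a B w} := by
      have : {w : Fin d → ℝ | InCone a B w} = ⋂ k, {w | 0 ≤ nu a B k ⬝ᵥ w} := by
        ext w
        simp [InCone]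
      rw [this]
      refine isClosed_iInter fun k => isClosed_le continuous_const ?_
      unfold dotProduct
      fun_prop
    have hK : IsCompact ((fun μ : ℝ => -(μ • c)) '' Set.Icc (0 : ℝ) M) :=
      isCompact_Icc.image (by fun_prop)
    have hS := (hC.add_right_of_isCompact hK).measurableSet
    have hE : {X : Fin d → ℝ | Vis a c M B (X + p)} = (fun X => X + p) ⁻¹'
        ({w : Fin d → ℝ | InCone a B w} + (fun μ : ℝ => -(μ • c)) '' Set.Icc (0 : ℝ) M) := by
      ext X
      rw [Set.mem_preimage, Set.mem_add]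
      constructor
      · rintro ⟨μ, hμ, h⟩
        exact ⟨_, h, _, ⟨μ, hμ, rfl⟩, add_neg_cancel_right _ _⟩
      · rintro ⟨w, hw, _, ⟨μ, hμ, rfl⟩, h⟩
        refine ⟨μ, hμ, ?_⟩
        rw [← h]
        simpa using hw
    rw [hE]
    exact (measurable_id.add_const p) hS
  have h2 : ∀ X : Fin d → ℝ, (nVis a c M (X + p) : ℝ≥0∞) =
      ∑ B : Idx n d, if Good a B ∧ Vis a c M B (X + p) then 1 else 0 := by
    intro X
    rw [nVis, Finset.card_filter]
    push_cast
    refine Finset.sum_congr rfl fun B _ => ?_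
    split_ifs <;> rfl
  simp_rw [h2]
  refine Finset.measurable_sum _ fun B _ => Measurable.ite ?_ measurable_const measurable_const
  exact (MeasurableSet.const _).inter (h1 B)

/-- Half of a path. -/
theorem PairDist_half {a : Fin n → Fin d → ℝ} (hd : 1 ≤ d) (hs : Simple a) {ρ : ℝ}
    (hb : Bdd a Finset.univ ρ) (p : Fin d → ℝ) {M R : ℝ} (hM : 0 < M)
    {I B : Idx n d} (hI : Good a I) (hB : Good a B)
    (hMI : ∀ k, n2 (nu a I k) * (n2 p + d * R) ≤ M) {X : Fin d → ℝ} (hX : ‖X‖ ≤ R)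
    (hXp : Generic a (cI a I) (X + p)) (hBX : InCone a B (X + p)) :
    (cgraph a).edist B I ≤ (nVis a (cI a I) M (X + p) : ℕ∞) := by
  have h1 : InCone a I (X + p + M • cI a I) := by
    intro k
    have h2 : nu a I k ⬝ᵥ cI a I = 1 := by
      rw [cI, dotProduct_comm, sum_dotProduct, Finset.sum_eq_single k]
      · rw [dot_nu_self hI.1]
      · intro l _ hl
        rw [dot_nu_ne hI.1 hl]
      · intro h
        exact absurd (Finset.mem_univ k) h
    have h3 : |nu a I k ⬝ᵥ (X + p)| ≤ M := by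
      refine (abs_dot_le _ _).trans (le_trans ?_ (hMI k))
      refine mul_le_mul_of_nonneg_left ?_ (n2_nonneg _)
      refine (n2_add_le _ _).trans ?_
      have : n2 X ≤ d * R := (n2_le X).trans (mul_le_mul_of_nonneg_left hX (by positivity))
      linarith
    have h4 := neg_le_of_abs_le h3
    rw [dotProduct_add, dotProduct_smul, smul_eq_mul, h2]
    linarith
  obtain ⟨w, hw, -⟩ := exists_walk hd hs hM hXp
    (fun μ _ hg => PairDist_cover hd hb hg) hB hI hBX h1
  refine w.edist_le.trans ?_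
  exact_mod_cast (Nat.le_succ _).trans hw

theorem edist_le_avg {a : Fin n → Fin d → ℝ} (hd : 1 ≤ d) (hs : Simple a) {ρ : ℝ}
    (hb : Bdd a Finset.univ ρ) (p : Fin d → ℝ) {M R : ℝ} (hM : 0 < M) (hR : 0 < R)
    {I I' : Idx n d} (hI : Good a I) (hI' : Good a I')
    (hMI : ∀ k, n2 (nu a I k) * (n2 p + d * R) ≤ M)
    (hMI' : ∀ k, n2 (nu a I' k) * (n2 p + d * R) ≤ M) :
    (((cgraph a).edist I I' : ℕ∞) : ℝ≥0∞) ≤
      avg a p (cI a I) M R + avg a p (cI a I') M R := by
  have hmeas := PairDist_meas a (cI a I) p M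
  rw [avg, avg, ← ENNReal.add_div, ENNReal.le_div_iff_mul_le
    (Or.inl (helper29.cubeVol_ne_zero hR)) (Or.inl (helper29.cubeVol_ne_top R)),
    ← lintegral_add_left hmeas]
  have h1 : (((cgraph a).edist I I' : ℕ∞) : ℝ≥0∞) * cubeVol d R =
      ∫⁻ _X in {X : Fin d → ℝ | ‖X‖ ≤ R}, (((cgraph a).edist I I' : ℕ∞) : ℝ≥0∞) := by
    rw [setLIntegral_const]
    rfl
  rw [h1]
  refine setLIntegral_mono_ae' (measurableSet_le measurable_norm measurable_const) ?_
  filter_upwards [helper29.ae_generic hd a (cI a I) p, helper29.ae_generic hd a (cI a I') p]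
    with X hX hX' hXR
  obtain ⟨B, hB, hBX⟩ := PairDist_cover hd hb hX
  have h2 := PairDist_half hd hs hb p hM hI hB hMI hXR hX hBX
  have h3 := PairDist_half hd hs hb p hM hI' hB hMI' hXR hX' hBX
  have h4 : (cgraph a).edist I I' ≤
      (nVis a (cI a I) M (X + p) : ℕ∞) + (nVis a (cI a I') M (X + p) : ℕ∞) := by
    refine (SimpleGraph.edist_triangle (v := B)).trans (add_le_add ?_ h3)
    rw [SimpleGraph.edist_comm]
    exact h2
  have h5 := ENat.toENNReal_le.2 h4
  rwa [ENat.toENNReal_add, ENat.toENNReal_coe, ENat.toENNReal_coe] at h5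

theorem edist_crude {a : Fin n → Fin d → ℝ} (hd : 1 ≤ d) (hs : Simple a) {ρ : ℝ}
    (hb : Bdd a Finset.univ ρ) {I I' : Idx n d} (hI : Good a I) (hI' : Good a I') :
    (cgraph a).edist I I' ≤ ((2 * n ^ d : ℕ) : ℕ∞) := by
  classical
  obtain ⟨X, ⟨hX, hX'⟩, hXR⟩ : ∃ X : Fin d → ℝ, (Generic a (cI a I) (X + 0) ∧
      Generic a (cI a I') (X + 0)) ∧ ‖X‖ ≤ 1 := by
    by_contra hno
    have h1 := (helper29.ae_generic hd a (cI a I) 0).and (helper29.ae_generic hd a (cI a I') 0)
    refine helper29.cubeVol_ne_zero (d := d) one_pos (measure_mono_null (fun X hX => ?_)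
      (ae_iff.1 h1))
    exact fun h2 => hno ⟨X, h2, hX⟩
  obtain ⟨B, hB, hBX⟩ := PairDist_cover hd hb hX
  set M : ℝ := 1 + ∑ k, n2 (nu a I k) * (n2 (0 : Fin d → ℝ) + d * 1) +
    ∑ k, n2 (nu a I' k) * (n2 (0 : Fin d → ℝ) + d * 1) with hMd
  have hterm : ∀ (J : Idx n d) (k : Fin d),
      0 ≤ n2 (nu a J k) * (n2 (0 : Fin d → ℝ) + d * 1) := fun J k =>
    mul_nonneg (n2_nonneg _) (by have := n2_nonneg (0 : Fin d → ℝ); positivity)
  have hsum : ∀ J : Idx n d, 0 ≤ ∑ k, n2 (nu a J k) * (n2 (0 : Fin d → ℝ) + d * 1) := fun J =>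
    Finset.sum_nonneg fun k _ => hterm J k
  have hM : 0 < M := by
    have h1 := hsum I
    have h2 := hsum I'
    linarith
  have hMI : ∀ k, n2 (nu a I k) * (n2 (0 : Fin d → ℝ) + d * 1) ≤ M := fun k => by
    have h1 := Finset.single_le_sum (f := fun k => n2 (nu a I k) * (n2 (0 : Fin d → ℝ) + d * 1))
      (fun k _ => hterm I k) (Finset.mem_univ k)
    have h2 := hsum I'
    linarith
  have hMI' : ∀ k, n2 (nu a I' k) * (n2 (0 : Fin d → ℝ) + d * 1) ≤ M := fun k => by
    have h1 := Finset.single_le_sum (f := fun k => n2 (nu a I' k) * (n2 (0 : Fin d → ℝ) + d * 1))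
      (fun k _ => hterm I' k) (Finset.mem_univ k)
    have h2 := hsum I
    linarith
  have h2 := PairDist_half hd hs hb 0 hM hI hB hMI hXR hX hBX
  have h3 := PairDist_half hd hs hb 0 hM hI' hB hMI' hXR hX' hBX
  have h4 : ∀ c : Fin d → ℝ, nVis a c M (X + 0) ≤ n ^ d := fun c =>
    (Finset.card_le_univ _).trans card_idx_le
  refine (SimpleGraph.edist_triangle (v := B)).trans ?_
  rw [SimpleGraph.edist_comm]
  refine (add_le_add h2 h3).trans ?_
  have h5 := add_le_add (h4 (cI a I)) (h4 (cI a I'))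
  have h6 : nVis a (cI a I) M (X + 0) + nVis a (cI a I') M (X + 0) ≤ 2 * n ^ d := by omega
  exact_mod_cast h6

end Pool.Agent.H.MP_0cad2f_co.bd
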