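import Pool.Agent.H.MP_0cad2f_co.bd.AvgLe
import Pool.Agent.H.MP_0cad2f_co.bd.CoreDef
import Pool.Agent.H.MP_0cad2f_co.bd.GraphEquiv
import Pool.Agent.H.MP_0cad2f_co.bd.PairDist

/-!
The pointwise bound for the diameter: every pair of bases is connected through a block.
-/

set_option autoImplicit false

namespace Pool.Agent.H.MP_0cad2f_co.bd

open MeasureTheory ProbabilityTheory Matrix Finset
open scoped NNReal ENNReal
open Pool.Agent.H.MP_0cad2f_co.helper47
open Pool.Agent.H.MP_0cad2f_co.helper29 (toVert)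

variable {n d : ℕ}

/-- A number is at most the threshold plus a scaled power. -/
private theorem assemble_le_add_pow {x L : ℝ≥0∞} (hL : L ≠ 0) (hL' : L ≠ ⊤) {d : ℕ}
    (hd : 1 ≤ d) : x ≤ L + x ^ d / L ^ (d - 1) := by
  rcases le_total x L with h | h
  · exact h.trans (self_le_add_right _ _)
  · refine le_trans ?_ (self_le_add_left _ _)
    obtain ⟨e, rfl⟩ : ∃ e, d = e + 1 := ⟨d - 1, by omega⟩
    rw [Nat.add_sub_cancel, ENNReal.le_div_iff_mul_le
      (Or.inl (pow_ne_zero _ hL)) (Or.inl (ENNReal.pow_ne_top hL')), pow_succ']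
    gcongr

/-- Among `k + 1` disjoint sets one misses a given set of at most `k` elements. -/
private theorem assemble_pigeon {k : ℕ} (F : Fin (k + 1) → Finset (Fin n))
    (hF : ∀ t t', t ≠ t' → Disjoint (F t) (F t')) {V : Finset (Fin n)} (hV : V.card ≤ k) :
    ∃ t, Disjoint (F t) V := by
  classical
  by_contra hcon
  push Not at hcon
  have h1 : ∀ t, ∃ i, i ∈ F t ∧ i ∈ V := fun t => Finset.not_disjoint_iff.mp (hcon t)
  choose f hf hfV using h1
  have hinj : Function.Injective f := by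
    intro t t' h
    by_contra hne
    exact Finset.disjoint_left.mp (hF t t' hne) (hf t) (h ▸ hf t')
  have h2 : (Finset.univ.image f).card ≤ V.card := by
    refine Finset.card_le_card fun i hi => ?_
    obtain ⟨t, _, rfl⟩ := Finset.mem_image.mp hi
    exact hfV t
  rw [Finset.card_image_of_injective _ hinj, Finset.card_univ, Fintype.card_fin] at h2
  omega

open Classical in
/-- The average for one basis outside a block. -/
private theorem assemble_avg {a : Fin n → Fin d → ℝ} (c : Fin n → Fin d → ℝ) (hd : 2 ≤ d)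
    (hgen : AffGen a) (hnear : ∀ i, n2 (a i - c i) ≤ 1)
    {ρ M R lam : ℝ} (hR : 0 < R) (hM : 0 < M) (hl : 0 < lam) {G : Finset (Fin n)}
    (hG : G.card = d + 1) (hb : Bdd (sh a (bar a G)) G ρ) {I : Idx n d}
    (hI : Good (sh a (bar a G)) I) (hIG : Disjoint G (rng I)) {u : ℕ}
    (hu : 2 * d + 1 + d * d ≤ u) :
    avg (sh a (bar a G)) 0 (cI (sh a (bar a G)) I) M R ≤ ENNReal.ofReal lam +
      (((u + 1) ^ d : ℕ) : ℝ≥0∞) ^ d / ENNReal.ofReal lam ^ (d - 1) *
        ∑ r ∈ Finset.range (d + 1), ((d.choose r * 2 ^ r : ℕ) : ℝ≥0∞) *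
          coreSum (sh c (bar a G)) (sh a (bar a G)) G 0 M R r := by
  have hL : ENNReal.ofReal lam ≠ 0 := (ENNReal.ofReal_pos.mpr hl).ne'
  have hbu : Bdd (sh a (bar a G)) Finset.univ ρ :=
    fun x hx => hb x fun i _ => hx i (Finset.mem_univ i)
  have hU : (G ∪ rng I).card + d * d ≤ u := by
    have h1 := Finset.card_union_le G (rng I)
    rw [hG, card_rng] at h1
    omega
  have h2 := avg_pow_le (a := sh a (bar a G)) (by omega : 1 ≤ d) (simple_sh hgen _) hbu 0
    (cI (sh a (bar a G)) I) hM hR (q := d) hU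
  refine (assemble_le_add_pow hL ENNReal.ofReal_ne_top (by omega : 1 ≤ d)).trans ?_
  gcongr
  rw [ENNReal.mul_div_right_comm.symm]
  refine ENNReal.div_le_div_right (h2.trans ?_) _
  gcongr with r hr
  unfold coreSum
  have hcond : rng I ⊆ Gᶜ ∧ Good (sh a (bar a G)) I ∧
      ∀ i ∈ Gᶜ, n2 (sh a (bar a G) i - sh c (bar a G) i) ≤ 1 := by
    refine ⟨fun i hi => Finset.mem_compl.mpr fun hiG =>
      Finset.disjoint_left.mp hIG hiG hi, hI, fun i _ => ?_⟩
    have h3 : sh a (bar a G) i - sh c (bar a G) i = a i - c i := by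
      unfold sh
      abel
    rw [h3]
    exact hnear i
  refine le_trans ?_ (Finset.single_le_sum (f := fun I : Idx n d =>
    if rng I ⊆ Gᶜ ∧ Good (sh a (bar a G)) I ∧
      (∀ i ∈ Gᶜ, n2 (sh a (bar a G) i - sh c (bar a G) i) ≤ 1) then
    R0 (sh a (bar a G)) 0 (cI (sh a (bar a G)) I) M R r (G ∪ rng I) else 0)
    (fun _ _ => zero_le) (Finset.mem_univ I))
  rw [if_pos hcond]

open Classical in
/-- The pointwise bound. -/
theorem ediam_le_core {a : Fin n → Fin d → ℝ} (c : Fin n → Fin d → ℝ) (hd : 2 ≤ d)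
    (hgen : AffGen a) (hc : ∀ i, n2 (c i) ≤ 1) (hnear : ∀ i, n2 (a i - c i) ≤ 1)
    {ρ T M R lam : ℝ} (hR : 0 < R) (hM : 0 < M) (hl : 0 < lam) {m : ℕ}
    (G : Fin (2 * d + 1) → Fin m → Finset (Fin n)) (hG : ∀ t s, (G t s).card = d + 1)
    (hdisj : ∀ t s t' s', (t, s) ≠ (t', s') → Disjoint (G t s) (G t' s'))
    (S : Fin (2 * d + 1) → Fin m → Set (Fin n → Fin d → ℝ))
    (hS : ∀ t s, a ∈ S t s → Bdd (sh a (bar a (G t s))) (G t s) ρ) (hgood : ∀ t, ∃ s, a ∈ S t s)
    (hnu : ∀ t s, ∀ I : Idx n d, Disjoint (G t s) (rng I) → ∀ k,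
      n2 (nu (sh a (bar a (G t s))) I k) ≤ T) (hTM : T * (d * R) ≤ M)
    {y : Fin d → ℝ} (hy : Inn a y) {u : ℕ} (hu : 2 * d + 1 + d * d ≤ u) :
    (((graph (sh a y)).ediam : ℕ∞) : ℝ≥0∞) ≤ ENNReal.ofReal (2 * lam) +
      2 * (((u + 1) ^ d : ℕ) : ℝ≥0∞) ^ d / ENNReal.ofReal lam ^ (d - 1) *
        ∑ t, ∑ s, ∑ r ∈ Finset.range (d + 1), ((d.choose r * 2 ^ r : ℕ) : ℝ≥0∞) *
          (if (∀ i ∈ G t s, n2 (a i) ≤ 2) ∧ a ∈ S t s then
            coreSum (sh c (bar a (G t s))) (sh a (bar a (G t s))) (G t s) 0 M R r else 0) := by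
  refine ediam_le_of_cgraph (simple_sh hgen y) fun I I' hI hI' => ?_
  choose s hs using hgood
  obtain ⟨t, ht⟩ := assemble_pigeon (fun t => G t (s t))
    (fun t t' htt => hdisj _ _ _ _ fun h => htt (congrArg Prod.fst h))
    (V := rng I ∪ rng I') (by
      have h1 := Finset.card_union_le (rng I) (rng I')
      rw [card_rng, card_rng] at h1
      omega)
  have htI : Disjoint (G t (s t)) (rng I) :=
    Finset.disjoint_of_subset_right Finset.subset_union_left ht
  have htI' : Disjoint (G t (s t)) (rng I') :=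
    Finset.disjoint_of_subset_right Finset.subset_union_right ht
  have hb := hS t (s t) (hs t)
  have hinn : Inn a (bar a (G t (s t))) := inn_of_bdd hb
  have hbu : Bdd (sh a (bar a (G t (s t)))) Finset.univ ρ :=
    fun x hx => hb x fun i _ => hx i (Finset.mem_univ i)
  have hJ := (good_sh_iff hy hinn I).mp hI
  have hJ' := (good_sh_iff hy hinn I').mp hI'
  have hn0 : n2 (0 : Fin d → ℝ) = 0 := by simp [n2]
  have hMk : ∀ J : Idx n d, Disjoint (G t (s t)) (rng J) → ∀ k,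
      n2 (nu (sh a (bar a (G t (s t)))) J k) * (n2 (0 : Fin d → ℝ) + d * R) ≤ M := by
    intro J hJ k
    rw [hn0, zero_add]
    refine le_trans ?_ hTM
    exact mul_le_mul_of_nonneg_right (hnu t (s t) J hJ k) (by positivity)
  rw [cgraph_sh_eq hy hinn]
  refine (edist_le_avg (by omega : 1 ≤ d) (simple_sh hgen _) hbu 0 hM hR hJ hJ'
    (hMk I htI) (hMk I' htI')).trans ?_
  refine (add_le_add (assemble_avg c hd hgen hnear hR hM hl (hG t (s t)) hb hJ htI hu)
    (assemble_avg c hd hgen hnear hR hM hl (hG t (s t)) hb hJ' htI' hu)).trans ?_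
  have hcond : (∀ i ∈ G t (s t), n2 (a i) ≤ 2) ∧ a ∈ S t (s t) := by
    refine ⟨fun i _ => ?_, hs t⟩
    have h1 := n2_add_le (a i - c i) (c i)
    rw [sub_add_cancel] at h1
    linarith [hnear i, hc i]
  have hterm : ∑ r ∈ Finset.range (d + 1), ((d.choose r * 2 ^ r : ℕ) : ℝ≥0∞) *
      coreSum (sh c (bar a (G t (s t)))) (sh a (bar a (G t (s t)))) (G t (s t)) 0 M R r ≤
      ∑ t, ∑ s, ∑ r ∈ Finset.range (d + 1), ((d.choose r * 2 ^ r : ℕ) : ℝ≥0∞) *
        (if (∀ i ∈ G t s, n2 (a i) ≤ 2) ∧ a ∈ S t s then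
          coreSum (sh c (bar a (G t s))) (sh a (bar a (G t s))) (G t s) 0 M R r else 0) := by
    refine le_trans ?_ (Finset.single_le_sum (f := fun t => ∑ s, ∑ r ∈ Finset.range (d + 1),
      ((d.choose r * 2 ^ r : ℕ) : ℝ≥0∞) * (if (∀ i ∈ G t s, n2 (a i) ≤ 2) ∧ a ∈ S t s then
        coreSum (sh c (bar a (G t s))) (sh a (bar a (G t s))) (G t s) 0 M R r else 0))
      (fun _ _ => zero_le) (Finset.mem_univ t))
    refine le_trans ?_ (Finset.single_le_sum (f := fun s => ∑ r ∈ Finset.range (d + 1),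
      ((d.choose r * 2 ^ r : ℕ) : ℝ≥0∞) * (if (∀ i ∈ G t s, n2 (a i) ≤ 2) ∧ a ∈ S t s then
        coreSum (sh c (bar a (G t s))) (sh a (bar a (G t s))) (G t s) 0 M R r else 0))
      (fun _ _ => zero_le) (Finset.mem_univ (s t)))
    refine le_of_eq (Finset.sum_congr rfl fun r _ => ?_)
    rw [if_pos hcond]
  have h2 : ENNReal.ofReal (2 * lam) = 2 * ENNReal.ofReal lam := by
    rw [ENNReal.ofReal_mul (by norm_num)]
    norm_num
  rw [h2, mul_div_assoc]
  calc _ = 2 * ENNReal.ofReal lam + 2 * ((((u + 1) ^ d : ℕ) : ℝ≥0∞) ^ d /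
        ENNReal.ofReal lam ^ (d - 1)) * ∑ r ∈ Finset.range (d + 1),
        ((d.choose r * 2 ^ r : ℕ) : ℝ≥0∞) *
        coreSum (sh c (bar a (G t (s t)))) (sh a (bar a (G t (s t)))) (G t (s t)) 0 M R r := by
        ring
    _ ≤ _ := by
        gcongr

end Pool.Agent.H.MP_0cad2f_co.bd
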