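import Pool.Agent.H.MP_0cad2f_co.bd.CoreDef
import Pool.Agent.H.MP_0cad2f_co.helper96.Meas2

/-!
The diameter in bounded dimension: measurability and local dependence.
-/

set_option autoImplicit false

namespace Pool.Agent.H.MP_0cad2f_co.bd

open MeasureTheory ProbabilityTheory Matrix Finset
open scoped NNReal ENNReal
open Pool.Agent.H.MP_0cad2f_co.helper47

variable {n d : ℕ}

private theorem meas_dot {α : Type*} [MeasurableSpace α] {f g : α → Fin d → ℝ}
    (hf : Measurable f) (hg : Measurable g) : Measurable fun x => f x ⬝ᵥ g x :=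
  helper96.measurable_dot hf hg

private theorem meas_nu {α : Type*} [MeasurableSpace α] {f : α → Fin n → Fin d → ℝ}
    (hf : Measurable f) (B : Idx n d) (k : Fin d) : Measurable fun x => nu (f x) B k :=
  (helper11.TD.measurable_nu B k).comp hf

theorem measurable_phi (p : Fin d → ℝ) (M R : ℝ) (B : Idx n d) (k : Fin d) :
    Measurable fun q : (Fin n → Fin d → ℝ) × (Fin d → ℝ) => phi q.1 p q.2 M R B k := by
  have ha : Measurable fun s : ((Fin n → Fin d → ℝ) × (Fin d → ℝ)) × (Fin d → ℝ) => s.1.1 :=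
    measurable_fst.comp measurable_fst
  have hc : Measurable fun s : ((Fin n → Fin d → ℝ) × (Fin d → ℝ)) × (Fin d → ℝ) => s.1.2 :=
    measurable_snd.comp measurable_fst
  have hX : Measurable fun s : ((Fin n → Fin d → ℝ) × (Fin d → ℝ)) × (Fin d → ℝ) => s.2 + p :=
    measurable_snd.add_const p
  have hnc : Measurable fun s : ((Fin n → Fin d → ℝ) × (Fin d → ℝ)) × (Fin d → ℝ) =>
      nu s.1.1 B k ⬝ᵥ s.1.2 := meas_dot (meas_nu ha B k) hc
  have htm : Measurable fun s : ((Fin n → Fin d → ℝ) × (Fin d → ℝ)) × (Fin d → ℝ) =>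
      tm s.1.1 B k s.1.2 (s.2 + p) := by
    unfold tm
    exact (meas_dot (meas_nu ha B k) hX).neg.div hnc
  have hcone : MeasurableSet {s : ((Fin n → Fin d → ℝ) × (Fin d → ℝ)) × (Fin d → ℝ) |
      InCone s.1.1 B (s.2 + p + tm s.1.1 B k s.1.2 (s.2 + p) • s.1.2)} := by
    have h1 : {s : ((Fin n → Fin d → ℝ) × (Fin d → ℝ)) × (Fin d → ℝ) |
        InCone s.1.1 B (s.2 + p + tm s.1.1 B k s.1.2 (s.2 + p) • s.1.2)} =
        ⋂ l, {s | 0 ≤ nu s.1.1 B l ⬝ᵥ (s.2 + p + tm s.1.1 B k s.1.2 (s.2 + p) • s.1.2)} := by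
      ext s
      simp only [InCone, Set.mem_setOf_eq, Set.mem_iInter]
    rw [h1]
    refine MeasurableSet.iInter fun l => measurableSet_le measurable_const ?_
    exact meas_dot (meas_nu ha B l) (hX.add (htm.smul hc))
  have hS : MeasurableSet {s : ((Fin n → Fin d → ℝ) × (Fin d → ℝ)) × (Fin d → ℝ) |
      ‖s.2‖ ≤ R ∧ HitE s.1.1 B k s.1.2 M (s.2 + p)} := by
    refine MeasurableSet.inter (measurableSet_le measurable_snd.norm measurable_const) ?_
    refine MeasurableSet.inter (measurableSet_eq_fun hnc measurable_const).compl ?_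
    refine MeasurableSet.inter (measurableSet_le measurable_const htm) ?_
    exact MeasurableSet.inter (measurableSet_le htm measurable_const) hcone
  exact (measurable_measure_prodMk_left hS).div_const _

private theorem meas_mask (S : Finset (Fin n)) :
    Measurable fun a : Fin n → Fin d → ℝ => mask S a := by
  refine measurable_pi_lambda _ fun i => ?_
  unfold mask
  by_cases h : i ∈ S
  · simp only [if_pos h]
    exact measurable_pi_apply i
  · simp only [if_neg h]
    exact measurable_const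

private theorem meas_near (cc : Fin n → Fin d → ℝ) (Z : Finset (Fin n)) :
    MeasurableSet {a : Fin n → Fin d → ℝ | ∀ i ∈ Z, n2 (a i - cc i) ≤ 1} := by
  have h1 : {a : Fin n → Fin d → ℝ | ∀ i ∈ Z, n2 (a i - cc i) ≤ 1} =
      ⋂ i ∈ Z, {a : Fin n → Fin d → ℝ | n2 (a i - cc i) ≤ 1} := by
    ext a
    simp only [Set.mem_setOf_eq, Set.mem_iInter]
  rw [h1]
  refine Finset.measurableSet_biInter _ fun i _ => ?_
  exact measurableSet_le (helper11.TD.measurable_n2.comp
    ((measurable_pi_apply i).sub_const _)) measurable_const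

theorem measurableSet_ok (cc : Fin n → Fin d → ℝ) (ρ : ℝ) (J Z : Finset (Fin n)) (B : Idx n d) :
    MeasurableSet {a : Fin n → Fin d → ℝ | Ok cc a ρ J Z B} := by
  have h1 : {a : Fin n → Fin d → ℝ | Ok cc a ρ J Z B} =
      {a | Good (mask (J ∪ Z) a) B} ∩ ({a | n2 (vtx a B) ≤ ρ} ∩
        {a | ∀ i ∈ Z, n2 (a i - cc i) ≤ 1}) := by
    ext a
    simp only [Set.mem_setOf_eq, Set.mem_inter_iff]
    exact ⟨fun h => ⟨h.good, h.vtx_le, h.near⟩, fun h => ⟨h.1, h.2.1, h.2.2⟩⟩
  rw [h1]
  refine MeasurableSet.inter (meas_mask (J ∪ Z) (helper11.TD.measurableSet_good B))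
    (MeasurableSet.inter ?_ (meas_near cc Z))
  exact measurableSet_le (helper11.TD.measurable_n2.comp (helper11.TD.measurable_vtx B))
    measurable_const

theorem measurableSet_fat (s₀ : ℝ) (J Z : Finset (Fin n)) (B : Idx n d) (k : Fin d) :
    MeasurableSet {a : Fin n → Fin d → ℝ | Fat a s₀ J Z B k} := by
  have h1 : {a : Fin n → Fin d → ℝ | Fat a s₀ J Z B k} =
      {a | Good (mask (J ∪ Z) a) B} ∩ ({a | n2 (nu a B k) ≤ 1 / s₀} ∩
        {a | n2 (a (B k)) ≤ 5}) := by
    ext a
    simp only [Set.mem_setOf_eq, Set.mem_inter_iff]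
    exact ⟨fun h => ⟨h.good, h.nu_le, h.norm_le⟩, fun h => ⟨h.1, h.2.1, h.2.2⟩⟩
  rw [h1]
  refine MeasurableSet.inter (meas_mask (J ∪ Z) (helper11.TD.measurableSet_good B))
    (MeasurableSet.inter ?_ ?_)
  · exact measurableSet_le (helper11.TD.measurable_n2.comp (helper11.TD.measurable_nu B k))
      measurable_const
  · exact measurableSet_le (helper11.TD.measurable_n2.comp (measurable_pi_apply (B k)))
      measurable_const

theorem measurable_RC (cc : Fin n → Fin d → ℝ) (ρ : ℝ) (p : Fin d → ℝ) (M R : ℝ)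
    (Zs : List (Finset (Fin n))) (U : Finset (Fin n)) :
    Measurable fun q : (Fin n → Fin d → ℝ) × (Fin d → ℝ) =>
      RC cc q.1 ρ p q.2 M R Zs U := by
  classical
  induction Zs generalizing U with
  | nil =>
    simp only [RC]
    exact measurable_const
  | cons Z Zs ih =>
    simp only [RC, stepSum]
    refine Finset.measurable_fun_sum _ fun B _ => Finset.measurable_fun_sum _ fun k _ => ?_
    refine Measurable.ite ?_ ((measurable_phi p M R B k).mul (ih (U ∪ rng B))) measurable_const
    exact MeasurableSet.inter (MeasurableSet.const _) (MeasurableSet.inter (MeasurableSet.const _)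
      (measurable_fst (measurableSet_ok cc ρ (rng B ∩ U) Z B)))

theorem measurable_R0 (p : Fin d → ℝ) (M R : ℝ) (r : ℕ) (U : Finset (Fin n)) :
    Measurable fun q : (Fin n → Fin d → ℝ) × (Fin d → ℝ) => R0 q.1 p q.2 M R r U := by
  classical
  induction r generalizing U with
  | zero =>
    simp only [R0]
    exact measurable_const
  | succ r ih =>
    simp only [R0]
    refine Finset.measurable_fun_sum _ fun B _ => Finset.measurable_fun_sum _ fun k _ => ?_
    refine Measurable.ite ?_ ((measurable_phi p M R B k).mul (ih (U ∪ rng B))) measurable_const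
    exact MeasurableSet.inter (measurable_fst (helper11.TD.measurableSet_good B))
      (MeasurableSet.const _)

theorem measurable_cI (I : Idx n d) : Measurable fun a : Fin n → Fin d → ℝ => cI a I :=
  helper96.measurable_cI I

private theorem mat_congr {a b : Fin n → Fin d → ℝ} {B : Idx n d} (h : ∀ k, a (B k) = b (B k)) :
    mat a B = mat b B := by
  funext k j
  rw [mat, mat, h k]

private theorem nu_congr {a b : Fin n → Fin d → ℝ} {B : Idx n d} (h : ∀ k, a (B k) = b (B k)) :
    nu a B = nu b B := by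
  funext k j
  rw [nu, nu, mat_congr h]

private theorem vtx_congr {a b : Fin n → Fin d → ℝ} {B : Idx n d} (h : ∀ k, a (B k) = b (B k)) :
    vtx a B = vtx b B := by
  rw [vtx, vtx, nu_congr h]

theorem phi_congr {a b : Fin n → Fin d → ℝ} {B : Idx n d} (h : ∀ k, a (B k) = b (B k))
    (p c : Fin d → ℝ) (M R : ℝ) (k : Fin d) : phi a p c M R B k = phi b p c M R B k := by
  unfold phi HitE tm InCone
  rw [nu_congr h]

private theorem mask_congr {a b : Fin n → Fin d → ℝ} {S : Finset (Fin n)}
    (h : ∀ i ∈ S, a i = b i) : mask S a = mask S b := by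
  funext i
  unfold mask
  by_cases hi : i ∈ S
  · rw [if_pos hi, if_pos hi, h i hi]
  · rw [if_neg hi, if_neg hi]

private theorem mem_rng' (B : Idx n d) (k : Fin d) : B k ∈ rng B := by
  simp [rng]

theorem ok_congr {a b : Fin n → Fin d → ℝ} {J Z : Finset (Fin n)} {B : Idx n d}
    (hB : rng B ⊆ J ∪ Z) (h : ∀ i ∈ J ∪ Z, a i = b i) (cc : Fin n → Fin d → ℝ) (ρ : ℝ) :
    Ok cc a ρ J Z B ↔ Ok cc b ρ J Z B := by
  have key : ∀ a b : Fin n → Fin d → ℝ, (∀ i ∈ J ∪ Z, a i = b i) → Ok cc a ρ J Z B →
      Ok cc b ρ J Z B := by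
    intro a b h hO
    have hB' : ∀ k, a (B k) = b (B k) := fun k => h _ (hB (mem_rng' B k))
    refine ⟨?_, ?_, fun i hi => ?_⟩
    · rw [← mask_congr h]
      exact hO.good
    · rw [← vtx_congr hB']
      exact hO.vtx_le
    · rw [← h i (Finset.mem_union_right _ hi)]
      exact hO.near i hi
  exact ⟨key a b h, key b a fun i hi => (h i hi).symm⟩

theorem RC_congr {a b : Fin n → Fin d → ℝ} {Zs : List (Finset (Fin n))} {U : Finset (Fin n)}
    (h : ∀ i ∈ U ∪ uni Zs, a i = b i) (cc : Fin n → Fin d → ℝ) (ρ : ℝ) (p c : Fin d → ℝ)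
    (M R : ℝ) : RC cc a ρ p c M R Zs U = RC cc b ρ p c M R Zs U := by
  classical
  induction Zs generalizing U with
  | nil => simp only [RC]
  | cons Z Zs ih =>
    have hU : ∀ i ∈ U ∪ Z, a i = b i := by
      intro i hi
      refine h i ?_
      rcases Finset.mem_union.1 hi with h1 | h1
      · exact Finset.mem_union_left _ h1
      · exact Finset.mem_union_right _ (Finset.mem_union_left _ h1)
    have hu : ∀ i ∈ uni Zs, a i = b i := fun i hi =>
      h i (Finset.mem_union_right _ (Finset.mem_union_right _ hi))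
    simp only [RC, stepSum]
    refine Finset.sum_congr rfl fun B _ => Finset.sum_congr rfl fun k _ => ?_
    by_cases hB : rng B ⊆ U ∪ Z
    · have hBk : ∀ k, a (B k) = b (B k) := fun k => hU _ (hB (mem_rng' B k))
      have hJ : rng B ⊆ rng B ∩ U ∪ Z := by
        intro i hi
        rcases Finset.mem_union.1 (hB hi) with h1 | h1
        · exact Finset.mem_union_left _ (Finset.mem_inter.2 ⟨hi, h1⟩)
        · exact Finset.mem_union_right _ h1
      have hok := ok_congr hJ (a := a) (b := b) (fun i hi => by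
        rcases Finset.mem_union.1 hi with h1 | h1
        · exact hU i (Finset.mem_union_left _ (Finset.mem_inter.1 h1).2)
        · exact hU i (Finset.mem_union_right _ h1)) cc ρ
      have hrec := ih (U := U ∪ rng B) (fun i hi => by
        rcases Finset.mem_union.1 hi with h1 | h1
        · rcases Finset.mem_union.1 h1 with h2 | h2
          · exact hU i (Finset.mem_union_left _ h2)
          · exact hU i (hB h2)
        · exact hu i h1)
      rw [phi_congr hBk p c M R k, hrec]
      by_cases hk : rng B ⊆ U ∪ Z ∧ B k ∉ U ∧ Ok cc a ρ (rng B ∩ U) Z B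
      · rw [if_pos hk, if_pos ⟨hk.1, hk.2.1, hok.1 hk.2.2⟩]
      · rw [if_neg hk, if_neg fun h2 => hk ⟨h2.1, h2.2.1, hok.2 h2.2.2⟩]
    · rw [if_neg fun h2 => hB h2.1, if_neg fun h2 => hB h2.1]

open Classical in
/-- Sums over the feasible bases outside `G` are measurable. -/
theorem Meas_core (G : Finset (Fin n)) (p : Fin d → ℝ) (M R : ℝ) (r : ℕ) :
    Measurable fun q : (Fin n → Fin d → ℝ) × (Fin n → Fin d → ℝ) =>
      ∑ I : Idx n d, if rng I ⊆ Gᶜ ∧ Good q.2 I ∧ (∀ i ∈ Gᶜ, n2 (q.2 i - q.1 i) ≤ 1) then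
        R0 q.2 p (cI q.2 I) M R r (G ∪ rng I) else 0 := by
  refine Finset.measurable_fun_sum _ fun I _ => ?_
  refine Measurable.ite ?_ ?_ measurable_const
  · refine MeasurableSet.inter (MeasurableSet.const _)
      (MeasurableSet.inter (measurable_snd (helper11.TD.measurableSet_good I)) ?_)
    have h1 : {q : (Fin n → Fin d → ℝ) × (Fin n → Fin d → ℝ) |
        ∀ i ∈ Gᶜ, n2 (q.2 i - q.1 i) ≤ 1} = ⋂ i ∈ Gᶜ, {q | n2 (q.2 i - q.1 i) ≤ 1} := by
      ext a
      simp only [Set.mem_setOf_eq, Set.mem_iInter]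
    change MeasurableSet {q : (Fin n → Fin d → ℝ) × (Fin n → Fin d → ℝ) |
        ∀ i ∈ Gᶜ, n2 (q.2 i - q.1 i) ≤ 1}
    rw [h1]
    refine Finset.measurableSet_biInter _ fun i _ => ?_
    exact measurableSet_le (helper11.TD.measurable_n2.comp
      (((measurable_pi_apply i).comp measurable_snd).sub
        ((measurable_pi_apply i).comp measurable_fst))) measurable_const
  · exact (measurable_R0 p M R r (G ∪ rng I)).comp
      (measurable_snd.prodMk ((measurable_cI I).comp measurable_snd))

theorem measurable_coreSum (G : Finset (Fin n)) (p : Fin d → ℝ) (M R : ℝ) (r : ℕ) :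
    Measurable (Function.uncurry fun cc a : Fin n → Fin d → ℝ => coreSum cc a G p M R r) := by
  unfold coreSum
  exact Meas_core G p M R r

end Pool.Agent.H.MP_0cad2f_co.bd
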