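import Pool.Agent.H.MP_0cad2f_co.bd.Visited
import Pool.Agent.H.MP_0cad2f_co.bd.Meas
import Pool.Agent.H.MP_0cad2f_co.helper29.Point

/-!
The diameter in bounded dimension: the average number of cones met, and its powers.
-/

set_option autoImplicit false

namespace Pool.Agent.H.MP_0cad2f_co.bd

open MeasureTheory ProbabilityTheory Matrix Finset
open scoped NNReal ENNReal
open Pool.Agent.H.MP_0cad2f_co.helper47

variable {n d : ℕ}

/-- A generic objective lies in the normal cone of a feasible basis. -/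
private theorem exists_cone {a : Fin n → Fin d → ℝ} (hd : 1 ≤ d) {ρ : ℝ}
    (hb : Bdd a Finset.univ ρ) {c w : Fin d → ℝ} (hw : Generic a c w) :
    ∃ B, Good a B ∧ InCone a B w := by
  refine helper29.exists_good_cone (K := n2 w * ρ + ρ) hd (fun x hx => ?_) hw
  have h1 : n2 x ≤ ρ := hb x fun i _ => hx i
  have h2 := dot_le w x
  have h3 : n2 w * n2 x ≤ n2 w * ρ := mul_le_mul_of_nonneg_left h1 (n2_nonneg w)
  linarith

private theorem meas_hitE (a : Fin n → Fin d → ℝ) (B : Idx n d) (k : Fin d)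
    (p c : Fin d → ℝ) (M : ℝ) : MeasurableSet {X : Fin d → ℝ | HitE a B k c M (X + p)} := by
  have hX : Measurable fun X : Fin d → ℝ => X + p := measurable_id.add_const p
  have htm : Measurable fun X : Fin d → ℝ => tm a B k c (X + p) := by
    unfold tm
    exact (helper96.measurable_dot measurable_const hX).neg.div_const _
  have hcone : MeasurableSet {X : Fin d → ℝ |
      InCone a B (X + p + tm a B k c (X + p) • c)} := by
    have h1 : {X : Fin d → ℝ | InCone a B (X + p + tm a B k c (X + p) • c)} =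
        ⋂ l, {X | 0 ≤ nu a B l ⬝ᵥ (X + p + tm a B k c (X + p) • c)} := by
      ext X
      simp only [InCone, Set.mem_setOf_eq, Set.mem_iInter]
    rw [h1]
    refine MeasurableSet.iInter fun l => measurableSet_le measurable_const ?_
    exact helper96.measurable_dot measurable_const (hX.add (htm.smul measurable_const))
  refine MeasurableSet.inter (MeasurableSet.const _) ?_
  refine MeasurableSet.inter (measurableSet_le measurable_const htm) ?_
  exact MeasurableSet.inter (measurableSet_le htm measurable_const) hcone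

open Classical in
theorem avg_le {a : Fin n → Fin d → ℝ} (hd : 1 ≤ d) (hs : Simple a) {ρ : ℝ}
    (hb : Bdd a Finset.univ ρ) (p c : Fin d → ℝ) {M R : ℝ} (hM : 0 < M) (hR : 0 < R)
    (U : Finset (Fin n)) :
    avg a p c M R ≤ (((U.card + 1) ^ d : ℕ) : ℝ≥0∞) *
      (1 + 2 * ∑ B : Idx n d, ∑ k : Fin d,
        if Good a B ∧ B k ∉ U then phi a p c M R B k else 0) := by
  have hV0 : cubeVol d R ≠ 0 := helper29.cubeVol_ne_zero hR
  have hVt : cubeVol d R ≠ ⊤ := helper29.cubeVol_ne_top R
  have hSm : MeasurableSet {X : Fin d → ℝ | ‖X‖ ≤ R} :=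
    measurableSet_le measurable_norm measurable_const
  have hle : ∀ᵐ X ∂(volume.restrict {X : Fin d → ℝ | ‖X‖ ≤ R}),
      (nVis a c M (X + p) : ℝ≥0∞) ≤ (((U.card + 1) ^ d : ℕ) : ℝ≥0∞) *
        (1 + 2 * ∑ B : Idx n d, ∑ k : Fin d, if Good a B ∧ B k ∉ U then
          {X : Fin d → ℝ | HitE a B k c M (X + p)}.indicator (fun _ => (1 : ℝ≥0∞)) X else 0) := by
    filter_upwards [ae_restrict_of_ae (helper29.ae_generic hd a c p)] with X hX
    have h := nVis_le hd hs hM hX (fun μ _ hμ => exists_cone hd hb hμ) U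
    have h' : (nVis a c M (X + p) : ℝ≥0∞) ≤ (((U.card + 1) ^ d *
      (1 + 2 * ∑ B : Idx n d, ∑ k : Fin d,
        if Good a B ∧ B k ∉ U ∧ HitE a B k c M (X + p) then 1 else 0) : ℕ) : ℝ≥0∞) :=
      Nat.cast_le.2 h
    refine h'.trans (le_of_eq ?_)
    rw [Nat.cast_mul, Nat.cast_add, Nat.cast_mul, Nat.cast_one, Nat.cast_ofNat, Nat.cast_sum]
    congr 3
    refine Finset.sum_congr rfl fun B _ => ?_
    rw [Nat.cast_sum]
    refine Finset.sum_congr rfl fun k _ => ?_
    by_cases h1 : Good a B ∧ B k ∉ U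
    · rw [if_pos h1]
      by_cases h2 : HitE a B k c M (X + p)
      · rw [if_pos ⟨h1.1, h1.2, h2⟩, Set.indicator_of_mem (by exact h2), Nat.cast_one]
      · rw [if_neg (fun h => h2 h.2.2), Set.indicator_of_notMem (by exact h2), Nat.cast_zero]
    · rw [if_neg h1, if_neg (fun h => h1 ⟨h.1, h.2.1⟩), Nat.cast_zero]
  have hms : ∀ (B : Idx n d) (k : Fin d), Measurable fun X : Fin d → ℝ =>
      if Good a B ∧ B k ∉ U then
        {X : Fin d → ℝ | HitE a B k c M (X + p)}.indicator (fun _ => (1 : ℝ≥0∞)) X else 0 := by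
    intro B k
    by_cases h1 : Good a B ∧ B k ∉ U
    · simp only [if_pos h1]
      exact measurable_const.indicator (meas_hitE a B k p c M)
    · simp only [if_neg h1]
      exact measurable_const
  have hint : ∫⁻ X in {X : Fin d → ℝ | ‖X‖ ≤ R}, ((((U.card + 1) ^ d : ℕ) : ℝ≥0∞) *
        (1 + 2 * ∑ B : Idx n d, ∑ k : Fin d, if Good a B ∧ B k ∉ U then
          {X : Fin d → ℝ | HitE a B k c M (X + p)}.indicator (fun _ => (1 : ℝ≥0∞)) X else 0)) =
      (((U.card + 1) ^ d : ℕ) : ℝ≥0∞) * (cubeVol d R + 2 * ∑ B : Idx n d, ∑ k : Fin d,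
        if Good a B ∧ B k ∉ U then
          volume {X : Fin d → ℝ | ‖X‖ ≤ R ∧ HitE a B k c M (X + p)} else 0) := by
    have hm1 : Measurable fun X : Fin d → ℝ => ∑ B : Idx n d, ∑ k : Fin d,
        if Good a B ∧ B k ∉ U then
          {X : Fin d → ℝ | HitE a B k c M (X + p)}.indicator (fun _ => (1 : ℝ≥0∞)) X else 0 :=
      Finset.measurable_fun_sum _ fun B _ => Finset.measurable_fun_sum _ fun k _ => hms B k
    have hm2 : Measurable fun X : Fin d → ℝ => 2 * ∑ B : Idx n d, ∑ k : Fin d,
        if Good a B ∧ B k ∉ U then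
          {X : Fin d → ℝ | HitE a B k c M (X + p)}.indicator (fun _ => (1 : ℝ≥0∞)) X else 0 :=
      hm1.const_mul 2
    have hm3 : Measurable fun X : Fin d → ℝ => 1 + 2 * ∑ B : Idx n d, ∑ k : Fin d,
        if Good a B ∧ B k ∉ U then
          {X : Fin d → ℝ | HitE a B k c M (X + p)}.indicator (fun _ => (1 : ℝ≥0∞)) X else 0 :=
      hm2.const_add 1
    rw [lintegral_const_mul _ hm3]
    congr 1
    rw [lintegral_add_left measurable_const, lintegral_const_mul _ hm1,
      lintegral_finset_sum _ (fun B _ => Finset.measurable_fun_sum _ fun k _ => hms B k)]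
    congr 1
    · rw [setLIntegral_one]
      rfl
    · congr 1
      refine Finset.sum_congr rfl fun B _ => ?_
      rw [lintegral_finset_sum _ (fun k _ => hms B k)]
      refine Finset.sum_congr rfl fun k _ => ?_
      by_cases h1 : Good a B ∧ B k ∉ U
      · simp only [if_pos h1]
        rw [lintegral_indicator (meas_hitE a B k p c M), lintegral_const,
          Measure.restrict_apply MeasurableSet.univ, Set.univ_inter, one_mul,
          Measure.restrict_apply (meas_hitE a B k p c M)]
        congr 1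
        ext X
        simp only [Set.mem_inter_iff, Set.mem_setOf_eq]
        exact and_comm
      · simp only [if_neg h1]
        exact lintegral_zero
  have h1 : avg a p c M R ≤ ((((U.card + 1) ^ d : ℕ) : ℝ≥0∞) * (cubeVol d R +
      2 * ∑ B : Idx n d, ∑ k : Fin d, if Good a B ∧ B k ∉ U then
        volume {X : Fin d → ℝ | ‖X‖ ≤ R ∧ HitE a B k c M (X + p)} else 0)) / cubeVol d R := by
    unfold avg
    rw [← hint]
    gcongr ?_ / _
    exact lintegral_mono_ae hle
  refine h1.trans (le_of_eq ?_)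
  rw [mul_div_assoc, ENNReal.add_div, ENNReal.div_self hV0 hVt, mul_div_assoc]
  congr 3
  rw [ENNReal.div_eq_inv_mul, Finset.mul_sum]
  refine Finset.sum_congr rfl fun B _ => ?_
  rw [Finset.mul_sum]
  refine Finset.sum_congr rfl fun k _ => ?_
  by_cases h2 : Good a B ∧ B k ∉ U
  · rw [if_pos h2, if_pos h2, ← ENNReal.div_eq_inv_mul]
    rfl
  · rw [if_neg h2, if_neg h2, mul_zero]

theorem avg_pow_le {a : Fin n → Fin d → ℝ} (hd : 1 ≤ d) (hs : Simple a) {ρ : ℝ}
    (hb : Bdd a Finset.univ ρ) (p c : Fin d → ℝ) {M R : ℝ} (hM : 0 < M) (hR : 0 < R)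
    {u q : ℕ} {U : Finset (Fin n)} (hU : U.card + d * q ≤ u) :
    avg a p c M R ^ q ≤ (((u + 1) ^ d : ℕ) : ℝ≥0∞) ^ q *
      ∑ r ∈ Finset.range (q + 1), ((q.choose r * 2 ^ r : ℕ) : ℝ≥0∞) * R0 a p c M R r U := by
  classical
  induction q generalizing U with
  | zero => simp [R0]
  | succ q ih =>
    have hdq : d * (q + 1) = d * q + d := by ring
    have hU1 : U.card + d * q ≤ u := by omega
    have hU2 : ∀ B : Idx n d, (U ∪ rng B).card + d * q ≤ u := by
      intro B
      have h1 := Finset.card_union_le U (rng B)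
      rw [card_rng] at h1
      omega
    have hcard : (((U.card + 1) ^ d : ℕ) : ℝ≥0∞) ≤ (((u + 1) ^ d : ℕ) : ℝ≥0∞) := by
      refine Nat.cast_le.2 (Nat.pow_le_pow_left ?_ d)
      omega
    -- the recursion for the weights
    have hw : ∀ r, (((q + 1).choose (r + 1) * 2 ^ (r + 1) : ℕ) : ℝ≥0∞) =
        ((q.choose (r + 1) * 2 ^ (r + 1) : ℕ) : ℝ≥0∞) +
          2 * ((q.choose r * 2 ^ r : ℕ) : ℝ≥0∞) := by
      intro r
      rw [Nat.choose_succ_succ]
      push_cast
      ring
    have hR1 : ∀ r, R0 a p c M R (r + 1) U = ∑ B : Idx n d, ∑ k : Fin d,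
        if Good a B ∧ B k ∉ U then phi a p c M R B k * R0 a p c M R r (U ∪ rng B) else 0 := by
      intro r
      rw [R0]
    have hsum : ∑ r ∈ Finset.range (q + 1 + 1),
        (((q + 1).choose r * 2 ^ r : ℕ) : ℝ≥0∞) * R0 a p c M R r U =
        ∑ r ∈ Finset.range (q + 1), ((q.choose r * 2 ^ r : ℕ) : ℝ≥0∞) * R0 a p c M R r U +
        2 * ∑ B : Idx n d, ∑ k : Fin d, if Good a B ∧ B k ∉ U then phi a p c M R B k *
          ∑ r ∈ Finset.range (q + 1), ((q.choose r * 2 ^ r : ℕ) : ℝ≥0∞) *
            R0 a p c M R r (U ∪ rng B) else 0 := by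
      have e1 : ∑ r ∈ Finset.range (q + 1), ((q.choose r * 2 ^ r : ℕ) : ℝ≥0∞) *
          R0 a p c M R r U = ∑ r ∈ Finset.range (q + 1), ((q.choose (r + 1) * 2 ^ (r + 1) : ℕ) :
            ℝ≥0∞) * R0 a p c M R (r + 1) U + 1 := by
        have e3 : ∑ r ∈ Finset.range (q + 1), ((q.choose r * 2 ^ r : ℕ) : ℝ≥0∞) *
            R0 a p c M R r U = ∑ r ∈ Finset.range (q + 1 + 1), ((q.choose r * 2 ^ r : ℕ) : ℝ≥0∞) *
            R0 a p c M R r U := by
          rw [Finset.sum_range_succ _ (q + 1), Nat.choose_succ_self, zero_mul, Nat.cast_zero,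
            zero_mul, add_zero]
        rw [e3, Finset.sum_range_succ']
        congr 1
        simp [R0]
      have e2 : ∑ B : Idx n d, ∑ k : Fin d, (if Good a B ∧ B k ∉ U then phi a p c M R B k *
          ∑ r ∈ Finset.range (q + 1), ((q.choose r * 2 ^ r : ℕ) : ℝ≥0∞) *
            R0 a p c M R r (U ∪ rng B) else 0) = ∑ r ∈ Finset.range (q + 1),
          ((q.choose r * 2 ^ r : ℕ) : ℝ≥0∞) * R0 a p c M R (r + 1) U := by
        have e4 : ∀ r, ((q.choose r * 2 ^ r : ℕ) : ℝ≥0∞) * R0 a p c M R (r + 1) U =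
            ∑ B : Idx n d, ∑ k : Fin d, if Good a B ∧ B k ∉ U then
              phi a p c M R B k * (((q.choose r * 2 ^ r : ℕ) : ℝ≥0∞) *
                R0 a p c M R r (U ∪ rng B)) else 0 := by
          intro r
          rw [hR1, Finset.mul_sum]
          refine Finset.sum_congr rfl fun B _ => ?_
          rw [Finset.mul_sum]
          refine Finset.sum_congr rfl fun k _ => ?_
          rw [mul_ite, mul_zero]
          congr 1
          ring
        symm
        simp only [e4]
        rw [Finset.sum_comm]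
        refine Finset.sum_congr rfl fun B _ => ?_
        rw [Finset.sum_comm]
        refine Finset.sum_congr rfl fun k _ => ?_
        by_cases h : Good a B ∧ B k ∉ U
        · simp only [if_pos h]
          rw [Finset.mul_sum]
        · simp only [if_neg h]
          rw [Finset.sum_const_zero]
      have e5 : (((q + 1).choose 0 * 2 ^ 0 : ℕ) : ℝ≥0∞) * R0 a p c M R 0 U = 1 := by
        simp [R0]
      have e6 : ∑ r ∈ Finset.range (q + 1), (((q + 1).choose (r + 1) * 2 ^ (r + 1) : ℕ) : ℝ≥0∞) *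
          R0 a p c M R (r + 1) U = ∑ r ∈ Finset.range (q + 1),
          ((q.choose (r + 1) * 2 ^ (r + 1) : ℕ) : ℝ≥0∞) * R0 a p c M R (r + 1) U +
          2 * ∑ r ∈ Finset.range (q + 1),
          ((q.choose r * 2 ^ r : ℕ) : ℝ≥0∞) * R0 a p c M R (r + 1) U := by
        rw [Finset.mul_sum, ← Finset.sum_add_distrib]
        refine Finset.sum_congr rfl fun r _ => ?_
        rw [hw r]
        ring
      rw [e1, e2, Finset.sum_range_succ', e5, e6]
      ring
    rw [hsum]
    have h1 := avg_le hd hs hb p c hM hR U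
    calc avg a p c M R ^ (q + 1) = avg a p c M R * avg a p c M R ^ q := by ring
      _ ≤ ((((u + 1) ^ d : ℕ) : ℝ≥0∞) * (1 + 2 * ∑ B : Idx n d, ∑ k : Fin d,
          if Good a B ∧ B k ∉ U then phi a p c M R B k else 0)) * avg a p c M R ^ q := by
          gcongr
          exact h1.trans (by gcongr)
      _ = (((u + 1) ^ d : ℕ) : ℝ≥0∞) * (avg a p c M R ^ q + 2 * ∑ B : Idx n d, ∑ k : Fin d,
          if Good a B ∧ B k ∉ U then phi a p c M R B k * avg a p c M R ^ q else 0) := by
          rw [mul_assoc, add_mul, one_mul, mul_assoc 2, Finset.sum_mul]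
          congr 3
          refine Finset.sum_congr rfl fun B _ => ?_
          rw [Finset.sum_mul]
          refine Finset.sum_congr rfl fun k _ => ?_
          rw [ite_mul, zero_mul]
      _ ≤ (((u + 1) ^ d : ℕ) : ℝ≥0∞) * ((((u + 1) ^ d : ℕ) : ℝ≥0∞) ^ q *
          ∑ r ∈ Finset.range (q + 1), ((q.choose r * 2 ^ r : ℕ) : ℝ≥0∞) * R0 a p c M R r U +
          2 * ∑ B : Idx n d, ∑ k : Fin d, if Good a B ∧ B k ∉ U then phi a p c M R B k *
            ((((u + 1) ^ d : ℕ) : ℝ≥0∞) ^ q * ∑ r ∈ Finset.range (q + 1),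
              ((q.choose r * 2 ^ r : ℕ) : ℝ≥0∞) * R0 a p c M R r (U ∪ rng B)) else 0) := by
          gcongr with B _ k _
          · exact ih hU1
          · by_cases h : Good a B ∧ B k ∉ U
            · rw [if_pos h, if_pos h]
              gcongr
              exact ih (hU2 B)
            · rw [if_neg h, if_neg h]
      _ = _ := by
          have e7 : ∑ B : Idx n d, ∑ k : Fin d, (if Good a B ∧ B k ∉ U then
              phi a p c M R B k * ((((u + 1) ^ d : ℕ) : ℝ≥0∞) ^ q *
                ∑ r ∈ Finset.range (q + 1), ((q.choose r * 2 ^ r : ℕ) : ℝ≥0∞) *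
                  R0 a p c M R r (U ∪ rng B)) else 0) =
              (((u + 1) ^ d : ℕ) : ℝ≥0∞) ^ q * ∑ B : Idx n d, ∑ k : Fin d,
                (if Good a B ∧ B k ∉ U then phi a p c M R B k *
                  ∑ r ∈ Finset.range (q + 1), ((q.choose r * 2 ^ r : ℕ) : ℝ≥0∞) *
                    R0 a p c M R r (U ∪ rng B) else 0) := by
            rw [Finset.mul_sum Finset.univ]
            refine Finset.sum_congr rfl fun B _ => ?_
            rw [Finset.mul_sum Finset.univ]
            refine Finset.sum_congr rfl fun k _ => ?_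
            rw [mul_ite, mul_zero]
            congr 1
            ring
          rw [e7, pow_succ]
          ring

end Pool.Agent.H.MP_0cad2f_co.bd
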