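import Pool.Agent.H.MP_0cad2f_co.bd.Defs
import Pool.Agent.H.MP_0cad2f_co.helper94.Block
import Pool.Agent.H.MP_0cad2f_co.qp.Prob

/-!
The diameter in bounded dimension: probabilities of the exceptional events.
-/

set_option autoImplicit false

namespace Pool.Agent.H.MP_0cad2f_co.bd

open MeasureTheory ProbabilityTheory Matrix Finset
open scoped NNReal ENNReal
open Pool.Agent.H.MP_0cad2f_co.helper47

variable {n d : ℕ}

private theorem ev_mem {B : Idx n d} {i : Fin n} : i ∈ rng B ↔ ∃ k, B k = i := by
  simp [rng]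

theorem prob_far (c : Fin n → Fin d → ℝ) {σ : ℝ} (hσ : 0 < σ) (hn : 2 ≤ n) (hd : 1 ≤ d)
    (hσ1 : σ ≤ 1 / (6 * Real.sqrt (d * Real.log n))) :
    noise c σ {a | ∃ i, 1 < n2 (a i - c i)} ≤ ENNReal.ofReal (1 / (n : ℝ) ^ (2 * d)) := by
  have hn1 : (2 : ℝ) ≤ n := by exact_mod_cast hn
  have hd1 : (1 : ℝ) ≤ d := by exact_mod_cast hd
  have hlog : 0 < Real.log n := Real.log_pos (by linarith)
  have h0 : (0 : ℝ) < d * Real.log n := by positivity
  have hs := Real.sqrt_pos.mpr h0
  have h1 : 36 * (d * Real.log n) * σ ^ 2 ≤ 1 := by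
    rw [le_div_iff₀ (by positivity)] at hσ1
    have h2 : (σ * (6 * Real.sqrt (d * Real.log n))) ^ 2 ≤ 1 ^ 2 :=
      pow_le_pow_left₀ (by positivity) hσ1 2
    rw [mul_pow, mul_pow, Real.sq_sqrt h0.le] at h2
    linarith
  have h2 : Real.exp (-(1 ^ 2 / (4 * σ ^ 2))) ≤ 1 / (n : ℝ) ^ (9 * d) := by
    have h3 : (9 * d : ℝ) * Real.log n ≤ 1 ^ 2 / (4 * σ ^ 2) := by
      rw [le_div_iff₀ (by positivity)]
      linarith
    have h4 : (1 : ℝ) / (n : ℝ) ^ (9 * d) = Real.exp (-((9 * d : ℝ) * Real.log n)) := by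
      rw [Real.exp_neg, one_div]
      congr 1
      rw [← Real.exp_log (show (0 : ℝ) < n by linarith), ← Real.exp_nat_mul, Real.log_exp]
      push_cast
      ring_nf
    rw [h4]
    apply Real.exp_le_exp.mpr
    linarith
  have h5 : ∀ i : Fin n, noise c σ {a | 1 < n2 (a i - c i)} ≤
      ENNReal.ofReal (Real.sqrt 2 ^ d * (1 / (n : ℝ) ^ (9 * d))) := by
    intro i
    have hm : MeasurableSet {x : Fin d → ℝ | 1 < n2 (x - c i)} :=
      measurableSet_lt measurable_const (helper94.measurable_n2.comp (by fun_prop))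
    have h6 : noise c σ {a | 1 < n2 (a i - c i)} = gau (c i) σ {x | 1 < n2 (x - c i)} :=
      qp.noise_eval c σ i hm
    rw [h6]
    refine (helper11.TD.gau_tail (c i) hσ zero_le_one).trans ?_
    exact ENNReal.ofReal_le_ofReal (mul_le_mul_of_nonneg_left h2 (by positivity))
  have h6 : {a : Fin n → Fin d → ℝ | ∃ i, 1 < n2 (a i - c i)} =
      ⋃ i, {a | 1 < n2 (a i - c i)} := by
    ext a
    simp
  rw [h6]
  refine (measure_iUnion_fintype_le _ _).trans ((Finset.sum_le_sum fun i _ => h5 i).trans ?_)
  rw [Finset.sum_const, Finset.card_univ, Fintype.card_fin, nsmul_eq_mul,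
    ← ENNReal.ofReal_natCast, ← ENNReal.ofReal_mul (by positivity)]
  apply ENNReal.ofReal_le_ofReal
  have hs2 : Real.sqrt 2 ≤ n := by
    have h7 : Real.sqrt 2 ≤ Real.sqrt (2 ^ 2) := Real.sqrt_le_sqrt (by norm_num)
    rw [Real.sqrt_sq (by norm_num)] at h7
    linarith
  have h7 : Real.sqrt 2 ^ d ≤ (n : ℝ) ^ d := pow_le_pow_left₀ (Real.sqrt_nonneg _) hs2 d
  rw [show (n : ℝ) * (Real.sqrt 2 ^ d * (1 / (n : ℝ) ^ (9 * d))) =
    (n * Real.sqrt 2 ^ d) / (n : ℝ) ^ (9 * d) by ring, div_le_div_iff₀ (by positivity)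
      (by positivity), one_mul]
  calc (n : ℝ) * Real.sqrt 2 ^ d * (n : ℝ) ^ (2 * d)
      ≤ n * (n : ℝ) ^ d * (n : ℝ) ^ (2 * d) := by gcongr
    _ = (n : ℝ) ^ (1 + d + 2 * d) := by rw [pow_add, pow_add, pow_one]
    _ ≤ (n : ℝ) ^ (9 * d) := pow_le_pow_right₀ (by linarith) (by omega)

private theorem ev_bar {a : Fin n → Fin d → ℝ} {G : Finset (Fin n)} {f : Fin n} (hf : f ∉ G)
    (x : Fin d → ℝ) : bar (Function.update a f x) G = bar a G := by
  unfold bar
  congr 1
  refine Finset.sum_congr rfl fun i hi => ?_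
  rw [Function.update_of_ne]
  rintro rfl
  exact hf hi

private theorem ev_sh (a : Fin n → Fin d → ℝ) (f : Fin n) (x y : Fin d → ℝ) :
    sh (Function.update a f x) y = Function.update (sh a y) f (x - y) := by
  funext i
  by_cases h : i = f
  · subst h
    simp [sh]
  · simp [sh, Function.update_of_ne h]

/-- Long dual vectors after resampling and shifting one constraint. -/
private theorem ev_long (a : Fin n → Fin d → ℝ) (c₀ y : Fin d → ℝ) {σ T : ℝ} (hσ : 0 < σ)
    (hT : 0 < T) (B : Idx n d) (k : Fin d) :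
    gau c₀ σ {x | Function.update a (B k) (x - y) ∈ helper94.Long B k T} ≤
      ENNReal.ofReal (1 / (σ * T)) := by
  obtain ⟨u, hu, hul⟩ := helper94.exists_normal a B k
  have hu0 : u ≠ 0 := by
    intro h
    rw [h] at hu
    have : n2 (0 : Fin d → ℝ) = 0 := by simp [n2]
    rw [this] at hu
    exact zero_ne_one hu
  have h1 : {x | Function.update a (B k) (x - y) ∈ helper94.Long B k T} ⊆
      {x | |y ⬝ᵥ u - x ⬝ᵥ u| ≤ 1 / T} := by
    intro x hx
    obtain ⟨hdet, hlt⟩ := hx
    set b := Function.update a (B k) (x - y) with hb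
    have hbk : b (B k) = x - y := by rw [hb, Function.update_self]
    have hbl : ∀ l, l ≠ k → b (B l) ⬝ᵥ u = 0 := by
      intro l hl
      rw [hb, Function.update_of_ne (fun h => hl (B.injective h))]
      exact hul l hl
    have hne : b (B k) ⬝ᵥ u ≠ 0 := by
      intro h0
      apply hu0
      apply eq_of_dot_eq hdet
      intro l
      rw [dotProduct_zero]
      by_cases hl : l = k
      · rw [hl]; exact h0
      · exact hbl l hl
    rw [helper94.nu_of_normal hdet hbl hne, n2_smul, hu, mul_one, hbk, abs_inv] at hlt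
    rw [hbk] at hne
    have hpos : 0 < |(x - y) ⬝ᵥ u| := abs_pos.mpr hne
    change |y ⬝ᵥ u - x ⬝ᵥ u| ≤ 1 / T
    rw [abs_sub_comm, ← sub_dotProduct, le_div_iff₀ hT]
    have h2 := mul_lt_mul_of_pos_right hlt hpos
    rw [inv_mul_cancel₀ hpos.ne'] at h2
    linarith
  refine (measure_mono h1).trans ((qp.lin_small c₀ u hσ hu0 _ (by positivity)).trans
    (le_of_eq ?_))
  congr 1
  rw [hu]
  field_simp

private theorem ev_measurable_sh {α : Type*} [MeasurableSpace α] {f : α → Fin n → Fin d → ℝ}
    {g : α → Fin d → ℝ} (hf : Measurable f) (hg : Measurable g) :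
    Measurable fun t => sh (f t) (g t) := by
  unfold sh
  refine measurable_pi_lambda _ fun i => ?_
  exact ((measurable_pi_apply i).comp hf).sub hg

private theorem ev_measurable_bar (G : Finset (Fin n)) :
    Measurable fun a : Fin n → Fin d → ℝ => bar a G := by
  have h1 : Measurable fun a : Fin n → Fin d → ℝ => ∑ i ∈ G, a i :=
    Finset.measurable_fun_sum _ fun i _ => measurable_pi_apply i
  exact h1.const_smul ((G.card : ℝ)⁻¹)

theorem prob_nu_sh (c : Fin n → Fin d → ℝ) {σ T : ℝ} (hσ : 0 < σ) (hT : 0 < T)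
    {G : Finset (Fin n)} {I : Idx n d} (hI : Disjoint G (rng I)) (k : Fin d) :
    noise c σ {a | (mat (sh a (bar a G)) I).det ≠ 0 ∧ T < n2 (nu (sh a (bar a G)) I k)} ≤
      ENNReal.ofReal (1 / (σ * T)) := by
  have hf : I k ∉ G := fun h => Finset.disjoint_left.1 hI h (ev_mem.2 ⟨k, rfl⟩)
  have hm : Measurable fun a : Fin n → Fin d → ℝ => sh a (bar a G) :=
    ev_measurable_sh measurable_id (ev_measurable_bar G)
  have hset : {a | (mat (sh a (bar a G)) I).det ≠ 0 ∧ T < n2 (nu (sh a (bar a G)) I k)} =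
      (fun a : Fin n → Fin d → ℝ => sh a (bar a G)) ⁻¹' helper94.Long I k T := rfl
  have hL : MeasurableSet ((fun a : Fin n → Fin d → ℝ => sh a (bar a G)) ⁻¹'
      helper94.Long I k T) := hm (helper94.measurableSet_long I k T)
  rw [hset, ← lintegral_indicator_one hL, helper11.TD.noise_update c σ (I k)
    (measurable_one.indicator hL)]
  have hkey : ∀ a : Fin n → Fin d → ℝ, ∫⁻ x, ((fun a : Fin n → Fin d → ℝ => sh a (bar a G)) ⁻¹'
      helper94.Long I k T).indicator (1 : (Fin n → Fin d → ℝ) → ℝ≥0∞)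
        (Function.update a (I k) x) ∂(gau (c (I k)) σ) ≤ ENNReal.ofReal (1 / (σ * T)) := by
    intro a
    have h1 : (fun x : Fin d → ℝ => ((fun a : Fin n → Fin d → ℝ => sh a (bar a G)) ⁻¹'
        helper94.Long I k T).indicator (1 : (Fin n → Fin d → ℝ) → ℝ≥0∞)
          (Function.update a (I k) x)) =
        ((fun x => Function.update a (I k) x) ⁻¹'
          ((fun a : Fin n → Fin d → ℝ => sh a (bar a G)) ⁻¹'
            helper94.Long I k T)).indicator 1 := rfl
    rw [h1, lintegral_indicator_one (hL.preimage (measurable_update a))]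
    have h2 : (fun x => Function.update a (I k) x) ⁻¹'
        ((fun a : Fin n → Fin d → ℝ => sh a (bar a G)) ⁻¹' helper94.Long I k T) =
        {x | Function.update (sh a (bar a G)) (I k) (x - bar a G) ∈ helper94.Long I k T} := by
      ext x
      change sh (Function.update a (I k) x) (bar (Function.update a (I k) x) G) ∈
        helper94.Long I k T ↔ _
      rw [ev_bar hf, ev_sh]
      rfl
    rw [h2]
    exact ev_long _ _ _ hσ hT I k
  refine (lintegral_mono hkey).trans ?_
  rw [lintegral_const, measure_univ, mul_one]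

theorem ae_affGen (c : Fin n → Fin d → ℝ) {σ : ℝ} (hσ : 0 < σ) :
    ∀ᵐ a ∂(noise c σ), AffGen a := by
  have hac : noise c σ ≪ (volume : Measure (Fin n → Fin d → ℝ)) := by
    set v : ℝ≥0 := Real.toNNReal (σ ^ 2) with hv
    have hv' : (v : ℝ) = σ ^ 2 := by rw [hv, Real.coe_toNNReal _ (by positivity)]
    have hv0 : v ≠ 0 := by
      intro h
      have h2 : (v : ℝ) = 0 := by rw [h]; rfl
      rw [hv'] at h2
      have : 0 < σ ^ 2 := by positivity
      linarith
    have h2 : noise c σ = (volume : Measure (Fin n → Fin d → ℝ)).withDensity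
        fun a => ∏ i, ∏ j, gaussianPDF (c i j) v (a i j) := helper11.TD.noise_density c hv0
    rw [h2]
    exact withDensity_absolutelyContinuous _ _
  unfold AffGen
  rw [ae_all_iff]
  intro B
  rw [ae_all_iff]
  intro i
  by_cases hi : i ∈ rng B
  · exact Filter.Eventually.of_forall fun a h => absurd hi h
  -- for every fixed shift
  have hfix : ∀ x : Fin d → ℝ, noise c σ {a | (mat (sh a x) B).det = 0} = 0 := by
    intro x
    apply hac
    have h1 : {a : Fin n → Fin d → ℝ | (mat (sh a x) B).det = 0} =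
        (fun a => a + fun _ => -x) ⁻¹' {a | (mat a B).det = 0} := by
      ext a
      have h2 : sh a x = a + fun _ => -x := by
        funext j
        simp [sh, sub_eq_add_neg]
      change (mat (sh a x) B).det = 0 ↔ (mat (a + fun _ => -x) B).det = 0
      rw [h2]
    rw [h1, measure_preimage_add_right]
    exact helper94.volume_singular B
  have hm : Measurable fun p : (Fin n → Fin d → ℝ) × (Fin d → ℝ) =>
      (mat (sh p.1 p.2) B).det :=
    (helper11.TD.measurable_det B).comp (ev_measurable_sh measurable_fst measurable_snd)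
  have hP : MeasurableSet {p : (Fin n → Fin d → ℝ) × (Fin d → ℝ) |
      (mat (sh p.1 p.2) B).det = 0} := hm (measurableSet_singleton 0)
  have hm' : Measurable fun a : Fin n → Fin d → ℝ => (mat (sh a (a i)) B).det :=
    (helper11.TD.measurable_det B).comp (ev_measurable_sh measurable_id (measurable_pi_apply i))
  have hS : MeasurableSet {a : Fin n → Fin d → ℝ | (mat (sh a (a i)) B).det = 0} :=
    hm' (measurableSet_singleton 0)
  have hzero : noise c σ {a | (mat (sh a (a i)) B).det = 0} = 0 := by
    rw [← lintegral_indicator_one hS, helper11.TD.noise_update c σ i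
      (measurable_one.indicator hS)]
    have h1 : ∀ (a : Fin n → Fin d → ℝ) (x : Fin d → ℝ),
        Set.indicator {a : Fin n → Fin d → ℝ | (mat (sh a (a i)) B).det = 0}
          (1 : (Fin n → Fin d → ℝ) → ℝ≥0∞) (Function.update a i x) =
        Set.indicator {a : Fin n → Fin d → ℝ | (mat (sh a x) B).det = 0}
          (1 : (Fin n → Fin d → ℝ) → ℝ≥0∞) a := by
      intro a x
      have h2 : mat (sh (Function.update a i x) (Function.update a i x i)) B =
          mat (sh a x) B := by
        rw [Function.update_self]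
        funext k j
        have h3 : B k ≠ i := fun h => hi (ev_mem.2 ⟨k, h⟩)
        simp [mat, sh, Function.update_of_ne h3]
      by_cases h4 : (mat (sh a x) B).det = 0
      · rw [Set.indicator_of_mem, Set.indicator_of_mem]
        · rfl
        · exact h4
        · change (mat (sh (Function.update a i x) (Function.update a i x i)) B).det = 0
          rw [h2]
          exact h4
      · rw [Set.indicator_of_notMem, Set.indicator_of_notMem]
        · exact h4
        · change ¬ (mat (sh (Function.update a i x) (Function.update a i x i)) B).det = 0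
          rw [h2]
          exact h4
    simp_rw [h1]
    rw [lintegral_lintegral_swap]
    · have h5 : ∀ x : Fin d → ℝ, ∫⁻ a, Set.indicator {a : Fin n → Fin d → ℝ |
          (mat (sh a x) B).det = 0} (1 : (Fin n → Fin d → ℝ) → ℝ≥0∞) a ∂(noise c σ) = 0 := by
        intro x
        have h6 : MeasurableSet {a : Fin n → Fin d → ℝ | (mat (sh a x) B).det = 0} :=
          ((helper11.TD.measurable_det B).comp
            (ev_measurable_sh measurable_id measurable_const)) (measurableSet_singleton 0)
        rw [lintegral_indicator_one h6]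
        exact hfix x
      simp_rw [h5]
      simp
    · have h7 : Measurable (Set.indicator {p : (Fin n → Fin d → ℝ) × (Fin d → ℝ) |
          (mat (sh p.1 p.2) B).det = 0} (1 : (Fin n → Fin d → ℝ) × (Fin d → ℝ) → ℝ≥0∞)) :=
        measurable_one.indicator hP
      exact h7.aemeasurable
  rw [ae_iff]
  refine measure_mono_null ?_ hzero
  intro a ha
  by_contra hcon
  exact ha fun _ => hcon

end Pool.Agent.H.MP_0cad2f_co.bd
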