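import Pool.Agent.H.MP_0cad2f_co.bd.CoreDef
import Pool.Agent.H.MP_0cad2f_co.bd.Events

/-!
The diameter in bounded dimension: blocks of `d + 1` constraints.
-/

set_option autoImplicit false

namespace Pool.Agent.H.MP_0cad2f_co.bd

open MeasureTheory ProbabilityTheory Matrix Finset
open scoped NNReal ENNReal
open Pool.Agent.H.MP_0cad2f_co.helper47

variable {n d : ℕ}

theorem blocks_card {g : Fin n} {B : Idx n d} (hg : g ∉ rng B) : (blk g B).card = d + 1 := by
  unfold blk
  rw [Finset.card_insert_of_notMem hg, card_rng]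

theorem blocks_mem_self (g : Fin n) (B : Idx n d) : g ∈ blk g B := Finset.mem_insert_self _ _

theorem blocks_mem (g : Fin n) (B : Idx n d) (k : Fin d) : B k ∈ blk g B :=
  Finset.mem_insert_of_mem (mem_rng_self B k)

/-- The shifted constraints of `G` add up to zero. -/
theorem blocks_sum_sh_bar (a : Fin n → Fin d → ℝ) {G : Finset (Fin n)} (hG : G.card ≠ 0)
    (x : Fin d → ℝ) : ∑ i ∈ G, sh a (bar a G) i ⬝ᵥ x = 0 := by
  have h1 : ∑ i ∈ G, sh a (bar a G) i = 0 := by
    unfold sh
    rw [Finset.sum_sub_distrib, Finset.sum_const, bar, ← Nat.cast_smul_eq_nsmul ℝ, smul_smul,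
      mul_inv_cancel₀ (by exact_mod_cast hG), one_smul, sub_self]
  rw [← sum_dotProduct, h1, zero_dotProduct]

theorem bdd_of_not_bad {a : Fin n → Fin d → ℝ} {g : Fin n} {B : Idx n d} (hg : g ∉ rng B)
    {T ρ : ℝ} (h : a ∉ BlkBad g B T) (hρ : d * (d + 1) * T ≤ ρ) :
    Bdd (sh a (bar a (blk g B))) (blk g B) ρ := by
  classical
  have h' : ¬ ((mat (sh a (a g)) B).det = 0 ∨ ∃ k, T < n2 (nu (sh a (a g)) B k)) := h
  rw [not_or, not_exists] at h'
  obtain ⟨hdet, hT⟩ := h'
  intro x hx
  have hcard : (blk g B).card = d + 1 := blocks_card hg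
  have hsum := blocks_sum_sh_bar a (G := blk g B) (by rw [hcard]; omega) x
  have hlow : ∀ i ∈ blk g B, -(d : ℝ) ≤ sh a (bar a (blk g B)) i ⬝ᵥ x := by
    intro i hi
    rw [← Finset.add_sum_erase _ _ hi] at hsum
    have h1 : ∑ j ∈ (blk g B).erase i, sh a (bar a (blk g B)) j ⬝ᵥ x ≤
        ∑ _j ∈ (blk g B).erase i, (1 : ℝ) :=
      Finset.sum_le_sum fun j hj => hx j (Finset.mem_of_mem_erase hj)
    rw [Finset.sum_const, Finset.card_erase_of_mem hi, hcard, Nat.add_sub_cancel, nsmul_eq_mul,
      mul_one] at h1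
    linarith
  have habs : ∀ k, |sh a (a g) (B k) ⬝ᵥ x| ≤ d + 1 := by
    intro k
    have h1 : sh a (a g) (B k) ⬝ᵥ x =
        sh a (bar a (blk g B)) (B k) ⬝ᵥ x - sh a (bar a (blk g B)) g ⬝ᵥ x := by
      rw [← sub_dotProduct]
      congr 1
      unfold sh
      abel
    have h2 := hx _ (blocks_mem g B k)
    have h3 := hx _ (blocks_mem_self g B)
    have h4 := hlow _ (blocks_mem g B k)
    have h5 := hlow _ (blocks_mem_self g B)
    rw [h1, abs_le]
    constructor <;> linarith
  have h6 : n2 x ≤ ∑ _k : Fin d, ((d : ℝ) + 1) * T := by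
    conv_lhs => rw [← sum_smul_nu hdet x]
    refine (n2_sum_le _ _).trans (Finset.sum_le_sum fun k _ => ?_)
    rw [n2_smul]
    exact mul_le_mul (habs k) (not_lt.mp (hT k)) (n2_nonneg _) (by positivity)
  rw [Finset.sum_const, Finset.card_univ, Fintype.card_fin, nsmul_eq_mul] at h6
  linarith

/-- The `k`-th dual vector of the block is long. -/
def BlocksLong (g : Fin n) (B : Idx n d) (k : Fin d) (T : ℝ) : Set (Fin n → Fin d → ℝ) :=
  {a | sh a (a g) ∈ helper94.Long B k T}

theorem blocks_measurable_sh (g : Fin n) :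
    Measurable fun a : Fin n → Fin d → ℝ => sh a (a g) := by
  unfold sh
  refine measurable_pi_lambda _ fun i => ?_
  exact (measurable_pi_apply i).sub (measurable_pi_apply g)

theorem blocks_measurableSet_long (g : Fin n) (B : Idx n d) (k : Fin d) (T : ℝ) :
    MeasurableSet (BlocksLong g B k T) :=
  blocks_measurable_sh g (helper94.measurableSet_long B k T)

theorem measurableSet_blkBad (g : Fin n) (B : Idx n d) (T : ℝ) :
    MeasurableSet (BlkBad g B T) := by
  have h1 : MeasurableSet {a : Fin n → Fin d → ℝ | (mat (sh a (a g)) B).det = 0} :=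
    ((helper11.TD.measurable_det B).comp (blocks_measurable_sh g)) (measurableSet_singleton 0)
  have h2 : MeasurableSet (⋃ k, {a : Fin n → Fin d → ℝ | T < n2 (nu (sh a (a g)) B k)}) := by
    refine MeasurableSet.iUnion fun k => ?_
    exact measurableSet_lt measurable_const (helper94.measurable_n2.comp
      ((helper11.TD.measurable_nu B k).comp (blocks_measurable_sh g)))
  have h3 : BlkBad g B T = {a : Fin n → Fin d → ℝ | (mat (sh a (a g)) B).det = 0} ∪
      ⋃ k, {a : Fin n → Fin d → ℝ | T < n2 (nu (sh a (a g)) B k)} := by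
    ext a
    simp [BlkBad]
  rw [h3]
  exact h1.union h2

/-- The event depends only on the constraints of the block. -/
theorem blocks_long_congr {a b : Fin n → Fin d → ℝ} {g : Fin n} {B : Idx n d}
    (h : ∀ i ∈ blk g B, a i = b i) (k : Fin d) (T : ℝ) :
    a ∈ BlocksLong g B k T ↔ b ∈ BlocksLong g B k T := by
  unfold BlocksLong
  rw [Set.mem_ofPred_eq, Set.mem_ofPred_eq]
  apply helper94.long_congr
  intro l
  unfold sh
  rw [h _ (blocks_mem g B l), h _ (blocks_mem_self g B)]

/-- Resampling and shifting the `k`-th constraint of `B`. -/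
theorem blocks_gau_long_shift (a : Fin n → Fin d → ℝ) (c₀ y : Fin d → ℝ) {σ T : ℝ} (hσ : 0 < σ)
    (hT : 0 < T) (B : Idx n d) (k : Fin d) :
    gau c₀ σ {x | Function.update a (B k) (x - y) ∈ helper94.Long B k T} ≤
      ENNReal.ofReal (1 / (σ * T)) := by
  obtain ⟨u, hu, hul⟩ := helper94.exists_normal a B k
  have hu0 : u ≠ 0 := by
    intro h
    rw [h] at hu
    have : n2 (0 : Fin d → ℝ) = 0 := by simp [n2]
    rw [this] at hu
    exact zero_ne_one hu
  have h1 : {x | Function.update a (B k) (x - y) ∈ helper94.Long B k T} ⊆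
      {x | |y ⬝ᵥ u - x ⬝ᵥ u| ≤ 1 / T} := by
    intro x hx
    obtain ⟨hdet, hlt⟩ := hx
    set b := Function.update a (B k) (x - y) with hb
    have hbk : b (B k) = x - y := by rw [hb, Function.update_self]
    have hbl : ∀ l, l ≠ k → b (B l) ⬝ᵥ u = 0 := by
      intro l hl
      rw [hb, Function.update_of_ne (fun h => hl (B.injective h))]
      exact hul l hl
    have hne : b (B k) ⬝ᵥ u ≠ 0 := by
      intro h0
      apply hu0
      apply eq_of_dot_eq hdet
      intro l
      rw [dotProduct_zero]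
      by_cases hl : l = k
      · rw [hl]; exact h0
      · exact hbl l hl
    rw [helper94.nu_of_normal hdet hbl hne, n2_smul, hu, mul_one, hbk, abs_inv] at hlt
    rw [hbk] at hne
    have hpos : 0 < |(x - y) ⬝ᵥ u| := abs_pos.mpr hne
    change |y ⬝ᵥ u - x ⬝ᵥ u| ≤ 1 / T
    rw [abs_sub_comm, ← sub_dotProduct, le_div_iff₀ hT]
    have h2 := mul_lt_mul_of_pos_right hlt hpos
    rw [inv_mul_cancel₀ hpos.ne'] at h2
    linarith
  refine (measure_mono h1).trans ((qp.lin_small c₀ u hσ hu0 _ (by positivity)).trans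
    (le_of_eq ?_))
  congr 1
  rw [hu]
  field_simp

/-- The same in the presence of an event not depending on that constraint. -/
theorem blocks_noise_long (c : Fin n → Fin d → ℝ) {σ T : ℝ} (hσ : 0 < σ) (hT : 0 < T) {g : Fin n}
    {B : Idx n d} (hg : g ∉ rng B) (k : Fin d) {S : Set (Fin n → Fin d → ℝ)}
    (hS : MeasurableSet S) (hS2 : ∀ a x, Function.update a (B k) x ∈ S ↔ a ∈ S) :
    noise c σ (S ∩ BlocksLong g B k T) ≤ ENNReal.ofReal (1 / (σ * T)) * noise c σ S := by
  have hL := blocks_measurableSet_long g B k T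
  have hne : B k ≠ g := fun h => hg (mem_rng.mpr ⟨k, h⟩)
  have hup : ∀ (a : Fin n → Fin d → ℝ) (x : Fin d → ℝ),
      sh (Function.update a (B k) x) (Function.update a (B k) x g) =
        Function.update (sh a (a g)) (B k) (x - a g) := by
    intro a x
    rw [Function.update_of_ne hne.symm]
    funext i
    by_cases h : i = B k
    · subst h
      simp [sh]
    · simp [sh, Function.update_of_ne h]
  rw [← lintegral_indicator_one (hS.inter hL), helper11.TD.noise_update c σ (B k)
    (measurable_one.indicator (hS.inter hL)), ← lintegral_indicator_one hS,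
    ← lintegral_const_mul' _ _ ENNReal.ofReal_ne_top]
  refine lintegral_mono fun a => ?_
  by_cases ha : a ∈ S
  · rw [Set.indicator_of_mem ha, Pi.one_apply, mul_one]
    have hpre : MeasurableSet {x : Fin d → ℝ | Function.update a (B k) x ∈ BlocksLong g B k T} :=
      hL.preimage (measurable_update a)
    have h1 : (fun x : Fin d → ℝ => (S ∩ BlocksLong g B k T).indicator
        (1 : (Fin n → Fin d → ℝ) → ℝ≥0∞) (Function.update a (B k) x)) =
        {x : Fin d → ℝ | Function.update a (B k) x ∈ BlocksLong g B k T}.indicator 1 := by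
      funext x
      by_cases hx : Function.update a (B k) x ∈ BlocksLong g B k T
      · rw [Set.indicator_of_mem (show Function.update a (B k) x ∈ S ∩ BlocksLong g B k T from
          ⟨(hS2 a x).mpr ha, hx⟩), Set.indicator_of_mem
          (show x ∈ {x : Fin d → ℝ | Function.update a (B k) x ∈ BlocksLong g B k T} from hx)]
        rfl
      · rw [Set.indicator_of_notMem (fun h => hx h.2), Set.indicator_of_notMem
          (show x ∉ {x : Fin d → ℝ | Function.update a (B k) x ∈ BlocksLong g B k T} from hx)]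
    rw [h1, lintegral_indicator_one hpre]
    have h2 : {x : Fin d → ℝ | Function.update a (B k) x ∈ BlocksLong g B k T} =
        {x | Function.update (sh a (a g)) (B k) (x - a g) ∈ helper94.Long B k T} := by
      ext x
      change sh (Function.update a (B k) x) (Function.update a (B k) x g) ∈
        helper94.Long B k T ↔ _
      rw [hup]
      rfl
    rw [h2]
    exact blocks_gau_long_shift _ _ _ hσ hT B k
  · have h1 : (fun x : Fin d → ℝ => (S ∩ BlocksLong g B k T).indicator
        (1 : (Fin n → Fin d → ℝ) → ℝ≥0∞) (Function.update a (B k) x)) = fun _ => 0 := by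
      funext x
      rw [Set.indicator_of_notMem (fun h => ha ((hS2 a x).mp h.1))]
    rw [h1]
    simp

/-- In each of the first `s` blocks some dual vector is long. -/
def BlocksFail {m : ℕ} (g : Fin m → Fin n) (B : Fin m → Idx n d) (s : ℕ) (T : ℝ) :
    Set (Fin n → Fin d → ℝ) :=
  {a | ∀ j : Fin m, (j : ℕ) < s → ∃ k, a ∈ BlocksLong (g j) (B j) k T}

theorem blocks_measurableSet_fail {m : ℕ} (g : Fin m → Fin n) (B : Fin m → Idx n d) (s : ℕ)
    (T : ℝ) : MeasurableSet (BlocksFail g B s T) := by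
  unfold BlocksFail
  rw [Set.ofPred_forall]
  refine MeasurableSet.iInter fun j => ?_
  rw [Set.ofPred_forall]
  refine MeasurableSet.iInter fun _ => ?_
  have h1 : {a : Fin n → Fin d → ℝ | ∃ k, a ∈ BlocksLong (g j) (B j) k T} =
      ⋃ k, BlocksLong (g j) (B j) k T := by
    ext a
    simp
  rw [h1]
  exact MeasurableSet.iUnion fun k => blocks_measurableSet_long _ _ _ _

theorem blocks_noise_fail (c : Fin n → Fin d → ℝ) {σ T : ℝ} (hσ : 0 < σ) (hT : 0 < T) {m : ℕ}
    (g : Fin m → Fin n) (B : Fin m → Idx n d) (hg : ∀ j, g j ∉ rng (B j))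
    (hdisj : ∀ i j, i ≠ j → Disjoint (blk (g i) (B i)) (blk (g j) (B j))) (s : ℕ)
    (hs : s ≤ m) : noise c σ (BlocksFail g B s T) ≤ ENNReal.ofReal (d / (σ * T)) ^ s := by
  induction s with
  | zero =>
    rw [pow_zero]
    exact prob_le_one
  | succ s ih =>
    have hs' : s ≤ m := (Nat.le_succ s).trans hs
    let j₀ : Fin m := ⟨s, hs⟩
    have h1 : BlocksFail g B (s + 1) T ⊆
        ⋃ k, BlocksFail g B s T ∩ BlocksLong (g j₀) (B j₀) k T := by
      intro a ha
      obtain ⟨k, hk⟩ := ha j₀ (Nat.lt_succ_self s)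
      exact Set.mem_iUnion.mpr ⟨k, fun j hj => ha j (hj.trans (Nat.lt_succ_self s)), hk⟩
    have hup : ∀ (k : Fin d) (a : Fin n → Fin d → ℝ) (x : Fin d → ℝ),
        Function.update a (B j₀ k) x ∈ BlocksFail g B s T ↔ a ∈ BlocksFail g B s T := by
      intro k a x
      unfold BlocksFail
      rw [Set.mem_ofPred_eq, Set.mem_ofPred_eq]
      refine forall_congr' fun j => forall_congr' fun hj => exists_congr fun l => ?_
      apply blocks_long_congr
      intro i hi
      rw [Function.update_of_ne]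
      rintro rfl
      have hne : j ≠ j₀ := by
        rintro rfl
        exact lt_irrefl _ hj
      exact Finset.disjoint_left.mp (hdisj j j₀ hne) hi (blocks_mem _ _ k)
    calc noise c σ (BlocksFail g B (s + 1) T)
        ≤ ∑ k, noise c σ (BlocksFail g B s T ∩ BlocksLong (g j₀) (B j₀) k T) :=
          (measure_mono h1).trans (measure_iUnion_fintype_le _ _)
      _ ≤ ∑ _k : Fin d, ENNReal.ofReal (1 / (σ * T)) * noise c σ (BlocksFail g B s T) :=
          Finset.sum_le_sum fun k _ => blocks_noise_long c hσ hT (hg j₀) k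
            (blocks_measurableSet_fail g B s T) (hup k)
      _ = ENNReal.ofReal (d / (σ * T)) * noise c σ (BlocksFail g B s T) := by
          rw [Finset.sum_const, Finset.card_univ, Fintype.card_fin, nsmul_eq_mul, ← mul_assoc]
          congr 1
          rw [← ENNReal.ofReal_natCast, ← ENNReal.ofReal_mul (Nat.cast_nonneg d)]
          congr 1
          ring
      _ ≤ ENNReal.ofReal (d / (σ * T)) * ENNReal.ofReal (d / (σ * T)) ^ s := by
          gcongr
          exact ih hs'
      _ = ENNReal.ofReal (d / (σ * T)) ^ (s + 1) := by rw [pow_succ']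

theorem noise_blkBad (c : Fin n → Fin d → ℝ) {σ T : ℝ} (hσ : 0 < σ) (hT : 0 < T) {m : ℕ}
    (g : Fin m → Fin n) (B : Fin m → Idx n d) (hg : ∀ j, g j ∉ rng (B j))
    (hdisj : ∀ i j, i ≠ j → Disjoint (blk (g i) (B i)) (blk (g j) (B j))) :
    noise c σ {a | ∀ j, a ∈ BlkBad (g j) (B j) T} ≤ ENNReal.ofReal ((d / (σ * T)) ^ m) := by
  rw [ENNReal.ofReal_pow (by positivity)]
  refine le_trans (measure_mono_ae ?_) (blocks_noise_fail c hσ hT g B hg hdisj m le_rfl)
  filter_upwards [ae_affGen c hσ] with a ha hns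
  change a ∈ BlocksFail g B m T
  intro j _
  rcases hns j with h | ⟨k, hk⟩
  · exact absurd h (ha (B j) (g j) (hg j))
  · exact ⟨k, ha (B j) (g j) (hg j), hk⟩

theorem exists_blocks (m : ℕ) (h : (2 * d + 1) * m * (d + 1) ≤ n) :
    ∃ (g : Fin (2 * d + 1) → Fin m → Fin n) (B : Fin (2 * d + 1) → Fin m → Idx n d),
      (∀ t s, g t s ∉ rng (B t s)) ∧
      ∀ t s t' s', (t, s) ≠ (t', s') →
        Disjoint (blk (g t s) (B t s)) (blk (g t' s') (B t' s')) := by
  have hlt : ∀ (t : Fin (2 * d + 1)) (s : Fin m) (r : ℕ), r ≤ d →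
      ((t : ℕ) * m + s) * (d + 1) + r < n := by
    intro t s r hr
    have h1 : (t : ℕ) * m + s + 1 ≤ (2 * d + 1) * m := by
      have h2 : ((t : ℕ) + 1) * m ≤ (2 * d + 1) * m := Nat.mul_le_mul_right m t.2
      have h3 := s.2
      rw [add_mul, one_mul] at h2
      omega
    have h4 := Nat.mul_le_mul_right (d + 1) h1
    rw [add_mul _ 1 (d + 1), one_mul] at h4
    omega
  let g : Fin (2 * d + 1) → Fin m → Fin n := fun t s =>
    ⟨((t : ℕ) * m + s) * (d + 1) + 0, hlt t s 0 (Nat.zero_le d)⟩
  let B : Fin (2 * d + 1) → Fin m → Idx n d := fun t s =>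
    OrderEmbedding.ofStrictMono
      (fun k : Fin d => ⟨((t : ℕ) * m + s) * (d + 1) + (k + 1), hlt t s (k + 1) k.2⟩)
      (fun k l hkl => by
        rw [Fin.lt_def] at hkl ⊢
        simpa using hkl)
  have hB : ∀ t s k, (B t s k : ℕ) = ((t : ℕ) * m + s) * (d + 1) + (k + 1) := fun _ _ _ => rfl
  have hmem : ∀ t s i, i ∈ blk (g t s) (B t s) → (i : ℕ) / (d + 1) = (t : ℕ) * m + s := by
    intro t s i hi
    have key : ∀ r : ℕ, r ≤ d → (((t : ℕ) * m + s) * (d + 1) + r) / (d + 1) =
        (t : ℕ) * m + s := by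
      intro r hr
      rw [add_comm, Nat.add_mul_div_right _ _ (Nat.succ_pos d),
        Nat.div_eq_of_lt (Nat.lt_succ_of_le hr), zero_add]
    unfold blk at hi
    rw [Finset.mem_insert, mem_rng] at hi
    rcases hi with rfl | ⟨k, rfl⟩
    · exact key 0 (Nat.zero_le d)
    · rw [hB]
      exact key (k + 1) k.2
  refine ⟨g, B, ?_, ?_⟩
  · intro t s hmem2
    rw [mem_rng] at hmem2
    obtain ⟨k, hk⟩ := hmem2
    have h1 := congrArg Fin.val hk
    rw [hB] at h1
    have h2 : (g t s : ℕ) = ((t : ℕ) * m + s) * (d + 1) + 0 := rfl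
    rw [h2] at h1
    omega
  · intro t s t' s' hne
    rw [Finset.disjoint_left]
    intro i hi hi'
    apply hne
    have h1 := hmem t s i hi
    rw [hmem t' s' i hi'] at h1
    have hs := s.2
    have hs' := s'.2
    have h2 : (t : ℕ) = t' := by
      rcases lt_trichotomy (t : ℕ) t' with h3 | h3 | h3
      · exfalso
        have h4 : ((t : ℕ) + 1) * m ≤ t' * m := Nat.mul_le_mul_right m h3
        rw [add_mul, one_mul] at h4
        omega
      · exact h3
      · exfalso
        have h4 : ((t' : ℕ) + 1) * m ≤ t * m := Nat.mul_le_mul_right m h3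
        rw [add_mul, one_mul] at h4
        omega
    have h5 : t = t' := Fin.ext h2
    subst h5
    have h6 : s = s' := by
      apply Fin.ext
      omega
    rw [h6]

end Pool.Agent.H.MP_0cad2f_co.bd
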