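import Pool.Agent.H.MP_0cad2f_co.bd.Basic
import Pool.Agent.H.MP_0cad2f_co.helper35.Cube
import Pool.Agent.H.MP_0cad2f_co.helper73.Walk

/-!
There are few feasible bases with short dual vectors.
-/

set_option autoImplicit false

namespace Pool.Agent.H.MP_0cad2f_co.bd

open MeasureTheory ProbabilityTheory Matrix Finset
open scoped NNReal ENNReal
open Pool.Agent.H.MP_0cad2f_co.helper47
open Pool.Agent.H.MP_0cad2f_co.helper29 (ae_generic_zero Generic.pos)
open Pool.Agent.H.MP_0cad2f_co.helper73 (tight_of_ne)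

variable {n d : ℕ}

/-- The ball around the objective of a basis with short dual vectors lies in its cone. -/
private theorem cardFat_cone {a : Fin n → Fin d → ℝ} {I : Idx n d} (hdet : (mat a I).det ≠ 0)
    {T δ : ℝ} (hT : 0 ≤ T) (hν : ∀ k, n2 (nu a I k) ≤ T) (hδ : T * (d * δ) ≤ 1)
    {X : Fin d → ℝ} (hX : ‖X - cI a I‖ ≤ δ) (k : Fin d) : 0 ≤ nu a I k ⬝ᵥ X := by
  have h1 : nu a I k ⬝ᵥ cI a I = 1 := by
    unfold cI
    rw [dotProduct_sum]
    have h2 : ∀ l, nu a I k ⬝ᵥ a (I l) = if l = k then 1 else 0 := fun l => by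
      rw [dotProduct_comm, dot_nu hdet]
    rw [Finset.sum_congr rfl fun l _ => h2 l]
    simp
  have h3 : nu a I k ⬝ᵥ X = 1 + nu a I k ⬝ᵥ (X - cI a I) := by
    rw [dotProduct_sub, h1]
    ring
  have h4 := (abs_le.1 (abs_dot_le (nu a I k) (X - cI a I))).1
  have h5 : n2 (nu a I k) * n2 (X - cI a I) ≤ T * (d * δ) := by
    refine mul_le_mul (hν k) ((n2_le _).trans ?_) (n2_nonneg _) hT
    exact mul_le_mul_of_nonneg_left hX (Nat.cast_nonneg d)
  rw [h3]
  linarith

open Classical in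
/-- There are few feasible bases with short dual vectors. -/
theorem card_fat_le (hd : 1 ≤ d) {a : Fin n → Fin d → ℝ} {J Z : Finset (Fin n)}
    (hs : SimpleJ a J Z) {T : ℝ} (hT : 1 ≤ T) :
    ((Finset.univ.filter fun I : Idx n d => rng I ⊆ Z ∧ Good (mask (J ∪ Z) a) I ∧
      (∀ k, n2 (a (I k)) ≤ 4) ∧ ∀ k, n2 (nu a I k) ≤ T).card : ℝ) ≤
      (8 * (d : ℝ) ^ 2 * T) ^ d := by
  have hd1 : (1 : ℝ) ≤ d := by exact_mod_cast hd
  have hT0 : 0 < T := by linarith
  obtain ⟨δ, hδ⟩ : ∃ δ : ℝ, δ = 1 / (d * T) := ⟨_, rfl⟩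
  have hδ0 : 0 < δ := by
    rw [hδ]
    positivity
  have hδT : T * (d * δ) ≤ 1 := by
    rw [hδ]
    apply le_of_eq
    field_simp
  obtain ⟨F, hF⟩ : ∃ F : Finset (Idx n d), F = Finset.univ.filter fun I : Idx n d =>
    rng I ⊆ Z ∧ Good (mask (J ∪ Z) a) I ∧ (∀ k, n2 (a (I k)) ≤ 4) ∧
      ∀ k, n2 (nu a I k) ≤ T := ⟨_, rfl⟩
  rw [← hF]
  have hmem : ∀ I ∈ F, rng I ⊆ Z ∧ Good (mask (J ∪ Z) a) I ∧ (∀ k, n2 (a (I k)) ≤ 4) ∧
      ∀ k, n2 (nu a I k) ≤ T := by
    intro I hI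
    rw [hF, Finset.mem_filter] at hI
    exact hI.2
  -- the balls lie in the cones
  have hcone : ∀ I ∈ F, ∀ X ∈ Metric.closedBall (cI a I) δ,
      InCone (mask (J ∪ Z) a) I X := by
    intro I hI X hX k
    obtain ⟨h1, h2, -, h4⟩ := hmem I hI
    have h5 : rng I ⊆ J ∪ Z := h1.trans Finset.subset_union_right
    rw [nu_mask a h5]
    have h6 := h2.1
    rw [mat_mask a h5] at h6
    rw [Metric.mem_closedBall, dist_eq_norm] at hX
    exact cardFat_cone h6 hT0.le h4 hδT hX k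
  -- the balls do not overlap
  have hdisj : Set.Pairwise (F : Set (Idx n d))
      (Function.onFun (AEDisjoint (volume : Measure (Fin d → ℝ)))
        fun I => Metric.closedBall (cI a I) δ) := by
    intro I hI I' hI' hne
    rw [Finset.mem_coe] at hI hI'
    show volume (Metric.closedBall (cI a I) δ ∩ Metric.closedBall (cI a I') δ) = 0
    refine measure_mono_null ?_ (ae_iff.1 (ae_generic_zero (mask (J ∪ Z) a) 0))
    rintro X ⟨hX, hX'⟩ hgen
    obtain ⟨h1, h2, -, -⟩ := hmem I hI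
    obtain ⟨h1', h2', -, -⟩ := hmem I' hI'
    have h5 : rng I' ⊆ J ∪ Z := h1'.trans Finset.subset_union_right
    obtain ⟨f, hf, hf'⟩ : ∃ f ∈ rng I, f ∉ rng I' := by
      by_contra hcon
      push Not at hcon
      apply hne
      apply rng_injective
      exact Finset.eq_of_subset_of_card_le hcon (by rw [card_rng, card_rng])
    obtain ⟨k, rfl⟩ := mem_rng.1 hf
    have h6 := hcone I hI X hX
    have h6' := hcone I' hI' X hX'
    have h7 := tight_of_ne h2 h2' h6 h6' (k := k) (Generic.pos hgen h2.1 h6 k).ne'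
    have h8 : mask (J ∪ Z) a (I k) = a (I k) := by
      unfold mask
      rw [if_pos (Finset.mem_union_right _ (h1 hf))]
    rw [h8, vtx_mask a h5] at h7
    exact hs I' h5 h2' (I k) (h1 hf) hf' h7
  -- the balls lie in a large ball
  have hsub : (⋃ I ∈ F, Metric.closedBall (cI a I) δ) ⊆
      {X : Fin d → ℝ | ‖X‖ ≤ 4 * d + δ} := by
    intro X hX
    obtain ⟨I, hI, hXI⟩ := Set.mem_iUnion₂.1 hX
    rw [Metric.mem_closedBall, dist_eq_norm] at hXI
    have h1 : ‖cI a I‖ ≤ 4 * d := by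
      refine (norm_le_n2 _).trans ((n2_sum_le _ _).trans ?_)
      refine (Finset.sum_le_sum fun k _ => (hmem I hI).2.2.1 k).trans ?_
      simp only [Finset.sum_const, Finset.card_univ, Fintype.card_fin, nsmul_eq_mul]
      linarith
    show ‖X‖ ≤ 4 * d + δ
    calc ‖X‖ = ‖cI a I + (X - cI a I)‖ := by
          congr 1
          abel
      _ ≤ ‖cI a I‖ + ‖X - cI a I‖ := norm_add_le _ _
      _ ≤ 4 * d + δ := add_le_add h1 hXI
  have hvol : (F.card : ℝ≥0∞) * ENNReal.ofReal ((2 * δ) ^ d) ≤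
      ENNReal.ofReal ((2 * (4 * d + δ)) ^ d) := by
    rw [← helper35.cubeVol_eq d (show (0 : ℝ) ≤ 4 * d + δ by positivity)]
    unfold cubeVol
    refine le_trans (le_of_eq ?_) (measure_mono hsub)
    rw [measure_biUnion_finset₀ hdisj fun I _ =>
      Metric.isClosed_closedBall.measurableSet.nullMeasurableSet]
    have h1 : ∀ I ∈ F, volume (Metric.closedBall (cI a I) δ) =
        ENNReal.ofReal ((2 * δ) ^ d) := by
      intro I _
      rw [Real.volume_pi_closedBall _ hδ0.le, Fintype.card_fin]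
    rw [Finset.sum_congr rfl h1, Finset.sum_const, nsmul_eq_mul]
  rw [← ENNReal.ofReal_natCast, ← ENNReal.ofReal_mul (Nat.cast_nonneg _),
    ENNReal.ofReal_le_ofReal_iff (by positivity)] at hvol
  have h1 : (F.card : ℝ) ≤ ((2 * (4 * d + δ)) / (2 * δ)) ^ d := by
    rw [div_pow, le_div_iff₀ (by positivity)]
    exact hvol
  refine h1.trans (pow_le_pow_left₀ (by positivity) ?_ d)
  rw [div_le_iff₀ (by positivity), hδ]
  have h2 : 8 * (d : ℝ) ^ 2 * T * (2 * (1 / (d * T))) = 16 * d := by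
    field_simp
    ring
  rw [h2]
  have h3 : 1 / ((d : ℝ) * T) ≤ 1 := by
    rw [div_le_one (by positivity)]
    nlinarith
  linarith

end Pool.Agent.H.MP_0cad2f_co.bd
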