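import Pool.Agent.H.MP_0cad2f_co.bd.Basic

/-!
Decoupling: a chain of facets in which every facet brings a new constraint is found with
probability at least `K ^ (-(d r))` by a random colouring of the constraints.
-/

set_option autoImplicit false

namespace Pool.Agent.H.MP_0cad2f_co.bd

open MeasureTheory ProbabilityTheory Matrix Finset
open scoped NNReal ENNReal
open Pool.Agent.H.MP_0cad2f_co.helper47

variable {n d : ℕ}

/-- The number of colourings with prescribed values on a set. -/
theorem card_colourings {K : ℕ} (U : Finset (Fin n)) (ψ : Fin n → Fin K) :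
    K ^ U.card * (Finset.univ.filter fun χ : Fin n → Fin K => ∀ i ∈ U, χ i = ψ i).card =
      K ^ n := by
  classical
  have h1 : (Finset.univ.filter fun χ : Fin n → Fin K => ∀ i ∈ U, χ i = ψ i) =
      Fintype.piFinset fun i => if i ∈ U then {ψ i} else Finset.univ := by
    ext χ
    simp only [Finset.mem_filter, Finset.mem_univ, true_and, Fintype.mem_piFinset]
    refine forall_congr' fun i => ?_
    by_cases h : i ∈ U
    · simp [h]
    · simp [h]
  rw [h1, Fintype.card_piFinset]
  have h2 : ∀ i, (if i ∈ U then ({ψ i} : Finset (Fin K)) else Finset.univ).card =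
      if i ∈ U then 1 else K := by
    intro i
    by_cases h : i ∈ U
    · simp [h]
    · simp [h]
  simp only [h2]
  have h3 : (K : ℕ) ^ U.card = ∏ i : Fin n, if i ∈ U then K else 1 := by
    rw [Finset.prod_ite_mem, Finset.univ_inter, Finset.prod_const]
  rw [h3, ← Finset.prod_mul_distrib]
  have h4 : ∀ i : Fin n, (if i ∈ U then K else 1) * (if i ∈ U then 1 else K) = K := by
    intro i
    by_cases h : i ∈ U
    · simp [h]
    · simp [h]
  simp [h4]

open Classical in
theorem decouple {K r s : ℕ} (hK : s + r < K) (cc a : Fin n → Fin d → ℝ) {ρ : ℝ}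
    (p c : Fin d → ℝ) (M R : ℝ) {L : Finset (Fin n)}
    (hvtx : ∀ B : Idx n d, Good a B → n2 (vtx a B) ≤ ρ)
    (hnear : ∀ i ∈ L, n2 (a i - cc i) ≤ 1) {U : Finset (Fin n)} (hU : ∀ i, i ∉ U → i ∈ L)
    (ψ : Fin n → Fin K) :
    (K : ℝ≥0∞) ^ n * R0 a p c M R r U ≤ (K : ℝ≥0∞) ^ (U.card + d * r) *
      ∑ χ ∈ Finset.univ.filter (fun χ : Fin n → Fin K => ∀ i ∈ U, χ i = ψ i),
        RC cc a ρ p c M R (cols L χ s r) U := by
  induction r generalizing s U ψ with
  | zero =>
    have h := card_colourings U ψ
    simp only [R0, cols, RC, mul_one, mul_zero, add_zero, Finset.sum_const, nsmul_eq_mul]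
    rw [← Nat.cast_pow, ← Nat.cast_pow, ← Nat.cast_mul, h]
  | succ r ih =>
    have hK1 : (1 : ℝ≥0∞) ≤ K := by
      have : 1 ≤ K := by omega
      exact_mod_cast this
    -- the colouring for a basis
    set ψ' : Idx n d → Fin n → Fin K := fun B i =>
      if i ∈ U then ψ i else ⟨s + 1, by omega⟩ with hψ'
    have hstep : ∀ (B : Idx n d) (k : Fin d), Good a B ∧ B k ∉ U →
        (K : ℝ≥0∞) ^ n * (phi a p c M R B k * R0 a p c M R r (U ∪ rng B)) ≤
          (K : ℝ≥0∞) ^ (U.card + d * (r + 1)) *
            ∑ χ ∈ Finset.univ.filter (fun χ : Fin n → Fin K => ∀ i ∈ U, χ i = ψ i),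
              if rng B ⊆ U ∪ cls L χ (s + 1) ∧ B k ∉ U ∧
                  Ok cc a ρ (rng B ∩ U) (cls L χ (s + 1)) B then
                phi a p c M R B k * RC cc a ρ p c M R (cols L χ (s + 1) r) (U ∪ rng B)
              else 0 := by
      rintro B k ⟨hB, hk⟩
      have h1 := ih (s := s + 1) (by omega) (U := U ∪ rng B)
        (fun i hi => hU i fun h => hi (Finset.mem_union_left _ h)) (ψ' B)
      have h2 : (K : ℝ≥0∞) ^ ((U ∪ rng B).card + d * r) ≤
          (K : ℝ≥0∞) ^ (U.card + d * (r + 1)) := by
        apply pow_le_pow_right₀ hK1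
        have h3 := Finset.card_union_le U (rng B)
        rw [card_rng] at h3
        rw [Nat.mul_succ]
        omega
      have h4 : ∑ χ ∈ Finset.univ.filter
            (fun χ : Fin n → Fin K => ∀ i ∈ U ∪ rng B, χ i = ψ' B i),
            phi a p c M R B k * RC cc a ρ p c M R (cols L χ (s + 1) r) (U ∪ rng B) ≤
          ∑ χ ∈ Finset.univ.filter (fun χ : Fin n → Fin K => ∀ i ∈ U, χ i = ψ i),
              if rng B ⊆ U ∪ cls L χ (s + 1) ∧ B k ∉ U ∧
                  Ok cc a ρ (rng B ∩ U) (cls L χ (s + 1)) B then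
                phi a p c M R B k * RC cc a ρ p c M R (cols L χ (s + 1) r) (U ∪ rng B)
              else 0 := by
        have h5 : ∀ χ ∈ Finset.univ.filter
            (fun χ : Fin n → Fin K => ∀ i ∈ U ∪ rng B, χ i = ψ' B i),
            phi a p c M R B k * RC cc a ρ p c M R (cols L χ (s + 1) r) (U ∪ rng B) =
              if rng B ⊆ U ∪ cls L χ (s + 1) ∧ B k ∉ U ∧
                  Ok cc a ρ (rng B ∩ U) (cls L χ (s + 1)) B then
                phi a p c M R B k * RC cc a ρ p c M R (cols L χ (s + 1) r) (U ∪ rng B)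
              else 0 := by
          intro χ hχ
          have hχ' := (Finset.mem_filter.1 hχ).2
          have h6 : ∀ i ∈ rng B, i ∉ U → i ∈ cls L χ (s + 1) := by
            intro i hi hiU
            have h7 := hχ' i (Finset.mem_union_right _ hi)
            rw [hψ'] at h7
            simp only [if_neg hiU] at h7
            unfold cls
            rw [Finset.mem_filter, h7]
            exact ⟨hU i hiU, rfl⟩
          have h8 : rng B ⊆ U ∪ cls L χ (s + 1) := by
            intro i hi
            by_cases hiU : i ∈ U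
            · exact Finset.mem_union_left _ hiU
            · exact Finset.mem_union_right _ (h6 i hi hiU)
          have h9 : rng B ⊆ (rng B ∩ U) ∪ cls L χ (s + 1) := by
            intro i hi
            by_cases hiU : i ∈ U
            · exact Finset.mem_union_left _ (Finset.mem_inter.2 ⟨hi, hiU⟩)
            · exact Finset.mem_union_right _ (h6 i hi hiU)
          rw [if_pos ⟨h8, hk, ⟨good_mask h9 hB, hvtx B hB, fun i hi =>
            hnear i (Finset.mem_filter.1 hi).1⟩⟩]
        rw [Finset.sum_congr rfl h5]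
        refine Finset.sum_le_sum_of_subset fun χ hχ => ?_
        rw [Finset.mem_filter] at hχ ⊢
        refine ⟨Finset.mem_univ _, fun i hi => ?_⟩
        have h7 := hχ.2 i (Finset.mem_union_left _ hi)
        rw [hψ'] at h7
        simpa only [if_pos hi] using h7
      calc (K : ℝ≥0∞) ^ n * (phi a p c M R B k * R0 a p c M R r (U ∪ rng B))
          = phi a p c M R B k * ((K : ℝ≥0∞) ^ n * R0 a p c M R r (U ∪ rng B)) := by
            rw [mul_left_comm]
        _ ≤ phi a p c M R B k * ((K : ℝ≥0∞) ^ ((U ∪ rng B).card + d * r) *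
            ∑ χ ∈ Finset.univ.filter
              (fun χ : Fin n → Fin K => ∀ i ∈ U ∪ rng B, χ i = ψ' B i),
              RC cc a ρ p c M R (cols L χ (s + 1) r) (U ∪ rng B)) := by gcongr
        _ = (K : ℝ≥0∞) ^ ((U ∪ rng B).card + d * r) *
            ∑ χ ∈ Finset.univ.filter
              (fun χ : Fin n → Fin K => ∀ i ∈ U ∪ rng B, χ i = ψ' B i),
              phi a p c M R B k * RC cc a ρ p c M R (cols L χ (s + 1) r) (U ∪ rng B) := by
            rw [mul_left_comm, Finset.mul_sum]
        _ ≤ _ := by gcongr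
    -- sum over the bases
    simp only [R0, cols, RC, stepSum]
    rw [Finset.mul_sum]
    have h10 : ∀ B : Idx n d, (K : ℝ≥0∞) ^ n * ∑ k : Fin d,
        (if Good a B ∧ B k ∉ U then phi a p c M R B k * R0 a p c M R r (U ∪ rng B) else 0) ≤
        ∑ k : Fin d, (K : ℝ≥0∞) ^ (U.card + d * (r + 1)) *
            ∑ χ ∈ Finset.univ.filter (fun χ : Fin n → Fin K => ∀ i ∈ U, χ i = ψ i),
              if rng B ⊆ U ∪ cls L χ (s + 1) ∧ B k ∉ U ∧
                  Ok cc a ρ (rng B ∩ U) (cls L χ (s + 1)) B then
                phi a p c M R B k * RC cc a ρ p c M R (cols L χ (s + 1) r) (U ∪ rng B)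
              else 0 := by
      intro B
      rw [Finset.mul_sum]
      refine Finset.sum_le_sum fun k _ => ?_
      by_cases h : Good a B ∧ B k ∉ U
      · rw [if_pos h]
        exact hstep B k h
      · rw [if_neg h, mul_zero]
        exact zero_le
    refine (Finset.sum_le_sum fun B _ => h10 B).trans (le_of_eq ?_)
    simp only [← Finset.mul_sum]
    congr 1
    have h11 : ∀ g : Idx n d → Fin d → (Fin n → Fin K) → ℝ≥0∞,
        ∑ B, ∑ k, ∑ χ ∈ Finset.univ.filter (fun χ : Fin n → Fin K => ∀ i ∈ U, χ i = ψ i),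
          g B k χ =
        ∑ χ ∈ Finset.univ.filter (fun χ : Fin n → Fin K => ∀ i ∈ U, χ i = ψ i),
          ∑ B, ∑ k, g B k χ := by
      intro g
      exact (Finset.sum_congr rfl fun B _ => Finset.sum_comm).trans Finset.sum_comm
    exact h11 _

end Pool.Agent.H.MP_0cad2f_co.bd
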