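import Pool.Agent.H.MP_0cad2f_co.helper47.Obj
import Pool.Agent.H.MP_0cad2f_co.helper29.Cover

/-!
The diameter in bounded dimension: definitions.

For a bounded polytope `{x | ∀ i, a i ⬝ᵥ x ≤ 1}`, a segment of objectives `X + p + μ • c`,
`0 ≤ μ ≤ M`, with `X` uniform in the cube `‖X‖ ≤ R`, meets `nVis` normal cones, on average `avg`.
`phi` is the probability that a given facet of a given normal cone is met. `R0` is the sum over
chains of `r` facets in which every facet brings a new constraint. `RC` is the same sum for chains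
whose new constraints lie in prescribed disjoint colour classes.
-/

set_option autoImplicit false

namespace Pool.Agent.H.MP_0cad2f_co.bd

open MeasureTheory ProbabilityTheory Matrix Finset
open scoped NNReal ENNReal
open Pool.Agent.H.MP_0cad2f_co.helper47

variable {n d : ℕ}

/-- The set of constraints of a basis. -/
def rng (B : Idx n d) : Finset (Fin n) := Finset.univ.map B.toEmbedding

/-- Only the constraints in `S` are kept. -/
def mask (S : Finset (Fin n)) (a : Fin n → Fin d → ℝ) : Fin n → Fin d → ℝ :=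
  fun i => if i ∈ S then a i else 0

/-- The segment from `X` to `X + M • c` meets the cone of `B`. -/
def Vis (a : Fin n → Fin d → ℝ) (c : Fin d → ℝ) (M : ℝ) (B : Idx n d) (X : Fin d → ℝ) : Prop :=
  ∃ μ ∈ Set.Icc (0 : ℝ) M, InCone a B (X + μ • c)

open Classical in
/-- The number of normal cones met. -/
noncomputable def nVis (a : Fin n → Fin d → ℝ) (c : Fin d → ℝ) (M : ℝ) (X : Fin d → ℝ) : ℕ :=
  (Finset.univ.filter fun B : Idx n d => Good a B ∧ Vis a c M B X).card

/-- The average number of normal cones met. -/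
noncomputable def avg (a : Fin n → Fin d → ℝ) (p c : Fin d → ℝ) (M R : ℝ) : ℝ≥0∞ :=
  (∫⁻ X in {X : Fin d → ℝ | ‖X‖ ≤ R}, (nVis a c M (X + p) : ℝ≥0∞)) / cubeVol d R

/-- The time at which the segment meets the hyperplane of the `k`-th facet. -/
noncomputable def tm (a : Fin n → Fin d → ℝ) (B : Idx n d) (k : Fin d) (c X : Fin d → ℝ) : ℝ :=
  -(nu a B k ⬝ᵥ X) / (nu a B k ⬝ᵥ c)

/-- The segment crosses the `k`-th facet of the cone of `B`. -/
def HitE (a : Fin n → Fin d → ℝ) (B : Idx n d) (k : Fin d) (c : Fin d → ℝ) (M : ℝ)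
    (X : Fin d → ℝ) : Prop :=
  nu a B k ⬝ᵥ c ≠ 0 ∧ 0 ≤ tm a B k c X ∧ tm a B k c X ≤ M ∧ InCone a B (X + tm a B k c X • c)

/-- The probability that the facet of the cone of `B` opposite to its `k`-th constraint is
crossed. -/
noncomputable def phi (a : Fin n → Fin d → ℝ) (p c : Fin d → ℝ) (M R : ℝ) (B : Idx n d)
    (k : Fin d) : ℝ≥0∞ :=
  volume {X : Fin d → ℝ | ‖X‖ ≤ R ∧ HitE a B k c M (X + p)} / cubeVol d R

open Classical in
/-- The sum over chains of facets; each opposite constraint is new. -/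
noncomputable def R0 (a : Fin n → Fin d → ℝ) (p c : Fin d → ℝ) (M R : ℝ) :
    ℕ → Finset (Fin n) → ℝ≥0∞
  | 0, _ => 1
  | r + 1, U => ∑ B : Idx n d, ∑ k : Fin d,
      if Good a B ∧ B k ∉ U then phi a p c M R B k * R0 a p c M R r (U ∪ rng B) else 0

/-- `B` is feasible for the constraints in `J ∪ Z`, its vertex is not far away, and the
constraints in `Z` are near their centres. -/
structure Ok (cc a : Fin n → Fin d → ℝ) (ρ : ℝ) (J Z : Finset (Fin n)) (B : Idx n d) :
    Prop where
  good : Good (mask (J ∪ Z) a) B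
  vtx_le : n2 (vtx a B) ≤ ρ
  near : ∀ i ∈ Z, n2 (a i - cc i) ≤ 1

/-- `B` is feasible for the constraints in `J ∪ Z` and its `k`-th constraint is far from the
span of the others. -/
structure Fat (a : Fin n → Fin d → ℝ) (s₀ : ℝ) (J Z : Finset (Fin n)) (B : Idx n d)
    (k : Fin d) : Prop where
  good : Good (mask (J ∪ Z) a) B
  nu_le : n2 (nu a B k) ≤ 1 / s₀
  norm_le : n2 (a (B k)) ≤ 5

open Classical in
/-- One step of a coloured chain: the new constraints belong to `Z`. -/
noncomputable def stepSum (cc a : Fin n → Fin d → ℝ) (ρ : ℝ) (p c : Fin d → ℝ) (M R : ℝ)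
    (Z U : Finset (Fin n)) (F : Finset (Fin n) → ℝ≥0∞) : ℝ≥0∞ :=
  ∑ B : Idx n d, ∑ k : Fin d,
    if rng B ⊆ U ∪ Z ∧ B k ∉ U ∧ Ok cc a ρ (rng B ∩ U) Z B then
      phi a p c M R B k * F (U ∪ rng B) else 0

/-- The sum over coloured chains. -/
noncomputable def RC (cc a : Fin n → Fin d → ℝ) (ρ : ℝ) (p c : Fin d → ℝ) (M R : ℝ) :
    List (Finset (Fin n)) → Finset (Fin n) → ℝ≥0∞
  | [], _ => 1
  | Z :: Zs, U => stepSum cc a ρ p c M R Z U (RC cc a ρ p c M R Zs)

/-- The colour class of `t` in `L`. -/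
def cls {K : ℕ} (L : Finset (Fin n)) (χ : Fin n → Fin K) (t : ℕ) : Finset (Fin n) :=
  L.filter fun i => (χ i : ℕ) = t

/-- The colour classes `s + 1, …, s + r`. -/
def cols {K : ℕ} (L : Finset (Fin n)) (χ : Fin n → Fin K) : ℕ → ℕ → List (Finset (Fin n))
  | _, 0 => []
  | s, r + 1 => cls L χ (s + 1) :: cols L χ (s + 1) r

/-- The union of a list of sets. -/
def uni (Zs : List (Finset (Fin n))) : Finset (Fin n) := Zs.foldr (· ∪ ·) ∅

/-- The graph of the feasible bases: neighbours share `d - 1` constraints. -/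
def cgraph (a : Fin n → Fin d → ℝ) : SimpleGraph (Idx n d) :=
  SimpleGraph.fromRel fun B B' => Good a B ∧ Good a B' ∧ (rng B ∩ rng B').card = d - 1

/-- The laws of the constraints. -/
noncomputable abbrev law (cc : Fin n → Fin d → ℝ) (σ : ℝ) :
    (i : Fin n) → Measure (Fin d → ℝ) :=
  fun i => gau (cc i) σ

/-- The bound for the speed at which the segment crosses a facet at time `μ`. -/
noncomputable def wgt (D₀ D₁ μ : ℝ) : ℝ := if μ ≤ 1 then D₀ else D₁ / μ

/-- The bound for the sum over one step of a coloured chain. -/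
noncomputable def Lam (d u : ℕ) (s₀ D₁ M : ℝ) : ℝ :=
  (u + 1) ^ d * (60 * d / s₀) * (4 * d + D₁ * Real.log M)

/-- The constraints in `Z` which do not belong to a feasible basis are not tight at its vertex. -/
def SimpleJ (a : Fin n → Fin d → ℝ) (J Z : Finset (Fin n)) : Prop :=
  ∀ B : Idx n d, rng B ⊆ J ∪ Z → Good (mask (J ∪ Z) a) B → ∀ i ∈ Z, i ∉ rng B →
    a i ⬝ᵥ vtx a B ≠ 1

/-- The barycentre of the constraints in `G`. -/
noncomputable def bar (a : Fin n → Fin d → ℝ) (G : Finset (Fin n)) : Fin d → ℝ :=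
  (G.card : ℝ)⁻¹ • ∑ i ∈ G, a i

/-- The constraints are shifted by `y`. -/
def sh (a : Fin n → Fin d → ℝ) (y : Fin d → ℝ) : Fin n → Fin d → ℝ := fun i => a i - y

/-- The constraints in `G` alone define a polytope of radius at most `ρ`. -/
def Bdd (a : Fin n → Fin d → ℝ) (G : Finset (Fin n)) (ρ : ℝ) : Prop :=
  ∀ x : Fin d → ℝ, (∀ i ∈ G, a i ⬝ᵥ x ≤ 1) → n2 x ≤ ρ

/-- `y` is an interior point of the convex hull. -/
def Inn (a : Fin n → Fin d → ℝ) (y : Fin d → ℝ) : Prop :=
  ∀ v : Fin d → ℝ, v ≠ 0 → ∃ i, y ⬝ᵥ v < a i ⬝ᵥ v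

/-- No `d + 1` constraints lie in a hyperplane. -/
def AffGen (a : Fin n → Fin d → ℝ) : Prop :=
  ∀ (B : Idx n d) (i : Fin n), i ∉ rng B → (mat (sh a (a i)) B).det ≠ 0

end Pool.Agent.H.MP_0cad2f_co.bd
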