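import Pool.Agent.H.MP_0cad2f_co.bd.Defs
import Pool.Agent.H.MP_0cad2f_co.helper47.Flux

/-!
The probability that a facet of a normal cone is crossed is bounded by the volume of the cone,
averaged over the segment: the flux through the facet, together with the bound for the crossing
time.
-/

set_option autoImplicit false

namespace Pool.Agent.H.MP_0cad2f_co.bd

open MeasureTheory ProbabilityTheory Matrix Finset
open scoped NNReal ENNReal
open Pool.Agent.H.MP_0cad2f_co.helper47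
open Pool.Agent.H.MP_0cad2f_co.helper29 (toVert)

variable {n d : ℕ}

theorem phi_le {a : Fin n → Fin d → ℝ} {B : Idx n d} {k : Fin d} (hdet : (mat a B).det ≠ 0)
    (hb : n2 (a (B k)) ≤ 5) {p c : Fin d → ℝ} {M R D₀ D₁ : ℝ} (hR : 0 ≤ R)
    (hc : n2 c ≤ D₀) (hp : n2 p + d * R ≤ D₁) :
    phi a p c M R B k ≤ ENNReal.ofReal (5 * n2 (nu a B k)) *
      (∫⁻ μ in Set.Icc 0 M, ENNReal.ofReal (wgt D₀ D₁ μ) * coneVol a B (p + μ • c) (R + 1)) /
        cubeVol d R := by
  have hD₁ : 0 ≤ D₁ := le_trans (by have := n2_nonneg p; positivity) hp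
  rw [phi]
  refine ENNReal.div_le_div_right ?_ _
  by_cases hγ : nu a B k ⬝ᵥ c = 0
  · have hempty : {X : Fin d → ℝ | ‖X‖ ≤ R ∧ HitE a B k c M (X + p)} = ∅ := by
      ext X
      simp only [Set.mem_ofPred_eq, Set.mem_empty_iff_false, iff_false]
      rintro ⟨-, h, -⟩
      exact h hγ
    rw [hempty, measure_empty]
    exact zero_le
  have hγ' : 0 < |nu a B k ⬝ᵥ c| := abs_pos.mpr hγ
  set M' : ℝ := min M (n2 (nu a B k) * D₁ / |nu a B k ⬝ᵥ c|) with hM'
  have hsub : {X : Fin d → ℝ | ‖X‖ ≤ R ∧ HitE a B k c M (X + p)} ⊆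
      {X : Fin d → ℝ | ‖X‖ ≤ R ∧ Hit a B k c M' (X + p)} := by
    rintro X ⟨hX, -, h0, hM, hcone⟩
    refine ⟨hX, tm a B k c (X + p), ⟨h0, le_min hM ?_⟩, hcone, ?_⟩
    · have h1 : tm a B k c (X + p) = |nu a B k ⬝ᵥ (X + p)| / |nu a B k ⬝ᵥ c| := by
        rw [← abs_of_nonneg h0, tm, abs_div, abs_neg]
      rw [h1]
      refine div_le_div_of_nonneg_right ?_ hγ'.le
      refine (abs_dot_le _ _).trans (mul_le_mul_of_nonneg_left ?_ (n2_nonneg _))
      refine (n2_add_le _ _).trans ?_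
      have h2 : n2 X ≤ d * R := (n2_le X).trans (by gcongr)
      linarith
    · rw [dotProduct_add, dotProduct_smul, smul_eq_mul, tm, div_mul_cancel₀ _ hγ]
      ring
  refine (measure_mono hsub).trans ?_
  refine (flux hdet k (A := 5) (by norm_num) ((norm_le_n2 _).trans hb) c p).trans ?_
  rw [← lintegral_const_mul' _ _ ENNReal.ofReal_ne_top,
    ← lintegral_const_mul' _ _ ENNReal.ofReal_ne_top]
  have hIcc : Set.Icc 0 M' ⊆ Set.Icc 0 M := Set.Icc_subset_Icc_right (min_le_left _ _)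
  refine le_trans ?_ (lintegral_mono_set hIcc)
  refine setLIntegral_mono' measurableSet_Icc fun μ hμ => ?_
  rw [← mul_assoc, ← ENNReal.ofReal_mul (mul_nonneg (by norm_num) (n2_nonneg _))]
  refine mul_le_mul' (ENNReal.ofReal_le_ofReal ?_) (le_of_eq ?_)
  · rw [mul_assoc]
    refine mul_le_mul_of_nonneg_left ?_ (by norm_num)
    rw [wgt]
    split_ifs with h1
    · exact (abs_dot_le _ _).trans (mul_le_mul_of_nonneg_left hc (n2_nonneg _))
    · push Not at h1
      have h2 : μ ≤ n2 (nu a B k) * D₁ / |nu a B k ⬝ᵥ c| := hμ.2.trans (min_le_right _ _)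
      rw [le_div_iff₀ hγ'] at h2
      rw [← mul_div_assoc, le_div_iff₀ (by linarith)]
      linarith
  · rw [coneVol]
    simp only [add_assoc]

theorem wgt_int {D₀ D₁ M : ℝ} (h₀ : 0 ≤ D₀) (h₁ : 0 ≤ D₁) (hM : 1 ≤ M) :
    ∫⁻ μ in Set.Icc 0 M, ENNReal.ofReal (wgt D₀ D₁ μ) ≤
      ENNReal.ofReal (D₀ + D₁ * Real.log M) := by
  have hsplit : Set.Icc (0 : ℝ) M = Set.Icc 0 1 ∪ Set.Ioc 1 M :=
    (Set.Icc_union_Ioc_eq_Icc zero_le_one hM).symm
  have hlog : 0 ≤ Real.log M := Real.log_nonneg hM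
  rw [hsplit, ENNReal.ofReal_add h₀ (mul_nonneg h₁ hlog)]
  refine (lintegral_union_le _ _ _).trans (add_le_add ?_ ?_)
  · have h2 : ∫⁻ μ in Set.Icc (0 : ℝ) 1, ENNReal.ofReal (wgt D₀ D₁ μ) =
        ∫⁻ _ in Set.Icc (0 : ℝ) 1, ENNReal.ofReal D₀ := by
      refine setLIntegral_congr_fun measurableSet_Icc fun μ hμ => ?_
      simp only [wgt, if_pos hμ.2]
    rw [h2, lintegral_const, Measure.restrict_apply_univ, Real.volume_Icc]
    simp
  · have h2 : ∫⁻ μ in Set.Ioc (1 : ℝ) M, ENNReal.ofReal (wgt D₀ D₁ μ) =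
        ∫⁻ μ in Set.Ioc (1 : ℝ) M, ENNReal.ofReal (D₁ * μ⁻¹) := by
      refine setLIntegral_congr_fun measurableSet_Ioc fun μ hμ => ?_
      simp only [wgt, if_neg (not_le.mpr hμ.1), div_eq_mul_inv]
    have hint : IntervalIntegrable (fun μ : ℝ => D₁ * μ⁻¹) volume 1 M := by
      refine IntervalIntegrable.const_mul ?_ _
      refine intervalIntegral.intervalIntegrable_inv (fun x hx => ?_) continuousOn_id
      rw [Set.uIcc_of_le hM] at hx
      have := hx.1
      linarith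
    have hint' : IntegrableOn (fun μ : ℝ => D₁ * μ⁻¹) (Set.Ioc 1 M) volume :=
      (intervalIntegrable_iff_integrableOn_Ioc_of_le hM).mp hint
    rw [h2, ← ofReal_integral_eq_lintegral_ofReal hint']
    · refine ENNReal.ofReal_le_ofReal (le_of_eq ?_)
      rw [← intervalIntegral.integral_of_le hM, intervalIntegral.integral_const_mul,
        integral_inv_of_pos one_pos (by linarith), div_one]
    · refine (ae_restrict_iff' measurableSet_Ioc).mpr (Filter.Eventually.of_forall fun μ hμ => ?_)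
      have : 0 < μ := by linarith [hμ.1]
      simp only [Pi.zero_apply]
      positivity

end Pool.Agent.H.MP_0cad2f_co.bd
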