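import Pool.Agent.H.MP_0cad2f_co.bd.Basic
import Pool.Agent.H.MP_0cad2f_co.helper29.SumCone
import Pool.Agent.H.MP_0cad2f_co.helper11.Gauss
import Pool.Agent.H.MP_0cad2f_co.helper11.Law

/-!
The normal cones of the bases `B` with `J ⊆ B ⊆ J ∪ Z` which are feasible for the constraints in
`J ∪ Z` do not overlap, if no constraint in `Z` outside a feasible basis is tight at its vertex.
This condition holds for almost all values of the constraints in `Z`, whatever the values of the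
constraints in `J` are.
-/

set_option autoImplicit false

namespace Pool.Agent.H.MP_0cad2f_co.bd

open MeasureTheory ProbabilityTheory Matrix Finset
open scoped NNReal ENNReal
open Pool.Agent.H.MP_0cad2f_co.helper47

variable {n d : ℕ}

/-- Two feasible bases whose cones contain the same vector in general position have the same
vertex. -/
theorem vtx_eq_of_cones {a : Fin n → Fin d → ℝ} {c X : Fin d → ℝ} (hX : Generic a c X)
    {B B' : Idx n d} (h : Good a B) (h' : Good a B') (hc : InCone a B X)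
    (hc' : InCone a B' X) : vtx a B = vtx a B' := by
  have key : ∀ {B B' : Idx n d}, Good a B → Good a B' → InCone a B X →
      X ⬝ᵥ vtx a B' ≤ X ⬝ᵥ vtx a B := by
    intro B B' h h' hc
    rw [← sum_coord a B X]
    conv_lhs => rw [← sum_nu_smul h.1 X]
    rw [sum_dotProduct]
    refine Finset.sum_le_sum fun k _ => ?_
    rw [smul_dotProduct, smul_eq_mul]
    exact mul_le_of_le_one_right (hc k) (h'.2 _)
  have heq : X ⬝ᵥ vtx a B' = X ⬝ᵥ vtx a B := le_antisymm (key h h' hc) (key h' h hc')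
  refine Eq.symm (eq_vtx h.1 fun k => ?_)
  have h1 : ∑ k, (nu a B k ⬝ᵥ X) * (1 - a (B k) ⬝ᵥ vtx a B') = 0 := by
    have e1 : X ⬝ᵥ vtx a B' = ∑ k, (nu a B k ⬝ᵥ X) * (a (B k) ⬝ᵥ vtx a B') := by
      conv_lhs => rw [← sum_nu_smul h.1 X]
      rw [sum_dotProduct]
      refine Finset.sum_congr rfl fun k _ => ?_
      rw [smul_dotProduct, smul_eq_mul]
    have e2 := sum_coord a B X
    simp only [mul_sub, mul_one, Finset.sum_sub_distrib]
    rw [← e1, e2, heq, sub_self]
  have h2 := (Finset.sum_eq_zero_iff_of_nonneg fun k _ =>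
    mul_nonneg (hc k) (sub_nonneg.2 (h'.2 (B k)))).1 h1 k (Finset.mem_univ k)
  rcases mul_eq_zero.1 h2 with h3 | h3
  · exact absurd h3 (helper29.Generic.pos hX h.1 hc k).ne'
  · linarith

theorem inCone_mask {S : Finset (Fin n)} (a : Fin n → Fin d → ℝ) {B : Idx n d}
    (h : rng B ⊆ S) (w : Fin d → ℝ) : InCone (mask S a) B w ↔ InCone a B w := by
  unfold InCone
  simp only [nu_mask a h]

/-- The bases with `J ⊆ B ⊆ J ∪ Z` which are feasible for `J ∪ Z` are determined by their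
vertices. -/
theorem eq_of_vtx_J {a : Fin n → Fin d → ℝ} {J Z : Finset (Fin n)} (hs : SimpleJ a J Z)
    {B B' : Idx n d} (hJ : J ⊆ rng B) (hB : rng B ⊆ J ∪ Z) (hG : Good (mask (J ∪ Z) a) B)
    (hB' : rng B' ⊆ J ∪ Z) (hG' : Good (mask (J ∪ Z) a) B')
    (hv : vtx a B = vtx a B') : B = B' := by
  have hsub : rng B' ⊆ rng B := by
    intro i hi
    rcases Finset.mem_union.1 (hB' hi) with h1 | h1
    · exact hJ h1
    · by_contra hcon
      refine hs B hB hG i h1 hcon ?_
      rw [hv]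
      obtain ⟨k, rfl⟩ := mem_rng.1 hi
      refine dot_vtx ?_ k
      rw [← mat_mask a hB']
      exact hG'.1
  refine rng_injective (Eq.symm (Finset.eq_of_subset_of_card_le hsub ?_))
  rw [card_rng, card_rng]

open Classical in
theorem sum_coneVol_J (hd : 1 ≤ d) {a : Fin n → Fin d → ℝ} {J Z : Finset (Fin n)}
    (hs : SimpleJ a J Z) (w : Fin d → ℝ) (R : ℝ) :
    ∑ B : Idx n d, (if J ⊆ rng B ∧ rng B ⊆ J ∪ Z ∧ Good (mask (J ∪ Z) a) B then
      coneVol a B w R else 0) ≤ cubeVol d R := by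
  let E : Idx n d → Set (Fin d → ℝ) := fun B => {X | ‖X‖ ≤ R ∧ InCone a B (X + w)}
  have hE : ∀ B, MeasurableSet (E B) := by
    intro B
    have h1 : E B = {X | ‖X‖ ≤ R} ∩ ⋂ k, {X | 0 ≤ nu a B k ⬝ᵥ (X + w)} := by
      ext X
      simp [E, InCone]
    rw [h1]
    refine MeasurableSet.inter ?_ (MeasurableSet.iInter fun k => ?_)
    · rw [helper29.cube_eq]
      exact Metric.isClosed_closedBall.measurableSet
    · refine (isClosed_le continuous_const ?_).measurableSet
      unfold dotProduct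
      simp only [Pi.add_apply]
      fun_prop
  rw [← Finset.sum_filter]
  have h2 : ∑ B ∈ Finset.univ.filter (fun B : Idx n d =>
      J ⊆ rng B ∧ rng B ⊆ J ∪ Z ∧ Good (mask (J ∪ Z) a) B), coneVol a B w R =
      volume (⋃ B ∈ Finset.univ.filter (fun B : Idx n d =>
        J ⊆ rng B ∧ rng B ⊆ J ∪ Z ∧ Good (mask (J ∪ Z) a) B), E B) := by
    refine (measure_biUnion_finset₀ ?_ fun B _ => (hE B).nullMeasurableSet).symm
    intro B hB B' hB' hne
    obtain ⟨-, hJ, hBZ, hG⟩ := Finset.mem_filter.1 (Finset.mem_coe.1 hB)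
    obtain ⟨-, hJ', hBZ', hG'⟩ := Finset.mem_filter.1 (Finset.mem_coe.1 hB')
    show volume (E B ∩ E B') = 0
    refine measure_mono_null ?_ (ae_iff.1 (helper29.ae_generic hd (mask (J ∪ Z) a) 0 w))
    rintro X ⟨hX, hX'⟩ hgen
    have h3 := vtx_eq_of_cones hgen hG hG' ((inCone_mask a hBZ _).2 hX.2)
      ((inCone_mask a hBZ' _).2 hX'.2)
    rw [vtx_mask a hBZ, vtx_mask a hBZ'] at h3
    exact hne (eq_of_vtx_J hs hJ hBZ hG hBZ' hG' h3)
  rw [h2]
  unfold cubeVol
  refine measure_mono ?_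
  intro X hX
  obtain ⟨B, -, hXB⟩ := Set.mem_iUnion₂.1 hX
  exact hXB.1

/-- Hyperplanes which do not contain the origin have measure zero. -/
theorem gau_dot_eq_one (c : Fin d → ℝ) {σ : ℝ} (hσ : 0 < σ) (w : Fin d → ℝ) :
    gau c σ {x | x ⬝ᵥ w = 1} = 0 := by
  by_cases hw : w = 0
  · subst hw
    have h1 : {x : Fin d → ℝ | x ⬝ᵥ 0 = 1} = ∅ := by
      ext x
      simp
    rw [h1, measure_empty]
  · have hv0 : Real.toNNReal (σ ^ 2) ≠ 0 := by
      intro h
      have h2 := Real.toNNReal_eq_zero.1 h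
      have : 0 < σ ^ 2 := by positivity
      linarith
    exact helper11.null_hyperplane c w hv0 hw 1

theorem measurable_dot_vtx (B : Idx n d) (i : Fin n) :
    Measurable fun a : Fin n → Fin d → ℝ => a i ⬝ᵥ vtx a B := by
  simp only [dotProduct]
  refine Finset.measurable_fun_sum _ fun j _ => ?_
  refine Measurable.mul ?_ ?_
  · exact (measurable_pi_apply j).comp (measurable_pi_apply i)
  · exact (measurable_pi_apply j).comp (helper11.TD.measurable_vtx B)

theorem vtx_update_of_notMem (a : Fin n → Fin d → ℝ) {B : Idx n d} {i : Fin n}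
    (hi : i ∉ rng B) (x : Fin d → ℝ) : vtx (Function.update a i x) B = vtx a B := by
  have h1 : mat (Function.update a i x) B = mat a B := by
    funext k j
    unfold mat
    rw [Function.update_of_ne]
    intro h
    exact hi (mem_rng.2 ⟨k, h⟩)
  unfold vtx nu
  rw [h1]

/-- One constraint of `Z`: for almost all values of the constraints in `Z`, it is not tight at
the vertex of a given basis to which it does not belong. -/
theorem null_tight (cc : Fin n → Fin d → ℝ) {σ : ℝ} (hσ : 0 < σ) {Z : Finset (Fin n)}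
    {i : Fin n} (hi : i ∈ Z) {B : Idx n d} (hB : i ∉ rng B) (a : Fin n → Fin d → ℝ) :
    (∫⋯∫⁻_Z, ({a | a i ⬝ᵥ vtx a B = 1}.indicator 1 : (Fin n → Fin d → ℝ) → ℝ≥0∞)
      ∂(law cc σ)) a = 0 := by
  have hm : MeasurableSet {a : Fin n → Fin d → ℝ | a i ⬝ᵥ vtx a B = 1} :=
    measurable_dot_vtx B i (measurableSet_singleton 1)
  have hf : Measurable ({a : Fin n → Fin d → ℝ | a i ⬝ᵥ vtx a B = 1}.indicator
      (1 : (Fin n → Fin d → ℝ) → ℝ≥0∞)) := measurable_one.indicator hm
  rw [lmarginal_erase' _ hf hi]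
  have h0 : (fun x : Fin n → Fin d → ℝ => ∫⁻ xi : Fin d → ℝ,
      ({a : Fin n → Fin d → ℝ | a i ⬝ᵥ vtx a B = 1}.indicator
        (1 : (Fin n → Fin d → ℝ) → ℝ≥0∞)) (Function.update x i xi) ∂(law cc σ i)) =
      fun _ => 0 := by
    funext x
    have h1 : ∀ xi : Fin d → ℝ, ({a : Fin n → Fin d → ℝ | a i ⬝ᵥ vtx a B = 1}.indicator
        (1 : (Fin n → Fin d → ℝ) → ℝ≥0∞)) (Function.update x i xi) =
        ({xi : Fin d → ℝ | xi ⬝ᵥ vtx x B = 1}.indicator (1 : (Fin d → ℝ) → ℝ≥0∞)) xi := by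
      intro xi
      have h2 : Function.update x i xi ∈ {a : Fin n → Fin d → ℝ | a i ⬝ᵥ vtx a B = 1} ↔
          xi ∈ {xi : Fin d → ℝ | xi ⬝ᵥ vtx x B = 1} := by
        rw [Set.mem_ofPred_eq, Set.mem_ofPred_eq, Function.update_self,
          vtx_update_of_notMem x hB xi]
      by_cases h : xi ∈ {xi : Fin d → ℝ | xi ⬝ᵥ vtx x B = 1}
      · rw [Set.indicator_of_mem h, Set.indicator_of_mem (h2.2 h)]
        rfl
      · rw [Set.indicator_of_notMem h, Set.indicator_of_notMem fun h' => h (h2.1 h')]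
    simp_rw [h1]
    have hmx : MeasurableSet {xi : Fin d → ℝ | xi ⬝ᵥ vtx x B = 1} := by
      have : Measurable fun xi : Fin d → ℝ => xi ⬝ᵥ vtx x B := by
        unfold dotProduct
        fun_prop
      exact this (measurableSet_singleton 1)
    rw [lintegral_indicator_one hmx]
    exact gau_dot_eq_one (cc i) hσ (vtx x B)
  rw [h0]
  unfold lmarginal
  exact lintegral_zero

theorem measurable_maskJ (S : Finset (Fin n)) :
    Measurable fun a : Fin n → Fin d → ℝ => mask S a := by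
  refine measurable_pi_lambda _ fun i => ?_
  unfold mask
  by_cases h : i ∈ S
  · simp only [if_pos h]
    exact measurable_pi_apply i
  · simp only [if_neg h]
    exact measurable_const

theorem measurableSet_simpleJ (J Z : Finset (Fin n)) :
    MeasurableSet {a : Fin n → Fin d → ℝ | SimpleJ a J Z} := by
  unfold SimpleJ
  simp only [Set.ofPred_forall]
  refine MeasurableSet.iInter fun B => MeasurableSet.iInter fun _ => ?_
  have h1 : MeasurableSet {a : Fin n → Fin d → ℝ | Good (mask (J ∪ Z) a) B} :=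
    (measurable_maskJ (J ∪ Z)) (helper11.TD.measurableSet_good B)
  have h2 : {a : Fin n → Fin d → ℝ | Good (mask (J ∪ Z) a) B → ∀ i ∈ Z, i ∉ rng B →
      a i ⬝ᵥ vtx a B ≠ 1} = {a : Fin n → Fin d → ℝ | Good (mask (J ∪ Z) a) B}ᶜ ∪
        ⋂ i, ⋂ (_ : i ∈ Z), ⋂ (_ : i ∉ rng B), {a : Fin n → Fin d → ℝ | a i ⬝ᵥ vtx a B = 1}ᶜ := by
    ext a
    simp only [Set.mem_ofPred_eq, Set.mem_union, Set.mem_compl_iff, Set.mem_iInter]
    tauto
  rw [h2]
  refine h1.compl.union (MeasurableSet.iInter fun i => MeasurableSet.iInter fun _ =>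
    MeasurableSet.iInter fun _ => ?_)
  exact (measurable_dot_vtx B i (measurableSet_singleton 1)).compl

theorem null_simpleJ (cc : Fin n → Fin d → ℝ) {σ : ℝ} (hσ : 0 < σ) (_hd : 1 ≤ d)
    {J Z : Finset (Fin n)} (_hJZ : Disjoint J Z) (a : Fin n → Fin d → ℝ) :
    (∫⋯∫⁻_Z, ({a | ¬ SimpleJ a J Z}.indicator 1 : (Fin n → Fin d → ℝ) → ℝ≥0∞)
      ∂(law cc σ)) a = 0 := by
  have hm : ∀ (B : Idx n d) (i : Fin n), Measurable
      ({a : Fin n → Fin d → ℝ | a i ⬝ᵥ vtx a B = 1}.indicator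
        (1 : (Fin n → Fin d → ℝ) → ℝ≥0∞)) := fun B i =>
    measurable_one.indicator (measurable_dot_vtx B i (measurableSet_singleton 1))
  have hle : ({a : Fin n → Fin d → ℝ | ¬ SimpleJ a J Z}.indicator 1 :
      (Fin n → Fin d → ℝ) → ℝ≥0∞) ≤ fun a => ∑ B : Idx n d, ∑ i ∈ Z \ rng B,
        ({a : Fin n → Fin d → ℝ | a i ⬝ᵥ vtx a B = 1}.indicator
          (1 : (Fin n → Fin d → ℝ) → ℝ≥0∞)) a := by
    intro x
    by_cases h : x ∈ {a : Fin n → Fin d → ℝ | ¬ SimpleJ a J Z}
    · rw [Set.indicator_of_mem h]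
      have h1 : ¬ SimpleJ x J Z := h
      unfold SimpleJ at h1
      push Not at h1
      obtain ⟨B, -, -, i, hi, hB, hx⟩ := h1
      refine le_trans ?_ (Finset.single_le_sum (f := fun B : Idx n d => ∑ i ∈ Z \ rng B,
        ({a : Fin n → Fin d → ℝ | a i ⬝ᵥ vtx a B = 1}.indicator
          (1 : (Fin n → Fin d → ℝ) → ℝ≥0∞)) x) (fun _ _ => bot_le) (Finset.mem_univ B))
      refine le_trans ?_ (Finset.single_le_sum (f := fun i =>
        ({a : Fin n → Fin d → ℝ | a i ⬝ᵥ vtx a B = 1}.indicator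
          (1 : (Fin n → Fin d → ℝ) → ℝ≥0∞)) x) (fun _ _ => bot_le)
          (Finset.mem_sdiff.2 ⟨hi, hB⟩))
      show (1 : (Fin n → Fin d → ℝ) → ℝ≥0∞) x ≤ _
      rw [Set.indicator_of_mem (show x ∈ {a : Fin n → Fin d → ℝ | a i ⬝ᵥ vtx a B = 1} from hx)]
    · rw [Set.indicator_of_notMem h]
      exact bot_le
  refine le_antisymm (le_trans (lmarginal_mono hle a) ?_) bot_le
  unfold lmarginal
  have h1 : ∀ (B : Idx n d) (i : Fin n), Measurable fun y : (j : Z) → Fin d → ℝ =>
      ({a : Fin n → Fin d → ℝ | a i ⬝ᵥ vtx a B = 1}.indicator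
        (1 : (Fin n → Fin d → ℝ) → ℝ≥0∞)) (Function.updateFinset a Z y) := fun B i =>
    (hm B i).comp measurable_updateFinset
  show ∫⁻ y : (j : Z) → Fin d → ℝ, (∑ B : Idx n d, ∑ i ∈ Z \ rng B,
    ({a : Fin n → Fin d → ℝ | a i ⬝ᵥ vtx a B = 1}.indicator
      (1 : (Fin n → Fin d → ℝ) → ℝ≥0∞)) (Function.updateFinset a Z y))
      ∂(Measure.pi fun j : Z => law cc σ j) ≤ 0
  rw [lintegral_finsetSum _ fun B _ => Finset.measurable_fun_sum _ fun i _ => h1 B i]
  refine le_of_eq (Finset.sum_eq_zero fun B _ => ?_)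
  rw [lintegral_finsetSum _ fun i _ => h1 B i]
  refine Finset.sum_eq_zero fun i hi => ?_
  rw [Finset.mem_sdiff] at hi
  exact null_tight cc hσ hi.1 hi.2 a

end Pool.Agent.H.MP_0cad2f_co.bd
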