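import Pool.Agent.H.MP_0cad2f_co.bd.Basic
import Pool.Agent.H.MP_0cad2f_co.bd.Meas
import Pool.Agent.H.MP_0cad2f_co.helper40.Wedge
import Pool.Agent.H.MP_0cad2f_co.helper39.Average

/-!
The crossing probability of a facet does not depend on the opposite constraint, and the opposite
constraint may be moved away from the hyperplane spanned by the other ones.
-/

set_option autoImplicit false

namespace Pool.Agent.H.MP_0cad2f_co.bd

open MeasureTheory ProbabilityTheory Matrix Finset
open scoped NNReal ENNReal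
open Pool.Agent.H.MP_0cad2f_co.helper47

variable {n d : ℕ}

private theorem ThinFat_nu_self {a : Fin n → Fin d → ℝ} {B : Idx n d} {k : Fin d}
    {x : Fin d → ℝ} (hdet : (mat a B).det ≠ 0)
    (hdet' : (mat (Function.update a (B k) x) B).det ≠ 0) :
    ∃ t : ℝ, t ≠ 0 ∧ nu (Function.update a (B k) x) B k = t • nu a B k := by
  have h1 : nu (Function.update a (B k) x) B k =
      (a (B k) ⬝ᵥ nu (Function.update a (B k) x) B k) • nu a B k := by
    refine eq_of_dot_eq hdet fun m => ?_
    rw [dotProduct_smul, smul_eq_mul]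
    by_cases hm : m = k
    · rw [hm, dot_nu_self hdet, mul_one]
    · rw [dot_nu_ne hdet hm, mul_zero]
      have h2 := dot_nu_ne hdet' hm
      rwa [helper40.update_ne a B hm] at h2
  refine ⟨_, ?_, h1⟩
  intro h0
  rw [h0, zero_smul] at h1
  have h2 := dot_nu_self hdet' k
  rw [h1, dotProduct_zero] at h2
  exact zero_ne_one h2

private theorem ThinFat_nu_ne {a : Fin n → Fin d → ℝ} {B : Idx n d} {k : Fin d}
    {x : Fin d → ℝ} (hdet : (mat a B).det ≠ 0)
    (hdet' : (mat (Function.update a (B k) x) B).det ≠ 0) {l : Fin d} (hl : l ≠ k) :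
    ∃ s : ℝ, nu (Function.update a (B k) x) B l = nu a B l + s • nu a B k := by
  refine ⟨a (B k) ⬝ᵥ nu (Function.update a (B k) x) B l, ?_⟩
  refine eq_of_dot_eq hdet fun m => ?_
  rw [dotProduct_add, dotProduct_smul, smul_eq_mul]
  by_cases hm : m = k
  · rw [hm, dot_nu_self hdet, mul_one, dot_nu_ne hdet (Ne.symm hl), zero_add]
  · rw [dot_nu_ne hdet hm, mul_zero, add_zero, dot_nu hdet]
    have h2 := dot_nu hdet' m l
    rwa [helper40.update_ne a B hm] at h2

theorem phi_update {a : Fin n → Fin d → ℝ} {B : Idx n d} {k : Fin d} {x : Fin d → ℝ}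
    (hdet : (mat a B).det ≠ 0) (hdet' : (mat (Function.update a (B k) x) B).det ≠ 0)
    (p c : Fin d → ℝ) (M R : ℝ) :
    phi (Function.update a (B k) x) p c M R B k = phi a p c M R B k := by
  obtain ⟨t, ht, hk⟩ := ThinFat_nu_self hdet hdet'
  have hHit : ∀ X : Fin d → ℝ, HitE (Function.update a (B k) x) B k c M X ↔
      HitE a B k c M X := by
    intro X
    have htm : tm (Function.update a (B k) x) B k c X = tm a B k c X := by
      unfold tm
      rw [hk, smul_dotProduct, smul_dotProduct, smul_eq_mul, smul_eq_mul, ← mul_neg,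
        mul_div_mul_left _ _ ht]
    have hY : nu a B k ⬝ᵥ c ≠ 0 → nu a B k ⬝ᵥ (X + tm a B k c X • c) = 0 := by
      intro h
      rw [dotProduct_add, dotProduct_smul, smul_eq_mul]
      unfold tm
      rw [div_mul_cancel₀ _ h]
      ring
    have hcone : nu a B k ⬝ᵥ (X + tm a B k c X • c) = 0 →
        (InCone (Function.update a (B k) x) B (X + tm a B k c X • c) ↔
          InCone a B (X + tm a B k c X • c)) := by
      intro h0
      have h1 : ∀ l, l ≠ k → nu (Function.update a (B k) x) B l ⬝ᵥ (X + tm a B k c X • c) =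
          nu a B l ⬝ᵥ (X + tm a B k c X • c) := by
        intro l hl
        obtain ⟨s, hs⟩ := ThinFat_nu_ne hdet hdet' hl
        rw [hs, add_dotProduct, smul_dotProduct, h0, smul_zero, add_zero]
      have h2 : nu (Function.update a (B k) x) B k ⬝ᵥ (X + tm a B k c X • c) = 0 := by
        rw [hk, smul_dotProduct, h0, smul_zero]
      constructor
      · intro hc l
        by_cases hl : l = k
        · rw [hl, h0]
        · rw [← h1 l hl]
          exact hc l
      · intro hc l
        by_cases hl : l = k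
        · rw [hl, h2]
        · rw [h1 l hl]
          exact hc l
    have hne : nu (Function.update a (B k) x) B k ⬝ᵥ c ≠ 0 ↔ nu a B k ⬝ᵥ c ≠ 0 := by
      rw [hk, smul_dotProduct, smul_eq_mul]
      exact ⟨fun h h0 => h (by rw [h0, mul_zero]), fun h => mul_ne_zero ht h⟩
    unfold HitE
    rw [htm]
    constructor
    · rintro ⟨h1, h2, h3, h4⟩
      exact ⟨hne.mp h1, h2, h3, (hcone (hY (hne.mp h1))).mp h4⟩
    · rintro ⟨h1, h2, h3, h4⟩
      exact ⟨hne.mpr h1, h2, h3, (hcone (hY h1)).mpr h4⟩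
  unfold phi
  simp only [hHit]

/-- The pointwise alternative. -/
private theorem ThinFat_point (cc a : Fin n → Fin d → ℝ) {σ ρ s₀ : ℝ} (hd : 2 ≤ d) (hσ : 0 < σ)
    (hσ1 : σ ≤ 1) (hρ : 0 ≤ ρ) (hs₀ : s₀ = σ ^ 2 / (4 * (1 + 4 * ρ))) {J Z : Finset (Fin n)}
    {B : Idx n d} {k : Fin d} (hB : rng B ⊆ J ∪ Z) (hk : B k ∈ Z) (hkJ : B k ∉ J)
    (hJ : ∀ i ∈ J, n2 (a i) ≤ 4) (hcc : ∀ i ∈ Z, n2 (cc i) ≤ 3)
    (hex : ∃ x, Ok cc (Function.update a (B k) x) ρ J Z B) :
    ∃ z : Fin d → ℝ, n2 z ≤ σ ^ 2 / 2 ∧ ∀ x, Ok cc (Function.update a (B k) x) ρ J Z B →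
      n2 (x - cc (B k)) ≤ 1 ∧ (Fat (Function.update a (B k) x) s₀ J Z B k ∨
        Fat (Function.update a (B k) (x + z)) s₀ J Z B k) := by
  have hK : 0 < 1 + 4 * ρ := by positivity
  have hs : 0 < s₀ := by rw [hs₀]; positivity
  have hσ2 : σ ^ 2 ≤ 1 := pow_le_one₀ hσ.le hσ1
  have hmem : B k ∈ J ∪ Z := Finset.mem_union_right _ hk
  obtain ⟨x₀, hx₀⟩ := hex
  have ha : ∀ i, i ≠ B k → n2 (mask (J ∪ Z) a i) ≤ 4 := by
    intro i hi
    unfold mask
    by_cases h : i ∈ J ∪ Z
    · rw [if_pos h]
      rcases Finset.mem_union.mp h with h1 | h1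
      · exact hJ i h1
      · have h2 := hx₀.near i h1
        rw [Function.update_of_ne hi] at h2
        have h3 := n2_add_le (a i - cc i) (cc i)
        rw [sub_add_cancel] at h3
        linarith [hcc i h1]
    · rw [if_neg h]
      have h0 : n2 (0 : Fin d → ℝ) = 0 := by simp [n2]
      rw [h0]
      norm_num
  obtain ⟨u, v, hu, hv, huv, hw⟩ := helper40.wedge (mask (J ∪ Z) a) B k hd hρ
    (by norm_num : (0 : ℝ) ≤ 4) ha 0
  -- translation between the array and its mask
  have hgood : ∀ y, Good (Function.update (mask (J ∪ Z) a) (B k) y) B ↔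
      Good (mask (J ∪ Z) (Function.update a (B k) y)) B := by
    intro y
    rw [mask_update a hmem y]
  have hnu : ∀ y, nu (Function.update (mask (J ∪ Z) a) (B k) y) B k =
      nu (Function.update a (B k) y) B k := by
    intro y
    rw [← mask_update a hmem y, nu_mask _ hB]
  have hvtx : ∀ y, vtx (Function.update (mask (J ∪ Z) a) (B k) y) B =
      vtx (Function.update a (B k) y) B := by
    intro y
    rw [← mask_update a hmem y, vtx_mask _ hB]
  have hfat : ∀ y, Good (Function.update (mask (J ∪ Z) a) (B k) y) B →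
      nu (Function.update (mask (J ∪ Z) a) (B k) y) B k = (u ⬝ᵥ y)⁻¹ • u → s₀ ≤ |u ⬝ᵥ y| →
      n2 y ≤ 5 → Fat (Function.update a (B k) y) s₀ J Z B k := by
    intro y h1 h2 h3 h4
    refine ⟨(hgood y).mp h1, ?_, ?_⟩
    · rw [← hnu, h2, n2_smul, hu, mul_one, abs_inv, one_div]
      exact inv_anti₀ hs h3
    · rw [Function.update_self]
      exact h4
  have hz : n2 ((2 * s₀) • v) ≤ σ ^ 2 / 2 := by
    rw [n2_smul, abs_of_pos (by positivity)]
    refine (mul_le_mul_of_nonneg_left hv (by positivity)).trans (le_of_eq ?_)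
    rw [hs₀]
    field_simp
    ring
  refine ⟨(2 * s₀) • v, hz, ?_⟩
  intro x hx
  have hnear : n2 (x - cc (B k)) ≤ 1 := by
    have h1 := hx.near (B k) hk
    rwa [Function.update_self] at h1
  refine ⟨hnear, ?_⟩
  have hx4 : n2 x ≤ 4 := by
    have h3 := n2_add_le (x - cc (B k)) (cc (B k))
    rw [sub_add_cancel] at h3
    linarith [hcc (B k) hk]
  have hx1 : Good (Function.update (mask (J ∪ Z) a) (B k) x) B := (hgood x).mpr hx.good
  obtain ⟨h1, h2, h3⟩ := hw x hx1 (by rw [hvtx]; exact hx.vtx_le)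
    (by rw [zero_dotProduct]; exact zero_le_one)
  by_cases hux : s₀ ≤ |u ⬝ᵥ x|
  · left
    exact hfat x hx1 h2 hux (by linarith)
  · right
    rw [not_le] at hux
    obtain ⟨h4, h5, h6⟩ := h3 (2 * s₀) (by positivity) (by linarith)
    obtain ⟨_, h8, _⟩ := hw (x + (2 * s₀) • v) h4 h5 h6
    refine hfat _ h4 h8 ?_ ?_
    · rw [dotProduct_add, dotProduct_smul, huv, smul_eq_mul, mul_one]
      have h9 := (abs_lt.mp hux).1
      refine le_trans ?_ (le_abs_self _)
      linarith
    · have h9 := n2_add_le x ((2 * s₀) • v)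
      linarith

open Classical in
theorem thin_fat (cc a : Fin n → Fin d → ℝ) {σ ρ s₀ : ℝ} (hd : 2 ≤ d) (hσ : 0 < σ) (hσ1 : σ ≤ 1)
    (hρ : 0 ≤ ρ) (hs₀ : s₀ = σ ^ 2 / (4 * (1 + 4 * ρ))) {J Z : Finset (Fin n)} {B : Idx n d}
    {k : Fin d} (hB : rng B ⊆ J ∪ Z) (hk : B k ∈ Z) (hkJ : B k ∉ J)
    (hJ : ∀ i ∈ J, n2 (a i) ≤ 4) (hcc : ∀ i ∈ Z, n2 (cc i) ≤ 3) (p c : Fin d → ℝ) (M R : ℝ) :
    ∫⁻ x, (if Ok cc (Function.update a (B k) x) ρ J Z B then
      phi (Function.update a (B k) x) p c M R B k else 0) ∂(gau (cc (B k)) σ) ≤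
    4 * ∫⁻ x, (if Fat (Function.update a (B k) x) s₀ J Z B k then
      phi (Function.update a (B k) x) p c M R B k else 0) ∂(gau (cc (B k)) σ) := by
  by_cases hex : ∃ x, Ok cc (Function.update a (B k) x) ρ J Z B
  swap
  · have h0 : ∀ x, (if Ok cc (Function.update a (B k) x) ρ J Z B then
        phi (Function.update a (B k) x) p c M R B k else 0) = (0 : ℝ≥0∞) := by
      intro x
      rw [if_neg fun h => hex ⟨x, h⟩]
    simp only [h0, lintegral_zero]
    exact zero_le
  obtain ⟨z, hz, hpt⟩ := ThinFat_point cc a hd hσ hσ1 hρ hs₀ hB hk hkJ hJ hcc hex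
  obtain ⟨H, hH⟩ : ∃ H : (Fin d → ℝ) → ℝ≥0∞, ∀ x, H x =
      if Fat (Function.update a (B k) x) s₀ J Z B k then
        phi (Function.update a (B k) x) p c M R B k else 0 := ⟨_, fun _ => rfl⟩
  have hupd : Measurable fun x : Fin d → ℝ => Function.update a (B k) x := measurable_update a
  have hHm : Measurable H := by
    have h1 : H = fun x => if Fat (Function.update a (B k) x) s₀ J Z B k then
        phi (Function.update a (B k) x) p c M R B k else 0 := funext hH
    rw [h1]
    have hP : Measurable fun x : Fin d → ℝ => phi (Function.update a (B k) x) p c M R B k := by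
      have h2 : Measurable fun x : Fin d → ℝ => (Function.update a (B k) x, c) :=
        hupd.prodMk measurable_const
      have h3 := (measurable_phi p M R B k).comp h2
      exact h3
    have hS : MeasurableSet {x : Fin d → ℝ | Fat (Function.update a (B k) x) s₀ J Z B k} := by
      have h4 := hupd (measurableSet_fat s₀ J Z B k)
      exact h4
    exact Measurable.ite hS hP measurable_const
  have hn2 : Continuous fun x : Fin d → ℝ => n2 (x - cc (B k)) := by
    unfold n2
    simp only [dotProduct]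
    fun_prop
  have hnear : MeasurableSet {x : Fin d → ℝ | n2 (x - cc (B k)) ≤ 1} :=
    measurableSet_le hn2.measurable measurable_const
  have hle : ∀ x, (if Ok cc (Function.update a (B k) x) ρ J Z B then
      phi (Function.update a (B k) x) p c M R B k else 0) ≤
      H x + {x : Fin d → ℝ | n2 (x - cc (B k)) ≤ 1}.indicator (fun x => H (x + z)) x := by
    intro x
    by_cases hx : Ok cc (Function.update a (B k) x) ρ J Z B
    · rw [if_pos hx]
      obtain ⟨h1, h2⟩ := hpt x hx
      rcases h2 with h2 | h2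
      · rw [hH x, if_pos h2]
        exact le_self_add
      · rw [Set.indicator_of_mem (show x ∈ {x : Fin d → ℝ | n2 (x - cc (B k)) ≤ 1} from h1),
          hH (x + z), if_pos h2]
        refine le_trans (le_of_eq ?_) le_add_self
        have hd1 : (mat (Function.update a (B k) x) B).det ≠ 0 := by
          have h3 := hx.good.1
          rwa [mat_mask _ hB] at h3
        have hd2 : (mat (Function.update a (B k) (x + z)) B).det ≠ 0 := by
          have h3 := h2.good.1
          rwa [mat_mask _ hB] at h3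
        have h4 : Function.update (Function.update a (B k) x) (B k) (x + z) =
            Function.update a (B k) (x + z) := Function.update_idem _ _ _
        have h5 := phi_update (k := k) (x := x + z) hd1 (by rw [h4]; exact hd2) p c M R
        rw [h4] at h5
        exact h5.symm
    · rw [if_neg hx]
      exact zero_le
  refine (lintegral_mono hle).trans ?_
  rw [lintegral_add_left hHm, lintegral_indicator hnear]
  have hshift := helper11.TD.gau_shift (cc (B k)) z (σ := σ) (Rg := 1) hσ zero_le_one hHm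
  have hcost : ENNReal.ofReal (Real.exp ((2 * 1 * n2 z + n2 z ^ 2) / (2 * σ ^ 2))) ≤ 3 := by
    refine helper39.exp_cost ?_
    rw [div_le_one (by positivity)]
    have h1 := helper39.cost_le (Rg := 1) (s := n2 z) hσ1 hσ zero_le_one (n2_nonneg z)
      (by linarith)
    linarith
  have hint : ∫⁻ x, (if Fat (Function.update a (B k) x) s₀ J Z B k then
      phi (Function.update a (B k) x) p c M R B k else 0) ∂(gau (cc (B k)) σ) =
      ∫⁻ x, H x ∂(gau (cc (B k)) σ) := lintegral_congr fun x => (hH x).symm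
  rw [hint]
  calc ∫⁻ x, H x ∂(gau (cc (B k)) σ) +
        ∫⁻ x in {x : Fin d → ℝ | n2 (x - cc (B k)) ≤ 1}, H (x + z) ∂(gau (cc (B k)) σ)
      ≤ ∫⁻ x, H x ∂(gau (cc (B k)) σ) + 3 * ∫⁻ x, H x ∂(gau (cc (B k)) σ) :=
        add_le_add le_rfl (hshift.trans (mul_le_mul_left hcost _))
    _ = 4 * ∫⁻ x, H x ∂(gau (cc (B k)) σ) := by
        rw [← one_add_mul]
        norm_num

end Pool.Agent.H.MP_0cad2f_co.bd
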