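import Pool.Agent.H.MP_0cad2f_co.bd.Marg
import Pool.Agent.H.MP_0cad2f_co.bd.Meas
import Pool.Agent.H.MP_0cad2f_co.bd.ThinFat
import Pool.Agent.H.MP_0cad2f_co.bd.PhiFlux
import Pool.Agent.H.MP_0cad2f_co.bd.SumJ
import Pool.Agent.H.MP_0cad2f_co.helper35.Cube
import Pool.Agent.H.MP_0cad2f_co.helper29.Point

/-!
The first moment of the number of crossed facets whose opposite constraint is new.
-/

set_option autoImplicit false

namespace Pool.Agent.H.MP_0cad2f_co.bd

open MeasureTheory ProbabilityTheory Matrix Finset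
open scoped NNReal ENNReal
open Pool.Agent.H.MP_0cad2f_co.helper47

variable {n d : ℕ}

/-- The pair `(B, k)` has the old part `J` and a new constraint `B k`. -/
def FmC (U Z J : Finset (Fin n)) (B : Idx n d) (k : Fin d) : Prop :=
  rng B ∩ U = J ∧ rng B ⊆ U ∪ Z ∧ B k ∉ U

theorem FmC.sub {U Z J : Finset (Fin n)} {B : Idx n d} {k : Fin d} (h : FmC U Z J B k) :
    rng B ⊆ J ∪ Z := by
  intro i hi
  rcases Finset.mem_union.mp (h.2.1 hi) with h1 | h1
  · rw [Finset.mem_union, ← h.1]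
    exact Or.inl (Finset.mem_inter.mpr ⟨hi, h1⟩)
  · exact Finset.mem_union.mpr (Or.inr h1)

theorem FmC.memZ {U Z J : Finset (Fin n)} {B : Idx n d} {k : Fin d} (h : FmC U Z J B k) :
    B k ∈ Z := by
  rcases Finset.mem_union.mp (h.2.1 (mem_rng_self B k)) with h1 | h1
  · exact absurd h1 h.2.2
  · exact h1

theorem FmC.notMem {U Z J : Finset (Fin n)} {B : Idx n d} {k : Fin d} (h : FmC U Z J B k) :
    B k ∉ J := by
  rw [← h.1, Finset.mem_inter]
  exact fun h1 => h.2.2 h1.2

theorem FmC.subU {U Z J : Finset (Fin n)} {B : Idx n d} {k : Fin d} (h : FmC U Z J B k) :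
    J ⊆ U := by
  rw [← h.1]
  exact Finset.inter_subset_right

theorem FmC.subB {U Z J : Finset (Fin n)} {B : Idx n d} {k : Fin d} (h : FmC U Z J B k) :
    J ⊆ rng B := by
  rw [← h.1]
  exact Finset.inter_subset_left

/-- The small subsets of `U`. -/
def fmJ (U : Finset (Fin n)) (d : ℕ) : Finset (Finset (Fin n)) :=
  U.powerset.filter fun J => J.card ≤ d

open Classical in
/-- Sorting by the old part. -/
theorem stepSum_eq (cc a : Fin n → Fin d → ℝ) (ρ : ℝ) (p c : Fin d → ℝ) (M R : ℝ)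
    (Z U : Finset (Fin n)) :
    (stepSum cc a ρ p c M R Z U fun _ => 1) = ∑ J ∈ fmJ U d, ∑ B : Idx n d, ∑ k : Fin d,
      if FmC U Z J B k then (if Ok cc a ρ J Z B then phi a p c M R B k else 0) else 0 := by
  symm
  unfold stepSum
  rw [Finset.sum_comm]
  refine Finset.sum_congr rfl fun B _ => ?_
  rw [Finset.sum_comm]
  refine Finset.sum_congr rfl fun k _ => ?_
  rw [Finset.sum_eq_single (rng B ∩ U)]
  · by_cases h : rng B ⊆ U ∪ Z ∧ B k ∉ U
    · rw [if_pos (show FmC U Z (rng B ∩ U) B k from ⟨rfl, h.1, h.2⟩)]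
      by_cases h2 : Ok cc a ρ (rng B ∩ U) Z B
      · rw [if_pos h2, if_pos ⟨h.1, h.2, h2⟩, mul_one]
      · rw [if_neg h2, if_neg fun h3 => h2 h3.2.2]
    · rw [if_neg fun h3 : FmC U Z _ B k => h h3.2, if_neg fun h3 => h ⟨h3.1, h3.2.1⟩]
  · intro J _ hJ
    rw [if_neg fun h : FmC U Z J B k => hJ h.1.symm]
  · intro h
    exfalso
    apply h
    unfold fmJ
    rw [Finset.mem_filter, Finset.mem_powerset]
    refine ⟨Finset.inter_subset_right, (Finset.card_le_card Finset.inter_subset_left).trans ?_⟩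
    rw [card_rng]

open Classical in
theorem measurable_okPhi (cc : Fin n → Fin d → ℝ) (ρ : ℝ) (J Z : Finset (Fin n))
    (p c : Fin d → ℝ) (M R : ℝ) (B : Idx n d) (k : Fin d) :
    Measurable fun a : Fin n → Fin d → ℝ =>
      if Ok cc a ρ J Z B then phi a p c M R B k else 0 := by
  have h1 : Measurable fun a : Fin n → Fin d → ℝ => phi a p c M R B k := by
    have h2 : Measurable fun a : Fin n → Fin d → ℝ => (a, c) := by fun_prop
    have h3 := (measurable_phi p M R B k).comp h2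
    exact h3
  exact Measurable.ite (measurableSet_ok cc ρ J Z B) h1 measurable_const

open Classical in
theorem measurable_fatPhi (s₀ : ℝ) (J Z : Finset (Fin n))
    (p c : Fin d → ℝ) (M R : ℝ) (B : Idx n d) (k : Fin d) :
    Measurable fun a : Fin n → Fin d → ℝ =>
      if Fat a s₀ J Z B k then phi a p c M R B k else 0 := by
  have h1 : Measurable fun a : Fin n → Fin d → ℝ => phi a p c M R B k := by
    have h2 : Measurable fun a : Fin n → Fin d → ℝ => (a, c) := by fun_prop
    have h3 := (measurable_phi p M R B k).comp h2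
    exact h3
  exact Measurable.ite (measurableSet_fat s₀ J Z B k) h1 measurable_const

open Classical in
/-- One facet: from feasible bases to fat ones. -/
theorem fm_thin_fat (cc : Fin n → Fin d → ℝ) {σ ρ s₀ : ℝ} (hd : 2 ≤ d) (hσ : 0 < σ)
    (hσ1 : σ ≤ 1) (hρ : 0 ≤ ρ) (hs₀ : s₀ = σ ^ 2 / (4 * (1 + 4 * ρ))) (p c : Fin d → ℝ)
    (M R : ℝ) {Z U J : Finset (Fin n)} (hUZ : Disjoint U Z) (hcc : ∀ i ∈ Z, n2 (cc i) ≤ 3)
    (a : Fin n → Fin d → ℝ) (ha : ∀ i ∈ U, n2 (a i) ≤ 4) {B : Idx n d} {k : Fin d}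
    (h : FmC U Z J B k) :
    (∫⋯∫⁻_Z, (fun b => if Ok cc b ρ J Z B then phi b p c M R B k else 0) ∂(law cc σ)) a ≤
      4 * (∫⋯∫⁻_Z, (fun b => if Fat b s₀ J Z B k then phi b p c M R B k else 0)
        ∂(law cc σ)) a := by
  have hm1 := measurable_okPhi cc ρ J Z p c M R B k
  have hm2 := measurable_fatPhi s₀ J Z p c M R B k
  rw [← lmarginal_const_mul hm2, lmarginal_erase' _ hm1 h.memZ,
    lmarginal_erase' _ (hm2.const_mul 4) h.memZ]
  refine lmarginal_mono_of fun b hb => ?_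
  have h1 := thin_fat cc b hd hσ hσ1 hρ hs₀ h.sub h.memZ h.notMem (fun i hi => ?_) hcc p c M R
  · refine h1.trans (le_of_eq ?_)
    rw [lintegral_const_mul]
    have h2 : Measurable fun x : Fin d → ℝ => Function.update b (B k) x := measurable_update b
    exact hm2.comp h2
  · have hiU := h.subU hi
    have hiZ : i ∉ Z.erase (B k) := fun h2 =>
      (Finset.disjoint_left.mp hUZ hiU) (Finset.mem_of_mem_erase h2)
    rw [hb i hiZ]
    exact ha i hiU

open Classical in
/-- The pointwise bound for fat facets. -/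
theorem fm_fat_le {s₀ D₁ M R : ℝ} (hd : 1 ≤ d) (hs₀ : 0 < s₀) {p c : Fin d → ℝ}
    (hc : n2 c ≤ 4 * d) (hp : n2 p + d * R ≤ D₁) (hM : 1 ≤ M) (hR : R = 3 * d)
    {Z U J : Finset (Fin n)} {b : Fin n → Fin d → ℝ} (hs : SimpleJ b J Z) :
    ∑ B : Idx n d, ∑ k : Fin d,
      (if FmC U Z J B k then (if Fat b s₀ J Z B k then phi b p c M R B k else 0) else 0) ≤
      ENNReal.ofReal (d * (5 / s₀) * 3 * (4 * d + D₁ * Real.log M)) := by
  have hR0 : 0 < R := by
    rw [hR]
    positivity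
  have hD1 : 0 ≤ D₁ := by
    have := n2_nonneg p
    have h2 : 0 ≤ (d : ℝ) * R := by positivity
    linarith
  have hlog : 0 ≤ Real.log M := Real.log_nonneg hM
  have hvol0 := helper29.cubeVol_ne_zero (d := d) hR0
  have hvolt := helper29.cubeVol_ne_top (d := d) R
  set W : Idx n d → ℝ≥0∞ := fun B => ∫⁻ μ in Set.Icc 0 M,
    ENNReal.ofReal (wgt (4 * d) D₁ μ) * coneVol b B (p + μ • c) (R + 1) with hW
  -- one facet
  have h1 : ∀ (B : Idx n d) (k : Fin d),
      (if FmC U Z J B k then (if Fat b s₀ J Z B k then phi b p c M R B k else 0) else 0) ≤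
      if J ⊆ rng B ∧ rng B ⊆ J ∪ Z ∧ Good (mask (J ∪ Z) b) B then
        ENNReal.ofReal (5 / s₀) * W B / cubeVol d R else 0 := by
    intro B k
    by_cases h2 : FmC U Z J B k
    · by_cases h3 : Fat b s₀ J Z B k
      · rw [if_pos h2, if_pos h3, if_pos ⟨h2.subB, h2.sub, h3.good⟩]
        have hdet : (mat b B).det ≠ 0 := by
          have := h3.good.1
          rwa [mat_mask b h2.sub] at this
        refine (phi_le hdet h3.norm_le hR0.le hc hp).trans ?_
        refine ENNReal.div_le_div_right (mul_le_mul_left (ENNReal.ofReal_le_ofReal ?_) _) _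
        have := h3.nu_le
        calc 5 * n2 (nu b B k) ≤ 5 * (1 / s₀) := by linarith
          _ = 5 / s₀ := by ring
      · rw [if_pos h2, if_neg h3]
        exact zero_le
    · rw [if_neg h2]
      exact zero_le
  -- the cones do not overlap
  have h4 : ∑ B : Idx n d, (if J ⊆ rng B ∧ rng B ⊆ J ∪ Z ∧ Good (mask (J ∪ Z) b) B then
      W B else 0) ≤ ENNReal.ofReal (4 * d + D₁ * Real.log M) * (3 * cubeVol d R) := by
    calc ∑ B : Idx n d, (if J ⊆ rng B ∧ rng B ⊆ J ∪ Z ∧ Good (mask (J ∪ Z) b) B then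
        W B else 0)
        = ∑ B : Idx n d, ∫⁻ μ in Set.Icc 0 M, ENNReal.ofReal (wgt (4 * d) D₁ μ) *
          (if J ⊆ rng B ∧ rng B ⊆ J ∪ Z ∧ Good (mask (J ∪ Z) b) B then
            coneVol b B (p + μ • c) (R + 1) else 0) := by
          refine Finset.sum_congr rfl fun B _ => ?_
          by_cases h5 : J ⊆ rng B ∧ rng B ⊆ J ∪ Z ∧ Good (mask (J ∪ Z) b) B
          · simp only [if_pos h5]
            rfl
          · simp only [if_neg h5, mul_zero, lintegral_zero]
      _ ≤ ∫⁻ μ in Set.Icc 0 M, ∑ B : Idx n d, ENNReal.ofReal (wgt (4 * d) D₁ μ) *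
          (if J ⊆ rng B ∧ rng B ⊆ J ∪ Z ∧ Good (mask (J ∪ Z) b) B then
            coneVol b B (p + μ • c) (R + 1) else 0) := sum_lintegral_le _ _
      _ ≤ ∫⁻ μ in Set.Icc 0 M, ENNReal.ofReal (wgt (4 * d) D₁ μ) * (3 * cubeVol d R) := by
          refine lintegral_mono fun μ => ?_
          rw [← Finset.mul_sum]
          refine mul_le_mul_right ((sum_coneVol_J hd hs _ _).trans ?_) _
          rw [hR]
          refine le_trans ?_ (helper35.cubeVol_ratio hd)
          unfold cubeVol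
          refine measure_mono fun X hX => ?_
          have hX' : ‖X‖ ≤ 3 * (d : ℝ) + 1 := hX
          change ‖X‖ ≤ 3 * (d : ℝ) + 3
          linarith
      _ = (∫⁻ μ in Set.Icc 0 M, ENNReal.ofReal (wgt (4 * d) D₁ μ)) * (3 * cubeVol d R) := by
          rw [lintegral_mul_const']
          exact ENNReal.mul_ne_top (by norm_num) hvolt
      _ ≤ _ := mul_le_mul_left (wgt_int (by positivity) hD1 hM) _
  calc ∑ B : Idx n d, ∑ k : Fin d,
      (if FmC U Z J B k then (if Fat b s₀ J Z B k then phi b p c M R B k else 0) else 0)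
      ≤ ∑ B : Idx n d, ∑ _k : Fin d,
        (if J ⊆ rng B ∧ rng B ⊆ J ∪ Z ∧ Good (mask (J ∪ Z) b) B then
          ENNReal.ofReal (5 / s₀) * W B / cubeVol d R else 0) :=
        Finset.sum_le_sum fun B _ => Finset.sum_le_sum fun k _ => h1 B k
    _ = ∑ B : Idx n d, (d : ℝ≥0∞) * (ENNReal.ofReal (5 / s₀) *
        (if J ⊆ rng B ∧ rng B ⊆ J ∪ Z ∧ Good (mask (J ∪ Z) b) B then W B else 0) /
          cubeVol d R) := by
        refine Finset.sum_congr rfl fun B _ => ?_
        rw [Finset.sum_const, Finset.card_univ, Fintype.card_fin, nsmul_eq_mul]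
        by_cases h5 : J ⊆ rng B ∧ rng B ⊆ J ∪ Z ∧ Good (mask (J ∪ Z) b) B
        · rw [if_pos h5, if_pos h5]
        · rw [if_neg h5, if_neg h5, mul_zero, mul_zero, ENNReal.zero_div, mul_zero]
    _ = (d : ℝ≥0∞) * (ENNReal.ofReal (5 / s₀) * (∑ B : Idx n d,
        (if J ⊆ rng B ∧ rng B ⊆ J ∪ Z ∧ Good (mask (J ∪ Z) b) B then W B else 0)) /
          cubeVol d R) := by
        rw [← Finset.mul_sum]
        congr 1
        simp only [div_eq_mul_inv]
        rw [← Finset.sum_mul, Finset.mul_sum]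
    _ ≤ (d : ℝ≥0∞) * (ENNReal.ofReal (5 / s₀) *
        (ENNReal.ofReal (4 * d + D₁ * Real.log M) * (3 * cubeVol d R)) / cubeVol d R) := by
        refine mul_le_mul_right (ENNReal.div_le_div_right (mul_le_mul_right h4 _) _) _
    _ = ENNReal.ofReal (d * (5 / s₀) * 3 * (4 * d + D₁ * Real.log M)) := by
        rw [show ENNReal.ofReal (5 / s₀) *
          (ENNReal.ofReal (4 * d + D₁ * Real.log M) * (3 * cubeVol d R)) / cubeVol d R =
          ENNReal.ofReal (5 / s₀) * ENNReal.ofReal (4 * d + D₁ * Real.log M) * 3 from ?_]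
        · rw [show (3 : ℝ≥0∞) = ENNReal.ofReal 3 by simp, ← ENNReal.ofReal_natCast d,
            ← ENNReal.ofReal_mul (by positivity), ← ENNReal.ofReal_mul (by positivity),
            ← ENNReal.ofReal_mul (by positivity)]
          congr 1
          ring
        · rw [div_eq_mul_inv]
          calc ENNReal.ofReal (5 / s₀) * (ENNReal.ofReal (4 * d + D₁ * Real.log M) *
              (3 * cubeVol d R)) * (cubeVol d R)⁻¹
              = ENNReal.ofReal (5 / s₀) * ENNReal.ofReal (4 * d + D₁ * Real.log M) * 3 *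
                (cubeVol d R * (cubeVol d R)⁻¹) := by ring
            _ = _ := by rw [ENNReal.mul_inv_cancel hvol0 hvolt, mul_one]

open Classical in
/-- One old part. -/
theorem fm_one (cc : Fin n → Fin d → ℝ) {σ ρ s₀ D₁ M R : ℝ} (hd : 2 ≤ d) (hσ : 0 < σ)
    (hσ1 : σ ≤ 1) (hρ : 0 ≤ ρ) (hs₀ : s₀ = σ ^ 2 / (4 * (1 + 4 * ρ))) {p c : Fin d → ℝ}
    (hc : n2 c ≤ 4 * d) (hp : n2 p + d * R ≤ D₁) (hM : 1 ≤ M) (hR : R = 3 * d)
    {Z U J : Finset (Fin n)} (hJ : J ⊆ U) (hUZ : Disjoint U Z) (hcc : ∀ i ∈ Z, n2 (cc i) ≤ 3)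
    (a : Fin n → Fin d → ℝ) (ha : ∀ i ∈ U, n2 (a i) ≤ 4) :
    ∑ B : Idx n d, ∑ k : Fin d,
      (if FmC U Z J B k then (∫⋯∫⁻_Z, (fun b => if Ok cc b ρ J Z B then phi b p c M R B k
        else 0) ∂(law cc σ)) a else 0) ≤
      4 * ENNReal.ofReal (d * (5 / s₀) * 3 * (4 * d + D₁ * Real.log M)) := by
  have hs₀' : 0 < s₀ := by
    rw [hs₀]
    positivity
  have hd1 : 1 ≤ d := by omega
  calc ∑ B : Idx n d, ∑ k : Fin d,
      (if FmC U Z J B k then (∫⋯∫⁻_Z, (fun b => if Ok cc b ρ J Z B then phi b p c M R B k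
        else 0) ∂(law cc σ)) a else 0)
      ≤ ∑ B : Idx n d, ∑ k : Fin d, 4 * (∫⋯∫⁻_Z, (fun b => if FmC U Z J B k then
        (if Fat b s₀ J Z B k then phi b p c M R B k else 0) else 0) ∂(law cc σ)) a := by
        refine Finset.sum_le_sum fun B _ => Finset.sum_le_sum fun k _ => ?_
        by_cases h : FmC U Z J B k
        · simp only [if_pos h]
          exact fm_thin_fat cc hd hσ hσ1 hρ hs₀ p c M R hUZ hcc a ha h
        · simp only [if_neg h]
          exact zero_le
    _ = 4 * (∫⋯∫⁻_Z, (fun b => ∑ B : Idx n d, ∑ k : Fin d, if FmC U Z J B k then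
        (if Fat b s₀ J Z B k then phi b p c M R B k else 0) else 0) ∂(law cc σ)) a := by
        have hmk : ∀ (B : Idx n d) (k : Fin d), Measurable fun b : Fin n → Fin d → ℝ =>
            if FmC U Z J B k then (if Fat b s₀ J Z B k then phi b p c M R B k else 0) else 0 := by
          intro B k
          by_cases h : FmC U Z J B k
          · simp only [if_pos h]
            exact measurable_fatPhi s₀ J Z p c M R B k
          · simp only [if_neg h]
            exact measurable_const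
        rw [lmarginal_sum Finset.univ (fun B _ => Finset.measurable_sum _ fun k _ => hmk B k),
          Finset.mul_sum]
        refine Finset.sum_congr rfl fun B _ => ?_
        rw [lmarginal_sum Finset.univ (fun k _ => hmk B k), Finset.mul_sum]
    _ ≤ 4 * (∫⋯∫⁻_Z, (fun b =>
        ENNReal.ofReal (d * (5 / s₀) * 3 * (4 * d + D₁ * Real.log M)) +
          ⊤ * ({a | ¬ SimpleJ a J Z}.indicator 1 : (Fin n → Fin d → ℝ) → ℝ≥0∞) b)
            ∂(law cc σ)) a := by
        refine mul_le_mul_right (lmarginal_mono_of fun b _ => ?_) _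
        by_cases hs : SimpleJ b J Z
        · exact (fm_fat_le hd1 hs₀' hc hp hM hR hs).trans le_self_add
        · rw [Set.indicator_of_mem (show b ∈ {a | ¬ SimpleJ a J Z} from hs), Pi.one_apply,
            mul_one, add_top]
          exact le_top
    _ = _ := by
        have hms : Measurable ({a | ¬ SimpleJ a J Z}.indicator 1 :
            (Fin n → Fin d → ℝ) → ℝ≥0∞) :=
          measurable_one.indicator (measurableSet_simpleJ J Z).compl
        rw [lmarginal_add measurable_const, lmarginal_const, lmarginal_const_mul hms,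
          null_simpleJ cc hσ hd1 (Finset.disjoint_of_subset_left hJ hUZ) a, mul_zero, add_zero]

theorem first_moment (cc : Fin n → Fin d → ℝ) {σ ρ s₀ D₁ M R : ℝ} (hd : 2 ≤ d) (hσ : 0 < σ)
    (hσ1 : σ ≤ 1) (hρ : 0 ≤ ρ) (hs₀ : s₀ = σ ^ 2 / (4 * (1 + 4 * ρ))) {p c : Fin d → ℝ}
    (hc : n2 c ≤ 4 * d) (hp : n2 p + d * R ≤ D₁) (hM : 1 ≤ M) (hR : R = 3 * d)
    {Z U : Finset (Fin n)} (hUZ : Disjoint U Z) (hcc : ∀ i ∈ Z, n2 (cc i) ≤ 3) {u : ℕ}
    (hu : U.card ≤ u) (a : Fin n → Fin d → ℝ) (ha : ∀ i ∈ U, n2 (a i) ≤ 4) :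
    (∫⋯∫⁻_Z, (fun a => stepSum cc a ρ p c M R Z U fun _ => 1) ∂(law cc σ)) a ≤
      ENNReal.ofReal (Lam d u s₀ D₁ M) := by
  classical
  have hs₀' : 0 < s₀ := by
    rw [hs₀]
    positivity
  have hD1 : 0 ≤ D₁ := by
    have := n2_nonneg p
    have h2 : 0 ≤ (d : ℝ) * R := by
      rw [hR]
      positivity
    linarith
  have hlog : 0 ≤ Real.log M := Real.log_nonneg hM
  have h1 : (∫⋯∫⁻_Z, (fun a => stepSum cc a ρ p c M R Z U fun _ => 1) ∂(law cc σ)) a =
      ∑ J ∈ fmJ U d, ∑ B : Idx n d, ∑ k : Fin d,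
        (if FmC U Z J B k then (∫⋯∫⁻_Z, (fun b => if Ok cc b ρ J Z B then phi b p c M R B k
          else 0) ∂(law cc σ)) a else 0) := by
    have hmk : ∀ (J : Finset (Fin n)) (B : Idx n d) (k : Fin d),
        Measurable fun b : Fin n → Fin d → ℝ =>
          if FmC U Z J B k then (if Ok cc b ρ J Z B then phi b p c M R B k else 0) else 0 := by
      intro J B k
      by_cases h : FmC U Z J B k
      · simp only [if_pos h]
        exact measurable_okPhi cc ρ J Z p c M R B k
      · simp only [if_neg h]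
        exact measurable_const
    simp only [stepSum_eq]
    rw [lmarginal_sum _ (fun J _ => Finset.measurable_sum _ fun B _ =>
      Finset.measurable_sum _ fun k _ => hmk J B k)]
    refine Finset.sum_congr rfl fun J _ => ?_
    rw [lmarginal_sum _ (fun B _ => Finset.measurable_sum _ fun k _ => hmk J B k)]
    refine Finset.sum_congr rfl fun B _ => ?_
    rw [lmarginal_sum _ (fun k _ => hmk J B k)]
    refine Finset.sum_congr rfl fun k _ => ?_
    by_cases h : FmC U Z J B k
    · simp only [if_pos h]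
    · simp only [if_neg h]
      exact lmarginal_const Z 0 a
  rw [h1]
  have h2 : ∀ J ∈ fmJ U d, ∑ B : Idx n d, ∑ k : Fin d,
        (if FmC U Z J B k then (∫⋯∫⁻_Z, (fun b => if Ok cc b ρ J Z B then phi b p c M R B k
          else 0) ∂(law cc σ)) a else 0) ≤
      4 * ENNReal.ofReal (d * (5 / s₀) * 3 * (4 * d + D₁ * Real.log M)) := by
    intro J hJ
    unfold fmJ at hJ
    rw [Finset.mem_filter, Finset.mem_powerset] at hJ
    exact fm_one cc hd hσ hσ1 hρ hs₀ hc hp hM hR hJ.1 hUZ hcc a ha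
  refine (Finset.sum_le_sum h2).trans ?_
  rw [Finset.sum_const, nsmul_eq_mul]
  have h3 : (((fmJ U d).card : ℕ) : ℝ≥0∞) ≤ ENNReal.ofReal (((u : ℝ) + 1) ^ d) := by
    have h4 : (fmJ U d).card ≤ (u + 1) ^ d :=
      (card_small_le U d).trans (Nat.pow_le_pow_left (by omega) d)
    calc (((fmJ U d).card : ℕ) : ℝ≥0∞) ≤ (((u + 1) ^ d : ℕ) : ℝ≥0∞) := by exact_mod_cast h4
      _ = ENNReal.ofReal (((u : ℝ) + 1) ^ d) := by
          rw [← ENNReal.ofReal_natCast]
          congr 1
          push_cast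
          ring
  calc (((fmJ U d).card : ℕ) : ℝ≥0∞) *
      (4 * ENNReal.ofReal (d * (5 / s₀) * 3 * (4 * d + D₁ * Real.log M)))
      ≤ ENNReal.ofReal (((u : ℝ) + 1) ^ d) *
        (4 * ENNReal.ofReal (d * (5 / s₀) * 3 * (4 * d + D₁ * Real.log M))) :=
        mul_le_mul_left h3 _
    _ = ENNReal.ofReal (Lam d u s₀ D₁ M) := by
        rw [show (4 : ℝ≥0∞) = ENNReal.ofReal 4 by simp, ← ENNReal.ofReal_mul (by norm_num),
          ← ENNReal.ofReal_mul (by positivity)]
        congr 1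
        unfold Lam
        ring

end Pool.Agent.H.MP_0cad2f_co.bd
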