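import Pool.Agent.H.MP_0cad2f_co.bd.CoreDef

/-!
Marginal integrals.
-/

set_option autoImplicit false

namespace Pool.Agent.H.MP_0cad2f_co.bd

open MeasureTheory ProbabilityTheory Matrix Finset
open scoped NNReal ENNReal
open Pool.Agent.H.MP_0cad2f_co.helper47

variable {n d : ℕ}

section marg

variable {μ : (i : Fin n) → Measure (Fin d → ℝ)}

theorem updateFinset_off (a : Fin n → Fin d → ℝ) (Z : Finset (Fin n))
    (y : (i : Z) → Fin d → ℝ) {i : Fin n} (hi : i ∉ Z) : Function.updateFinset a Z y i = a i := by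
  unfold Function.updateFinset
  rw [dif_neg hi]

/-- Only the points which agree with `a` off `Z` matter. -/
theorem lmarginal_mono_of {Z : Finset (Fin n)} {f g : (Fin n → Fin d → ℝ) → ℝ≥0∞}
    {a : Fin n → Fin d → ℝ} (h : ∀ b, (∀ i, i ∉ Z → b i = a i) → f b ≤ g b) :
    (∫⋯∫⁻_Z, f ∂μ) a ≤ (∫⋯∫⁻_Z, g ∂μ) a := by
  unfold lmarginal
  exact lintegral_mono fun y => h _ fun i hi => updateFinset_off a Z y hi

theorem lmarginal_congr_of {Z : Finset (Fin n)} {f g : (Fin n → Fin d → ℝ) → ℝ≥0∞}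
    {a : Fin n → Fin d → ℝ} (h : ∀ b, (∀ i, i ∉ Z → b i = a i) → f b = g b) :
    (∫⋯∫⁻_Z, f ∂μ) a = (∫⋯∫⁻_Z, g ∂μ) a :=
  le_antisymm (lmarginal_mono_of fun b hb => (h b hb).le)
    (lmarginal_mono_of fun b hb => (h b hb).ge)

theorem lmarginal_sum {ι : Type*} (s : Finset ι) {Z : Finset (Fin n)}
    {f : ι → (Fin n → Fin d → ℝ) → ℝ≥0∞} (hf : ∀ i ∈ s, Measurable (f i))
    (a : Fin n → Fin d → ℝ) :
    (∫⋯∫⁻_Z, (fun b => ∑ i ∈ s, f i b) ∂μ) a = ∑ i ∈ s, (∫⋯∫⁻_Z, f i ∂μ) a := by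
  unfold lmarginal
  exact lintegral_finsetSum' _ fun i hi => ((hf i hi).comp measurable_updateFinset).aemeasurable

theorem lmarginal_const_mul {Z : Finset (Fin n)} {f : (Fin n → Fin d → ℝ) → ℝ≥0∞}
    (hf : Measurable f) (K : ℝ≥0∞) (a : Fin n → Fin d → ℝ) :
    (∫⋯∫⁻_Z, (fun b => K * f b) ∂μ) a = K * (∫⋯∫⁻_Z, f ∂μ) a := by
  unfold lmarginal
  exact lintegral_const_mul _ (hf.comp measurable_updateFinset)

theorem lmarginal_add {Z : Finset (Fin n)} {f g : (Fin n → Fin d → ℝ) → ℝ≥0∞}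
    (hf : Measurable f) (a : Fin n → Fin d → ℝ) :
    (∫⋯∫⁻_Z, (fun b => f b + g b) ∂μ) a = (∫⋯∫⁻_Z, f ∂μ) a + (∫⋯∫⁻_Z, g ∂μ) a := by
  unfold lmarginal
  exact lintegral_add_left (hf.comp measurable_updateFinset) _

theorem lmarginal_const [∀ i, IsProbabilityMeasure (μ i)] (Z : Finset (Fin n)) (K : ℝ≥0∞)
    (a : Fin n → Fin d → ℝ) : (∫⋯∫⁻_Z, (fun _ => K) ∂μ) a = K := by
  unfold lmarginal
  rw [lintegral_const, measure_univ, mul_one]

/-- A function which does not depend on the coordinates in `Z`. -/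
theorem lmarginal_of_indep [∀ i, IsProbabilityMeasure (μ i)] {Z : Finset (Fin n)}
    {f : (Fin n → Fin d → ℝ) → ℝ≥0∞} {a : Fin n → Fin d → ℝ}
    (h : ∀ b, (∀ i, i ∉ Z → b i = a i) → f b = f a) : (∫⋯∫⁻_Z, f ∂μ) a = f a := by
  rw [lmarginal_congr_of (g := fun _ => f a) h]
  exact lmarginal_const Z (f a) a

/-- The sum of integrals is at most the integral of the sum. -/
theorem sum_lintegral_le {α ι : Type*} [MeasurableSpace α] {ν : Measure α} (s : Finset ι)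
    (f : ι → α → ℝ≥0∞) : ∑ i ∈ s, ∫⁻ x, f i x ∂ν ≤ ∫⁻ x, ∑ i ∈ s, f i x ∂ν := by
  classical
  induction s using Finset.induction_on with
  | empty => simp
  | insert i s hi ih =>
    rw [Finset.sum_insert hi]
    refine (add_le_add le_rfl ih).trans ((le_lintegral_add _ _).trans ?_)
    refine lintegral_mono fun x => ?_
    rw [Finset.sum_insert hi]

end marg

end Pool.Agent.H.MP_0cad2f_co.bd
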