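import Pool.Agent.H.MP_0cad2f_co.bd.Defs
import Pool.Agent.H.MP_0cad2f_co.helper52.NuBound

/-!
Resampling one constraint of a basis: long dual vectors are rare among feasible bases.
-/

set_option autoImplicit false

namespace Pool.Agent.H.MP_0cad2f_co.bd

open MeasureTheory ProbabilityTheory Matrix Finset
open scoped NNReal ENNReal
open Pool.Agent.H.MP_0cad2f_co.helper47

variable {n d : ℕ}

/-- Resampling one constraint of a basis: long dual vectors are rare among feasible bases. -/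
theorem nu_bound_fix (a : Fin n → Fin d → ℝ) (c₀ : Fin d → ℝ) {σ ρ A T : ℝ} (hσ : 0 < σ)
    (hσ1 : σ ≤ 1) (hd : 2 ≤ d) (hρ : 0 ≤ ρ) (hA : n2 c₀ + 1 ≤ A) (I : Idx n d) (k : Fin d)
    (ha : ∀ i, i ≠ I k → n2 (a i) ≤ A) (hT : 8 * (1 + A * ρ) ≤ σ ^ 2 * T) :
    gau c₀ σ {x | n2 (x - c₀) ≤ 1 ∧ Good (Function.update a (I k) x) I ∧
        n2 (vtx (Function.update a (I k) x) I) ≤ ρ ∧
        T < n2 (nu (Function.update a (I k) x) I k)} ≤
      ENNReal.ofReal (24 * (1 + A * ρ) / (σ ^ 2 * T)) *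
        gau c₀ σ {x | Good (Function.update a (I k) x) I} := by
  have hA0 : 0 ≤ A := by linarith [n2_nonneg c₀]
  have hAρ : 0 ≤ A * ρ := mul_nonneg hA0 hρ
  have hK : 0 < 1 + A * ρ := by positivity
  have hσ2 : 0 < σ ^ 2 := by positivity
  have hT0 : 0 < T := by
    by_contra h
    have : σ ^ 2 * T ≤ 0 := mul_nonpos_of_nonneg_of_nonpos hσ2.le (not_lt.mp h)
    nlinarith
  obtain ⟨u, v, hu, hv, huv, hw⟩ := helper40.wedge a I k hd hρ hA0 ha 0
  have hη : 24 * (1 + A * ρ) / (σ ^ 2 * T) =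
      6 * (1 / T) / (σ ^ 2 / (4 * (1 + A * ρ))) := by
    field_simp
    ring
  rw [hη]
  refine helper39.gau_average c₀ v (Rg := 1) (t₁ := 2 / T) (φ := fun x => u ⬝ᵥ x) hσ hσ1
    zero_le_one (by positivity) (by positivity) ?_
    (helper52.measurable_update_fix a (I k) (helper11.TD.measurableSet_good I)) ?_ ?_
  · have h1 : 2 / T * ((1 + A * ρ) * 2) ≤ σ ^ 2 / 2 := by
      rw [div_mul_eq_mul_div, div_le_div_iff₀ hT0 two_pos]
      linarith
    have h2 : σ ^ 2 / (4 * (1 + A * ρ)) * ((1 + A * ρ) * 2) = σ ^ 2 / 2 := by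
      field_simp
      ring
    have h3 : (2 / T + σ ^ 2 / (4 * (1 + A * ρ))) * n2 v * (1 + 1) ≤
        (2 / T + σ ^ 2 / (4 * (1 + A * ρ))) * (1 + A * ρ) * (1 + 1) := by
      gcongr
    refine h3.trans ?_
    have h4 : (2 / T + σ ^ 2 / (4 * (1 + A * ρ))) * (1 + A * ρ) * (1 + 1) =
        2 / T * ((1 + A * ρ) * 2) + σ ^ 2 / (4 * (1 + A * ρ)) * ((1 + A * ρ) * 2) := by ring
    rw [h4, h2]
    linarith
  · simp only [dotProduct]
    exact Finset.measurable_fun_sum _ fun j _ => (measurable_pi_apply j).const_mul _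
  · rintro x ⟨hx1, hx2, hx3, hx4⟩
    obtain ⟨h1, h2, h3⟩ := hw x hx2 hx3 (by rw [zero_dotProduct]; exact zero_le_one)
    have h4 : |u ⬝ᵥ x| ≤ 1 / T := by
      rw [h2, n2_smul, hu, mul_one, abs_inv] at hx4
      rw [le_div_iff₀ hT0]
      have h5 : 0 < |u ⬝ᵥ x| := abs_pos.mpr h1
      have h6 := mul_lt_mul_of_pos_left hx4 h5
      rw [mul_inv_cancel₀ h5.ne'] at h6
      exact h6.le
    refine ⟨hx1, fun t ht => ⟨?_, ?_⟩⟩
    · have ht0 : 0 ≤ t := le_trans (by positivity) ht.1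
      refine (h3 t ht0 ?_).1
      have h5 : 2 * |u ⬝ᵥ x| ≤ 2 / T := by
        have : 2 / T = 2 * (1 / T) := by ring
        rw [this]
        linarith
      exact h5.trans ht.1
    · have h5 : u ⬝ᵥ (x + t • v) - t = u ⬝ᵥ x := by
        rw [dotProduct_add, dotProduct_smul, huv, smul_eq_mul]
        ring
      change |u ⬝ᵥ (x + t • v) - t| ≤ 1 / T
      rw [h5]
      exact h4

end Pool.Agent.H.MP_0cad2f_co.bd
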