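import Pool.Agent.H.MP_0cad2f_co.bd.CoreDef

/-!
The diameter in bounded dimension: parameters.
-/

set_option autoImplicit false

namespace Pool.Agent.H.MP_0cad2f_co.bd

open MeasureTheory ProbabilityTheory Matrix Finset
open scoped NNReal ENNReal
open Pool.Agent.H.MP_0cad2f_co.helper47

variable {n d : ℕ}

/-- The binary logarithm. -/
private theorem params_log2 {n : ℕ} (hn : 2 ≤ n) : (Nat.log 2 n : ℝ) ≤ 2 * Real.log n := by
  have h1 : 2 ^ Nat.log 2 n ≤ n := Nat.pow_log_le_self 2 (by omega)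
  have h2 : ((2 : ℝ) ^ Nat.log 2 n) ≤ n := by exact_mod_cast h1
  have h3 := Real.log_le_log (by positivity) h2
  rw [Real.log_pow] at h3
  have h4 := Real.log_two_gt_d9
  have h5 : (0 : ℝ) ≤ Nat.log 2 n := Nat.cast_nonneg _
  nlinarith

private theorem params_x {n d : ℕ} {σ : ℝ} (hn : 2 ≤ n) (hd : 2 ≤ d) (hσ : 0 < σ)
    (hσ1 : σ ≤ 1 / (6 * Real.sqrt (d * Real.log n))) :
    1 ≤ 1 / σ ∧ d * Real.log n ≤ (1 / σ) ^ 2 / 36 := by
  have hn1 : (2 : ℝ) ≤ n := by exact_mod_cast hn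
  have hd1 : (2 : ℝ) ≤ d := by exact_mod_cast hd
  have hl2 := Real.log_two_gt_d9
  have hlog : Real.log 2 ≤ Real.log n := Real.log_le_log (by norm_num) hn1
  have h0 : (1 : ℝ) ≤ d * Real.log n := by nlinarith
  have hs : 1 ≤ Real.sqrt (d * Real.log n) := by
    rw [Real.one_le_sqrt]
    exact h0
  have h1 : 6 * Real.sqrt (d * Real.log n) ≤ 1 / σ := by
    rw [le_div_iff₀ (by positivity)] at hσ1
    rw [le_div_iff₀ hσ]
    linarith
  refine ⟨by linarith, ?_⟩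
  have h2 : (6 * Real.sqrt (d * Real.log n)) ^ 2 ≤ (1 / σ) ^ 2 :=
    pow_le_pow_left₀ (by positivity) h1 2
  rw [mul_pow, Real.sq_sqrt (by linarith)] at h2
  linarith

private theorem params_rho {d : ℕ} {σ : ℝ} (hd : 2 ≤ d) (hσ : 0 < σ) (hx : 1 ≤ 1 / σ) :
    0 ≤ rhoB d σ ∧ 1 + 4 * rhoB d σ ≤ 17 * (d : ℝ) ^ 3 * (1 / σ) := by
  have hd1 : (2 : ℝ) ≤ d := by exact_mod_cast hd
  have h0 : 0 ≤ rhoB d σ := by
    unfold rhoB
    positivity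
  refine ⟨h0, ?_⟩
  unfold rhoB
  set x := 1 / σ with hxd
  have h1 : 2 * (d : ℝ) ^ 2 * (d + 1) / σ = 2 * (d : ℝ) ^ 2 * (d + 1) * x := by
    rw [hxd]
    ring
  rw [h1]
  have h2 : 2 * (d : ℝ) ^ 2 * (d + 1) ≤ 2 * (d : ℝ) ^ 2 * (2 * d) := by
    have : (d : ℝ) + 1 ≤ 2 * d := by linarith
    gcongr
  have h3 : 2 * (d : ℝ) ^ 2 * (d + 1) * x ≤ 2 * (d : ℝ) ^ 2 * (2 * d) * x := by gcongr
  have h4 : (1 : ℝ) ≤ (d : ℝ) ^ 3 := one_le_pow₀ (by linarith)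
  have h5 : (1 : ℝ) ≤ (d : ℝ) ^ 3 * x := one_le_mul_of_one_le_of_one_le h4 hx
  nlinarith

private theorem params_s0 {d : ℕ} {σ : ℝ} (hd : 2 ≤ d) (hσ : 0 < σ) (hx : 1 ≤ 1 / σ) :
    60 * (d : ℝ) / s0B d σ ≤ 4080 * (d : ℝ) ^ 4 * (1 / σ) ^ 3 := by
  obtain ⟨h0, h1⟩ := params_rho hd hσ hx
  have hd1 : (2 : ℝ) ≤ d := by exact_mod_cast hd
  unfold s0B
  have h2 : 60 * (d : ℝ) / (σ ^ 2 / (4 * (1 + 4 * rhoB d σ))) =
      240 * d * (1 / σ) ^ 2 * (1 + 4 * rhoB d σ) := by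
    field_simp
    ring
  rw [h2]
  calc 240 * (d : ℝ) * (1 / σ) ^ 2 * (1 + 4 * rhoB d σ)
      ≤ 240 * (d : ℝ) * (1 / σ) ^ 2 * (17 * (d : ℝ) ^ 3 * (1 / σ)) := by gcongr
    _ = 4080 * (d : ℝ) ^ 4 * (1 / σ) ^ 3 := by ring

private theorem params_v {d : ℕ} {σ : ℝ} (hd : 2 ≤ d) (hσ : 0 < σ) (hx : 1 ≤ 1 / σ) :
    24 * (d : ℝ) ^ 2 * (48 * d * (1 + 4 * rhoB d σ) / σ ^ 2) ≤
      20000 * (d : ℝ) ^ 6 * (1 / σ) ^ 3 := by
  obtain ⟨h0, h1⟩ := params_rho hd hσ hx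
  have hd1 : (2 : ℝ) ≤ d := by exact_mod_cast hd
  have h2 : 24 * (d : ℝ) ^ 2 * (48 * d * (1 + 4 * rhoB d σ) / σ ^ 2) =
      1152 * (d : ℝ) ^ 3 * (1 / σ) ^ 2 * (1 + 4 * rhoB d σ) := by
    field_simp
    ring
  rw [h2]
  calc 1152 * (d : ℝ) ^ 3 * (1 / σ) ^ 2 * (1 + 4 * rhoB d σ)
      ≤ 1152 * (d : ℝ) ^ 3 * (1 / σ) ^ 2 * (17 * (d : ℝ) ^ 3 * (1 / σ)) := by gcongr
    _ = 19584 * (d : ℝ) ^ 6 * (1 / σ) ^ 3 := by ring
    _ ≤ 20000 * (d : ℝ) ^ 6 * (1 / σ) ^ 3 := by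
        have : 0 ≤ (d : ℝ) ^ 6 * (1 / σ) ^ 3 := by positivity
        nlinarith

private theorem params_logM {n d : ℕ} {σ : ℝ} (hn : 2 ≤ n) (hd : 2 ≤ d) (hσ : 0 < σ)
    (hx : 1 ≤ 1 / σ) (h : d * Real.log n ≤ (1 / σ) ^ 2 / 36) :
    0 ≤ Real.log (MM n d σ) ∧ Real.log (MM n d σ) ≤ 7 * d * (1 / σ) ^ 2 := by
  have hn1 : (2 : ℝ) ≤ n := by exact_mod_cast hn
  have hd1 : (2 : ℝ) ≤ d := by exact_mod_cast hd
  have hln : 0 ≤ Real.log n := Real.log_nonneg (by linarith)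
  set x := 1 / σ with hxd
  have h1 : MM n d σ = (n : ℝ) ^ (2 * d + 1) * d * x * (3 * d ^ 2) := by
    unfold MM
    rw [hxd]
    ring
  rw [h1]
  have hx0 : 0 < x := by linarith
  constructor
  · apply Real.log_nonneg
    have e1 : (1 : ℝ) ≤ (n : ℝ) ^ (2 * d + 1) := one_le_pow₀ (by linarith)
    have e2 : (1 : ℝ) ≤ 3 * (d : ℝ) ^ 2 := by nlinarith
    have e3 : (1 : ℝ) ≤ (n : ℝ) ^ (2 * d + 1) * d :=
      one_le_mul_of_one_le_of_one_le e1 (by linarith)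
    have e4 : (1 : ℝ) ≤ (n : ℝ) ^ (2 * d + 1) * d * x :=
      one_le_mul_of_one_le_of_one_le e3 hx
    exact one_le_mul_of_one_le_of_one_le e4 e2
  · have hn0 : (n : ℝ) ^ (2 * d + 1) ≠ 0 := by positivity
    have hd0 : (d : ℝ) ≠ 0 := by positivity
    have h2 : Real.log ((n : ℝ) ^ (2 * d + 1) * d * x * (3 * d ^ 2)) =
        (2 * d + 1) * Real.log n + Real.log d + Real.log x +
          (Real.log 3 + 2 * Real.log d) := by
      rw [Real.log_mul (by positivity) (by positivity),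
        Real.log_mul (by positivity) (by positivity),
        Real.log_mul (by positivity) (by positivity),
        Real.log_mul (by norm_num) (by positivity), Real.log_pow, Real.log_pow]
      push_cast
      ring
    rw [h2]
    have h3 : Real.log d ≤ d := (Real.log_le_sub_one_of_pos (by linarith)).trans (by linarith)
    have h4 : Real.log x ≤ x := (Real.log_le_sub_one_of_pos hx0).trans (by linarith)
    have h5 : Real.log 3 ≤ 2 := (Real.log_le_sub_one_of_pos (by norm_num)).trans (by norm_num)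
    have h6 : (1 : ℝ) * Real.log n ≤ d * Real.log n := by gcongr; linarith
    have h7 : x ≤ x ^ 2 := by nlinarith
    have h8 : (1 : ℝ) ≤ x ^ 2 := one_le_pow₀ hx
    have h9 : (d : ℝ) * 1 ≤ d * x ^ 2 := by gcongr
    have h10 : (2 : ℝ) * x ^ 2 ≤ d * x ^ 2 := by gcongr
    nlinarith

private theorem params_Lam {n d : ℕ} {σ : ℝ} (hn : 2 ≤ n) (hd : 2 ≤ d) (hσ : 0 < σ)
    (hx : 1 ≤ 1 / σ) (h : d * Real.log n ≤ (1 / σ) ^ 2 / 36) :
    0 ≤ Lam d (2 * d + 1 + d * d) (s0B d σ) (3 * d ^ 2) (MM n d σ) ∧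
    Lam d (2 * d + 1 + d * d) (s0B d σ) (3 * d ^ 2) (MM n d σ) ≤
      (5 * (d : ℝ)) ^ (2 * d) * (102000 * (d : ℝ) ^ 7 * (1 / σ) ^ 5) := by
  have hd1 : (2 : ℝ) ≤ d := by exact_mod_cast hd
  obtain ⟨hM0, hM⟩ := params_logM hn hd hσ hx h
  have hs := params_s0 hd hσ hx
  obtain ⟨h0, -⟩ := params_rho hd hσ hx
  have hs0 : 0 ≤ s0B d σ := by
    unfold s0B
    positivity
  unfold Lam
  set x := 1 / σ with hxd
  have hx0 : 0 < x := by linarith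
  have h1 : ((2 * d + 1 + d * d : ℕ) : ℝ) + 1 ≤ (5 * (d : ℝ)) ^ 2 := by
    push_cast
    nlinarith
  have h2 : (((2 * d + 1 + d * d : ℕ) : ℝ) + 1) ^ d ≤ (5 * (d : ℝ)) ^ (2 * d) := by
    rw [pow_mul]
    exact pow_le_pow_left₀ (by positivity) h1 d
  have h3 : 4 * (d : ℝ) + 3 * d ^ 2 * Real.log (MM n d σ) ≤ 25 * (d : ℝ) ^ 3 * x ^ 2 := by
    have e1 : 3 * (d : ℝ) ^ 2 * Real.log (MM n d σ) ≤ 3 * (d : ℝ) ^ 2 * (7 * d * x ^ 2) := by
      gcongr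
    have e2 : (1 : ℝ) ≤ (d : ℝ) ^ 2 * x ^ 2 :=
      one_le_mul_of_one_le_of_one_le (one_le_pow₀ (by linarith)) (one_le_pow₀ hx)
    have e3 : (d : ℝ) * 1 ≤ d * ((d : ℝ) ^ 2 * x ^ 2) := by gcongr
    nlinarith
  have h4 : 0 ≤ 4 * (d : ℝ) + 3 * d ^ 2 * Real.log (MM n d σ) := by positivity
  have h5 : 0 ≤ 60 * (d : ℝ) / s0B d σ := by positivity
  refine ⟨by positivity, ?_⟩
  calc (((2 * d + 1 + d * d : ℕ) : ℝ) + 1) ^ d * (60 * d / s0B d σ) *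
        (4 * d + 3 * d ^ 2 * Real.log (MM n d σ))
      ≤ (5 * (d : ℝ)) ^ (2 * d) * (4080 * (d : ℝ) ^ 4 * x ^ 3) * (25 * (d : ℝ) ^ 3 * x ^ 2) := by
        gcongr
    _ = (5 * (d : ℝ)) ^ (2 * d) * (102000 * (d : ℝ) ^ 7 * x ^ 5) := by ring

private theorem params_lam {n d : ℕ} {σ : ℝ} (hn : 2 ≤ n) (hd : 2 ≤ d) (hσ : 0 < σ)
    (hx : 1 ≤ 1 / σ) (h : d * Real.log n ≤ (1 / σ) ^ 2 / 36) :
    0 ≤ lamB n d σ ∧ lamB n d σ ≤ 6120000000 * (5 * (d : ℝ)) ^ (7 * d) *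
      ((d : ℝ) ^ 13 * (1 / σ) ^ 8) := by
  have hd1 : (2 : ℝ) ≤ d := by exact_mod_cast hd
  obtain ⟨hL0, hL⟩ := params_Lam hn hd hσ hx h
  have hv := params_v hd hσ hx
  obtain ⟨h0, -⟩ := params_rho hd hσ hx
  have hv0 : 0 ≤ 24 * (d : ℝ) ^ 2 * (48 * d * (1 + 4 * rhoB d σ) / σ ^ 2) := by positivity
  unfold lamB
  set x := 1 / σ with hxd
  have hx0 : 0 < x := by linarith
  have h1 : ((2 * d + 1 + d * d + 1 : ℕ) : ℝ) ≤ (5 * (d : ℝ)) ^ 2 := by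
    push_cast
    nlinarith
  have h2 : ((2 * d + 1 + d * d + 1 : ℕ) : ℝ) ^ d ≤ (5 * (d : ℝ)) ^ (2 * d) := by
    rw [pow_mul]
    exact pow_le_pow_left₀ (by positivity) h1 d
  have h3 : ((d : ℝ) + 1) ^ (d + 3) ≤ (5 * (d : ℝ)) ^ (3 * d) :=
    (pow_le_pow_left₀ (by positivity) (by linarith) _).trans
      (pow_le_pow_right₀ (by linarith) (by omega))
  refine ⟨by positivity, ?_⟩
  calc 3 * ((2 * d + 1 + d * d + 1 : ℕ) : ℝ) ^ d * ((d : ℝ) + 1) ^ (d + 3) *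
        Lam d (2 * d + 1 + d * d) (s0B d σ) (3 * d ^ 2) (MM n d σ) *
          (24 * (d : ℝ) ^ 2 * (48 * d * (1 + 4 * rhoB d σ) / σ ^ 2))
      ≤ 3 * (5 * (d : ℝ)) ^ (2 * d) * (5 * (d : ℝ)) ^ (3 * d) *
        ((5 * (d : ℝ)) ^ (2 * d) * (102000 * (d : ℝ) ^ 7 * x ^ 5)) *
          (20000 * (d : ℝ) ^ 6 * x ^ 3) := by gcongr
    _ = 6120000000 * ((5 * (d : ℝ)) ^ (2 * d) * (5 * (d : ℝ)) ^ (3 * d) *
        (5 * (d : ℝ)) ^ (2 * d)) * ((d : ℝ) ^ 13 * x ^ 8) := by ring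
    _ = 6120000000 * (5 * (d : ℝ)) ^ (7 * d) * ((d : ℝ) ^ 13 * x ^ 8) := by
        rw [← pow_add, ← pow_add]
        congr 3
        ring

theorem params_large : ∃ (C : ℝ) (K : ℕ), 1 ≤ C ∧ ∀ (n d : ℕ) (σ : ℝ), 2 ≤ n → 2 ≤ d → 0 < σ →
    σ ≤ 1 / (6 * Real.sqrt (d * Real.log n)) →
    2 * lamB n d σ * (1 + (2 * d + 1) * mm n d) + 6 ≤
      C * (C * (d : ℝ)) ^ (K * d) * (1 / σ) ^ K := by
  refine ⟨200000000000, 15, by norm_num, fun n d σ hn hd hσ hσ1 => ?_⟩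
  have hd1 : (2 : ℝ) ≤ d := by exact_mod_cast hd
  obtain ⟨hx, h⟩ := params_x hn hd hσ hσ1
  obtain ⟨hl0, hl⟩ := params_lam hn hd hσ hx h
  have hlog := params_log2 hn
  set x := 1 / σ with hxd
  have hx0 : 0 < x := by linarith
  have h1 : 1 + (2 * (d : ℝ) + 1) * mm n d ≤ 16 * (d : ℝ) ^ 2 * x ^ 2 := by
    have e0 : (1 : ℝ) ≤ x ^ 2 := one_le_pow₀ hx
    have e1 : (mm n d : ℝ) ≤ 5 * d * x ^ 2 := by
      unfold mm
      push_cast
      have e2 : (d : ℝ) * Nat.log 2 n ≤ d * (2 * Real.log n) := by gcongr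
      have e3 : (d : ℝ) * 1 ≤ d * x ^ 2 := by gcongr
      nlinarith
    have e4 : 0 ≤ (mm n d : ℝ) := Nat.cast_nonneg _
    have e5 : (2 * (d : ℝ) + 1) * mm n d ≤ (3 * d) * (5 * d * x ^ 2) := by
      gcongr
      linarith
    have e6 : (1 : ℝ) ≤ (d : ℝ) ^ 2 * x ^ 2 :=
      one_le_mul_of_one_le_of_one_le (one_le_pow₀ (by linarith)) e0
    nlinarith
  have h2 : 2 * lamB n d σ * (1 + (2 * d + 1) * mm n d) ≤
      2 * (6120000000 * (5 * (d : ℝ)) ^ (7 * d) * ((d : ℝ) ^ 13 * x ^ 8)) *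
        (16 * (d : ℝ) ^ 2 * x ^ 2) := by
    gcongr
  have h3 : (d : ℝ) ^ 15 ≤ (5 * (d : ℝ)) ^ (8 * d) :=
    (pow_le_pow_left₀ (by positivity) (by linarith) _).trans
      (pow_le_pow_right₀ (by linarith) (by omega))
  have h4 : x ^ 10 ≤ x ^ 15 := pow_le_pow_right₀ hx (by norm_num)
  have h5 : 2 * (6120000000 * (5 * (d : ℝ)) ^ (7 * d) * ((d : ℝ) ^ 13 * x ^ 8)) *
        (16 * (d : ℝ) ^ 2 * x ^ 2) ≤ 195840000000 * ((5 * (d : ℝ)) ^ (15 * d) * x ^ 15) := by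
    calc 2 * (6120000000 * (5 * (d : ℝ)) ^ (7 * d) * ((d : ℝ) ^ 13 * x ^ 8)) *
          (16 * (d : ℝ) ^ 2 * x ^ 2)
        = 195840000000 * ((5 * (d : ℝ)) ^ (7 * d) * (d : ℝ) ^ 15 * x ^ 10) := by ring
      _ ≤ 195840000000 * ((5 * (d : ℝ)) ^ (7 * d) * (5 * (d : ℝ)) ^ (8 * d) * x ^ 15) := by
          gcongr
      _ = 195840000000 * ((5 * (d : ℝ)) ^ (15 * d) * x ^ 15) := by
          rw [← pow_add]
          congr 4
          ring
  have h6 : (1 : ℝ) ≤ (5 * (d : ℝ)) ^ (15 * d) * x ^ 15 :=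
    one_le_mul_of_one_le_of_one_le (one_le_pow₀ (by linarith)) (one_le_pow₀ hx)
  have h7 : (5 * (d : ℝ)) ^ (15 * d) ≤ (200000000000 * (d : ℝ)) ^ (15 * d) :=
    pow_le_pow_left₀ (by positivity) (by linarith) _
  calc 2 * lamB n d σ * (1 + (2 * d + 1) * mm n d) + 6
      ≤ 195840000000 * ((5 * (d : ℝ)) ^ (15 * d) * x ^ 15) + 6 := by linarith
    _ ≤ 200000000000 * ((5 * (d : ℝ)) ^ (15 * d) * x ^ 15) := by linarith
    _ ≤ 200000000000 * ((200000000000 * (d : ℝ)) ^ (15 * d) * x ^ 15) := by gcongr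
    _ = 200000000000 * (200000000000 * (d : ℝ)) ^ (15 * d) * x ^ 15 := by ring

theorem params_small : ∃ (C : ℝ) (K : ℕ), 1 ≤ C ∧ ∀ (n d : ℕ), 2 ≤ n → 2 ≤ d →
    n < (2 * d + 1) * mm n d * (d + 1) →
    2 * (n : ℝ) ^ d ≤ C * (C * (d : ℝ)) ^ (K * d) := by
  refine ⟨14400, 6, by norm_num, fun n d hn hd h => ?_⟩
  have hn1 : (2 : ℝ) ≤ n := by exact_mod_cast hn
  have hd1 : (2 : ℝ) ≤ d := by exact_mod_cast hd
  have hlog := params_log2 hn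
  have h' : (n : ℝ) < (2 * d + 1) * mm n d * (d + 1) := by exact_mod_cast h
  set s := Real.sqrt n with hs
  have hs2 : s ^ 2 = n := Real.sq_sqrt (by linarith)
  have hs1 : 1 ≤ s := by
    rw [hs, Real.one_le_sqrt]
    linarith
  have h1 : Real.log n ≤ 2 * s := by
    rw [← hs2, Real.log_pow]
    have := Real.log_le_sub_one_of_pos (show 0 < s by linarith)
    push_cast
    linarith
  have h2 : (mm n d : ℝ) ≤ 8 * d * s := by
    unfold mm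
    push_cast
    have e2 : (d : ℝ) * Nat.log 2 n ≤ d * (4 * s) := by
      gcongr
      linarith
    have e3 : (d : ℝ) * 1 ≤ d * s := by gcongr
    nlinarith
  have h3 : (n : ℝ) < 120 * (d : ℝ) ^ 3 * s := by
    refine h'.trans_le ?_
    calc (2 * (d : ℝ) + 1) * mm n d * (d + 1)
        ≤ (5 / 2 * d) * (8 * d * s) * (3 / 2 * d) := by
          gcongr <;> linarith
      _ = 30 * (d : ℝ) ^ 3 * s := by ring
      _ ≤ 120 * (d : ℝ) ^ 3 * s := by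
          have : 0 ≤ (d : ℝ) ^ 3 * s := by positivity
          linarith
  have h4 : s < 120 * (d : ℝ) ^ 3 := by
    rw [← hs2, pow_two] at h3
    exact lt_of_mul_lt_mul_right h3 (by linarith)
  have h5 : (n : ℝ) ≤ (14400 * (d : ℝ)) ^ 6 := by
    rw [← hs2]
    calc s ^ 2 ≤ (120 * (d : ℝ) ^ 3) ^ 2 := pow_le_pow_left₀ (by linarith) h4.le 2
      _ = 14400 * (d : ℝ) ^ 6 := by ring
      _ ≤ 14400 ^ 6 * (d : ℝ) ^ 6 := by
          gcongr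
          norm_num
      _ = (14400 * (d : ℝ)) ^ 6 := by ring
  have h6 : (n : ℝ) ^ d ≤ (14400 * (d : ℝ)) ^ (6 * d) := by
    rw [pow_mul]
    exact pow_le_pow_left₀ (by linarith) h5 d
  calc 2 * (n : ℝ) ^ d ≤ 14400 * (n : ℝ) ^ d := by
        have : 0 ≤ (n : ℝ) ^ d := by positivity
        linarith
    _ ≤ 14400 * (14400 * (d : ℝ)) ^ (6 * d) := by gcongr

theorem params_regime (C : ℝ) (K : ℕ) (hC : 1 ≤ C) (K₀ : ℝ) (hK₀ : 0 ≤ K₀) :
    ∃ (C' : ℝ) (K' : ℕ), ∀ (d : ℕ) (σ : ℝ), 1 ≤ d → 0 < σ → σ ≤ 1 →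
      d * Real.log d ≤ K₀ * Real.log (1 / σ) →
      C * (C * (d : ℝ)) ^ (K * d) * (1 / σ) ^ K ≤ C' * (d / σ) ^ K' := by
  obtain ⟨m, hm⟩ : ∃ m : ℕ, m = ⌈(K : ℝ) * (2 * K₀ * Real.log C + K₀)⌉₊ := ⟨_, rfl⟩
  have hm' : (K : ℝ) * (2 * K₀ * Real.log C + K₀) ≤ m := by
    rw [hm]
    exact Nat.le_ceil _
  refine ⟨C * C ^ K, m + K, fun d σ hd hσ hσ1 h => ?_⟩
  have hd1 : (1 : ℝ) ≤ d := by exact_mod_cast hd
  have hlC : 0 ≤ Real.log C := Real.log_nonneg hC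
  set x := 1 / σ with hxd
  have hx : 1 ≤ x := by
    rw [hxd, le_div_iff₀ hσ]
    linarith
  have hx0 : 0 < x := by linarith
  have hlx : 0 ≤ Real.log x := Real.log_nonneg hx
  have hC0 : 0 < C := by linarith
  have h1 : (d : ℝ) * Real.log C ≤ Real.log C + 2 * K₀ * Real.log C * Real.log x := by
    rcases Nat.lt_or_ge d 2 with h2 | h2
    · have h3 : d = 1 := by omega
      rw [h3, Nat.cast_one, one_mul]
      have : 0 ≤ 2 * K₀ * Real.log C * Real.log x := by positivity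
      linarith
    · have h3 : (2 : ℝ) ≤ d := by exact_mod_cast h2
      have h4 : Real.log 2 ≤ Real.log d := Real.log_le_log (by norm_num) h3
      have h5 := Real.log_two_gt_d9
      have h6 : (d : ℝ) ≤ 2 * (K₀ * Real.log x) := by nlinarith
      have h7 : (d : ℝ) * Real.log C ≤ 2 * (K₀ * Real.log x) * Real.log C := by gcongr
      nlinarith
  have h2 : (C * (d : ℝ)) ^ (K * d) ≤ C ^ K * x ^ m := by
    have e1 : (C * (d : ℝ)) ^ (K * d) = Real.exp (K * (d * Real.log C + d * Real.log d)) := by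
      rw [← Real.exp_log (show 0 < (C * (d : ℝ)) ^ (K * d) by positivity), Real.log_pow,
        Real.log_mul (by positivity) (by positivity)]
      congr 1
      push_cast
      ring
    have e2 : C ^ K * x ^ m = Real.exp (K * Real.log C + m * Real.log x) := by
      rw [← Real.exp_log (show 0 < C ^ K * x ^ m by positivity),
        Real.log_mul (by positivity) (by positivity), Real.log_pow, Real.log_pow]
    rw [e1, e2]
    apply Real.exp_le_exp.mpr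
    have e3 : (K : ℝ) * (d * Real.log C + d * Real.log d) ≤
        K * (Real.log C + 2 * K₀ * Real.log C * Real.log x + K₀ * Real.log x) := by
      gcongr
    have e4 : (K : ℝ) * (2 * K₀ * Real.log C + K₀) * Real.log x ≤ m * Real.log x := by gcongr
    nlinarith
  have h3 : x ≤ d / σ := by
    rw [hxd]
    gcongr
  calc C * (C * (d : ℝ)) ^ (K * d) * x ^ K ≤ C * (C ^ K * x ^ m) * x ^ K := by gcongr
    _ = C * C ^ K * x ^ (m + K) := by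
        rw [pow_add]
        ring
    _ ≤ C * C ^ K * (d / σ) ^ (m + K) := by gcongr

end Pool.Agent.H.MP_0cad2f_co.bd
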