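import Pool.Agent.H.MP_0cad2f_co.bd.Basic
import Pool.Agent.H.MP_0cad2f_co.helper11.One

/-!
The constraints outside a block, seen from the barycentre of the block.
-/

set_option autoImplicit false

namespace Pool.Agent.H.MP_0cad2f_co.bd

open MeasureTheory ProbabilityTheory Matrix Finset
open scoped NNReal ENNReal
open Pool.Agent.H.MP_0cad2f_co.helper47

variable {n d : ℕ}

private theorem gau_shift (c b : Fin d → ℝ) (σ : ℝ) :
    MeasurePreserving (fun x : Fin d → ℝ => x - b) (gau c σ) (gau (c - b) σ) := by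
  refine measurePreserving_pi (fun j : Fin d => gaussianReal (c j) (Real.toNNReal (σ ^ 2)))
    (fun j : Fin d => gaussianReal ((c - b) j) (Real.toNNReal (σ ^ 2)))
    (f := fun j x => x - b j) fun j => ⟨measurable_id.sub_const _, ?_⟩
  rw [gaussianReal_map_sub_const]
  rfl

private theorem law_shift (c : Fin n → Fin d → ℝ) (b : Fin d → ℝ) (σ : ℝ) (s : Finset (Fin n)) :
    MeasurePreserving (fun (z : ∀ _ : s, Fin d → ℝ) (i : s) => z i - b)
      (Measure.pi fun i : s => law c σ i) (Measure.pi fun i : s => law (sh c b) σ i) :=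
  measurePreserving_pi (fun i : s => law c σ i) (fun i : s => law (sh c b) σ i)
    (f := fun _ x => x - b) fun i => gau_shift (c i) b σ

private theorem bar_congr {a a' : Fin n → Fin d → ℝ} {G : Finset (Fin n)}
    (h : ∀ i ∈ G, a i = a' i) : bar a G = bar a' G := by
  unfold bar
  rw [Finset.sum_congr rfl h]

private theorem bdd_congr {a a' : Fin n → Fin d → ℝ} {G : Finset (Fin n)} {ρ : ℝ}
    (h : ∀ i ∈ G, a i = a' i) (hb : Bdd a G ρ) : Bdd a' G ρ := by
  intro x hx
  refine hb x fun i hi => ?_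
  rw [h i hi]
  exact hx i hi

private theorem bar_le {a : Fin n → Fin d → ℝ} {G : Finset (Fin n)} (hG : G.Nonempty)
    (h : ∀ i ∈ G, n2 (a i) ≤ 2) : n2 (bar a G) ≤ 2 := by
  unfold bar
  have hc : 0 < (G.card : ℝ) := Nat.cast_pos.2 hG.card_pos
  rw [n2_smul, abs_of_pos (inv_pos.2 hc), inv_mul_le_iff₀ hc]
  refine (n2_sum_le G a).trans ((Finset.sum_le_sum h).trans ?_)
  rw [Finset.sum_const, nsmul_eq_mul]

private theorem measurable_bar (G : Finset (Fin n)) :
    Measurable fun a : Fin n → Fin d → ℝ => bar a G := by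
  unfold bar
  have h : Measurable fun a : Fin n → Fin d → ℝ => ∑ i ∈ G, a i :=
    Finset.measurable_fun_sum G fun i _ => measurable_pi_apply i
  exact h.const_smul ((G.card : ℝ)⁻¹)

private theorem upd_mem {s : Finset (Fin n)} (y : Fin n → Fin d → ℝ) (z : ∀ _ : s, Fin d → ℝ)
    {i : Fin n} (hi : i ∉ s) : Function.updateFinset y s z i = y i := by
  rw [Function.updateFinset, dif_neg hi]

open Classical in
theorem shift_bound (c : Fin n → Fin d → ℝ) {σ ρ : ℝ} (hσ : 0 < σ) (hc : ∀ i, n2 (c i) ≤ 1)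
    {G : Finset (Fin n)} (hG : G.Nonempty) {S : Set (Fin n → Fin d → ℝ)} (hS : MeasurableSet S)
    (hSb : ∀ a ∈ S, Bdd (sh a (bar a G)) G ρ)
    {F : (Fin n → Fin d → ℝ) → (Fin n → Fin d → ℝ) → ℝ≥0∞}
    (hF : Measurable (Function.uncurry F)) {V : ℝ≥0∞}
    (h : ∀ cc a : Fin n → Fin d → ℝ, (∀ i, n2 (cc i) ≤ 3) → (∀ i ∈ G, n2 (a i) ≤ 4) →
      Bdd a G ρ → (∫⋯∫⁻_Gᶜ, F cc ∂(law cc σ)) a ≤ V) :
    ∫⁻ a, (if (∀ i ∈ G, n2 (a i) ≤ 2) ∧ a ∈ S then
      F (sh c (bar a G)) (sh a (bar a G)) else 0) ∂(noise c σ) ≤ V := by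
  set f : (Fin n → Fin d → ℝ) → ℝ≥0∞ := fun a => if (∀ i ∈ G, n2 (a i) ≤ 2) ∧ a ∈ S then
      F (sh c (bar a G)) (sh a (bar a G)) else 0 with hf
  have hmsh : ∀ c' : Fin n → Fin d → ℝ,
      Measurable fun a : Fin n → Fin d → ℝ => sh c' (bar a G) := by
    intro c'
    refine measurable_pi_lambda _ fun i => ?_
    exact measurable_const.sub (measurable_bar G)
  have hmsh' : Measurable fun a : Fin n → Fin d → ℝ => sh a (bar a G) := by
    refine measurable_pi_lambda _ fun i => ?_
    exact (measurable_pi_apply i).sub (measurable_bar G)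
  have hmG : MeasurableSet {a : Fin n → Fin d → ℝ | ∀ i ∈ G, n2 (a i) ≤ 2} := by
    have h1 : {a : Fin n → Fin d → ℝ | ∀ i ∈ G, n2 (a i) ≤ 2} =
        ⋂ i ∈ G, {a : Fin n → Fin d → ℝ | n2 (a i) ≤ 2} := by
      ext a
      simp only [Set.mem_setOf_eq, Set.mem_iInter]
    rw [h1]
    refine Finset.measurableSet_biInter _ fun i _ => ?_
    exact measurableSet_le (helper11.TD.measurable_n2.comp (measurable_pi_apply i))
      measurable_const
  have hfm : Measurable f := by
    refine Measurable.ite (hmG.inter hS) ?_ measurable_const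
    exact hF.comp ((hmsh c).prodMk hmsh')
  have hinner : ∀ y : Fin n → Fin d → ℝ, (∫⋯∫⁻_Gᶜ, f ∂(law c σ)) y ≤ V := by
    intro y
    have hupd : ∀ (z : ∀ _ : (Gᶜ : Finset (Fin n)), Fin d → ℝ), ∀ i ∈ G,
        Function.updateFinset y Gᶜ z i = y i := fun z i hi =>
      upd_mem y z (by rw [Finset.mem_compl, not_not]; exact hi)
    by_cases hex : ∃ z : (∀ _ : (Gᶜ : Finset (Fin n)), Fin d → ℝ),
        (∀ i ∈ G, n2 (Function.updateFinset y Gᶜ z i) ≤ 2) ∧ Function.updateFinset y Gᶜ z ∈ S
    · obtain ⟨z0, hz0, hz0S⟩ := hex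
      have hbar : ∀ z : (∀ _ : (Gᶜ : Finset (Fin n)), Fin d → ℝ),
          bar (Function.updateFinset y Gᶜ z) G = bar y G := fun z => bar_congr (hupd z)
      have hy2 : ∀ i ∈ G, n2 (y i) ≤ 2 := fun i hi => by
        have := hz0 i hi
        rwa [hupd z0 i hi] at this
      set b := bar y G with hb
      have hb2 : n2 b ≤ 2 := bar_le hG hy2
      have hBdd : Bdd (sh y b) G ρ := by
        have h1 := hSb _ hz0S
        rw [hbar z0] at h1
        refine bdd_congr (fun i hi => ?_) h1
        show Function.updateFinset y Gᶜ z0 i - b = y i - b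
        rw [hupd z0 i hi]
      have hV := h (sh c b) (sh y b)
        (fun i => (n2_sub_le _ _).trans (by have := hc i; linarith))
        (fun i hi => (n2_sub_le _ _).trans (by have := hy2 i hi; linarith)) hBdd
      refine le_trans ?_ hV
      have hle : (∫⋯∫⁻_Gᶜ, f ∂(law c σ)) y ≤
          ∫⁻ z : (∀ _ : (Gᶜ : Finset (Fin n)), Fin d → ℝ),
            F (sh c b) (sh (Function.updateFinset y Gᶜ z) b)
              ∂(Measure.pi fun i : (Gᶜ : Finset (Fin n)) => law c σ i) := by
        refine lintegral_mono fun z => ?_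
        show f (Function.updateFinset y Gᶜ z) ≤ _
        rw [hf]
        show (if _ then _ else _) ≤ _
        split_ifs
        · rw [hbar z]
        · exact zero_le
      refine hle.trans (le_of_eq ?_)
      have hcomp : ∀ z : (∀ _ : (Gᶜ : Finset (Fin n)), Fin d → ℝ),
          sh (Function.updateFinset y Gᶜ z) b =
            Function.updateFinset (sh y b) Gᶜ (fun i => z i - b) := by
        intro z
        funext i
        show Function.updateFinset y Gᶜ z i - b = _
        by_cases hi : i ∈ Gᶜ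
        · rw [Function.updateFinset, Function.updateFinset, dif_pos hi, dif_pos hi]
        · rw [Function.updateFinset, Function.updateFinset, dif_neg hi, dif_neg hi]
          rfl
      have hmp := law_shift c b σ (Gᶜ : Finset (Fin n))
      have hFm : Measurable fun z : (∀ _ : (Gᶜ : Finset (Fin n)), Fin d → ℝ) =>
          F (sh c b) (Function.updateFinset (sh y b) Gᶜ z) :=
        hF.comp (measurable_const.prodMk measurable_updateFinset)
      have key := hmp.lintegral_comp hFm
      refine Eq.trans ?_ key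
      exact lintegral_congr fun z => by rw [hcomp z]
    · push Not at hex
      have h0 : ∀ z : (∀ _ : (Gᶜ : Finset (Fin n)), Fin d → ℝ),
          f (Function.updateFinset y Gᶜ z) = 0 := fun z =>
        if_neg fun h1 => hex z h1.1 h1.2
      have h1 : (∫⋯∫⁻_Gᶜ, f ∂(law c σ)) y = 0 := by
        unfold lmarginal
        simp only [h0, lintegral_zero]
      rw [h1]
      exact zero_le
  have h1 : ∫⁻ a, f a ∂(noise c σ) = (∫⋯∫⁻_Finset.univ, f ∂(law c σ)) 0 :=
    lintegral_eq_lmarginal_univ (μ := law c σ) 0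
  have h2 : (Finset.univ : Finset (Fin n)) = G ∪ Gᶜ := by
    rw [Finset.union_compl]
  rw [h1, h2, lmarginal_union (law c σ) f hfm disjoint_compl_right]
  have h3 : (∫⋯∫⁻_G, (∫⋯∫⁻_Gᶜ, f ∂(law c σ)) ∂(law c σ)) 0 ≤
      (∫⋯∫⁻_G, (fun _ => V) ∂(law c σ)) 0 := lmarginal_mono (fun y => hinner y) 0
  refine h3.trans (le_of_eq ?_)
  unfold lmarginal
  rw [lintegral_const, measure_univ, mul_one]

end Pool.Agent.H.MP_0cad2f_co.bd
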