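import Pool.Agent.H.MP_0cad2f_co.bd.Defs
import Pool.Agent.H.MP_0cad2f_co.bd.Basic
import Pool.Agent.H.MP_0cad2f_co.bd.Events
import Pool.Agent.H.MP_0cad2f_co.bd.GraphEquiv
import Pool.Agent.H.MP_0cad2f_co.bd.PairDist
import Pool.Agent.H.MP_0cad2f_co.helper11.One

/-!
The diameter in bounded dimension: few constraints, dimension one, the origin is interior.
-/

set_option autoImplicit false

namespace Pool.Agent.H.MP_0cad2f_co.bd

open MeasureTheory ProbabilityTheory Matrix Finset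
open scoped NNReal ENNReal
open Pool.Agent.H.MP_0cad2f_co.helper47

variable {n d : ℕ}

theorem main_small (hd : 1 ≤ d) {σ : ℝ} (hσ : 0 < σ) (c : Fin n → Fin d → ℝ) :
    ∫⁻ a, (⨆ y ∈ interior (convexHull ℝ (Set.range a)),
      (((graph (sh a y)).ediam : ℕ∞) : ℝ≥0∞)) ∂(noise c σ) ≤
      ENNReal.ofReal (2 * (n : ℝ) ^ d) := by
  have h1 : ∀ᵐ a ∂(noise c σ), (⨆ y ∈ interior (convexHull ℝ (Set.range a)),
      (((graph (sh a y)).ediam : ℕ∞) : ℝ≥0∞)) ≤ ENNReal.ofReal (2 * (n : ℝ) ^ d) := by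
    filter_upwards [ae_affGen c hσ] with a ha
    refine iSup₂_le fun y hy => ?_
    have hinn := inn_of_mem_interior hy
    obtain ⟨ρ, hρ⟩ := bdd_of_inn hd hinn
    have hs := simple_sh ha y
    refine ediam_le_of_cgraph hs fun I I' hI hI' => ?_
    have h2 := edist_crude hd hs hρ hI hI'
    have h3 : (((cgraph (sh a y)).edist I I' : ℕ∞) : ℝ≥0∞) ≤
        (((2 * n ^ d : ℕ) : ℕ∞) : ℝ≥0∞) := ENat.toENNReal_le.2 h2
    refine h3.trans (le_of_eq ?_)
    rw [ENat.toENNReal_coe, ← ENNReal.ofReal_natCast]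
    congr 1
    push_cast
    ring
  refine (lintegral_mono_ae h1).trans ?_
  rw [lintegral_const, measure_univ, mul_one]

theorem ediam_dim_one (hd : d = 1) (a : Fin n → Fin d → ℝ) : (graph a).ediam ≤ 1 := by
  subst hd
  exact SimpleGraph.ediam_le_of_edist_le fun u v => helper11.TD.edist_one a u v

/-- A point which is not extremal in any direction is an interior point of the convex hull. -/
theorem Small_interior {a : Fin n → Fin d → ℝ} {y : Fin d → ℝ} (hd : 1 ≤ d) (hy : Inn a y) :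
    y ∈ interior (convexHull ℝ (Set.range a)) := by
  have hd0 : 0 < d := hd
  -- there is at least one constraint
  have hv0 : (fun _ : Fin d => (1 : ℝ)) ≠ 0 := fun h => by
    have := congrFun h ⟨0, hd0⟩
    exact one_ne_zero this
  obtain ⟨i0, -⟩ := hy _ hv0
  have hne : (Finset.univ : Finset (Fin n)).Nonempty := ⟨i0, Finset.mem_univ _⟩
  set g : (Fin d → ℝ) → ℝ := fun v => Finset.univ.sup' hne fun i => (a i - y) ⬝ᵥ v with hg
  have hgc : Continuous g := by
    refine Continuous.finset_sup'_apply hne fun i _ => ?_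
    unfold dotProduct
    fun_prop
  have hKc : IsCompact (Metric.sphere (0 : Fin d → ℝ) 1) := isCompact_sphere _ _
  have hKn : (Metric.sphere (0 : Fin d → ℝ) 1).Nonempty := by
    refine ⟨fun _ => 1, ?_⟩
    rw [mem_sphere_zero_iff_norm]
    have : Nonempty (Fin d) := ⟨⟨0, hd0⟩⟩
    rw [pi_norm_const, norm_one]
  obtain ⟨v0, hv0m, hmin⟩ := hKc.exists_isMinOn hKn hgc.continuousOn
  have hpos : ∀ v : Fin d → ℝ, v ≠ 0 → 0 < g v := by
    intro v hv
    obtain ⟨i, hi⟩ := hy v hv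
    refine lt_of_lt_of_le ?_ (Finset.le_sup' (fun i => (a i - y) ⬝ᵥ v) (Finset.mem_univ i))
    rw [sub_dotProduct]
    linarith
  have hv0n : v0 ≠ 0 := by
    rintro rfl
    rw [mem_sphere_zero_iff_norm, norm_zero] at hv0m
    exact zero_ne_one hv0m
  have hm := hpos v0 hv0n
  set m := g v0 with hmd
  have hdr : (0 : ℝ) < d := by exact_mod_cast hd0
  rw [mem_interior_iff_mem_nhds, Metric.mem_nhds_iff]
  refine ⟨m / d ^ 2, by positivity, fun z hz => ?_⟩
  by_contra hcon
  have hcl : IsClosed (convexHull ℝ (Set.range a)) :=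
    (Set.finite_range a).isClosed_convexHull ℝ
  obtain ⟨f, u, hf1, hf2⟩ := geometric_hahn_banach_closed_point (convex_convexHull ℝ _) hcl hcon
  set w : Fin d → ℝ := fun j => f (Pi.single j 1) with hw
  have hfw : ∀ v, f v = v ⬝ᵥ w := by
    intro v
    have h1 : v = ∑ j, v j • (Pi.single j 1 : Fin d → ℝ) := by
      funext k
      rw [Finset.sum_apply, Finset.sum_eq_single k]
      · simp
      · intro b _ hb
        simp [Pi.single_eq_of_ne hb.symm]
      · intro h
        exact absurd (Finset.mem_univ k) h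
    conv_lhs => rw [h1]
    rw [map_sum]
    simp only [map_smul, smul_eq_mul, dotProduct, hw]
  have hai : ∀ i, a i ⬝ᵥ w < z ⬝ᵥ w := by
    intro i
    rw [← hfw, ← hfw]
    exact (hf1 _ (subset_convexHull ℝ _ ⟨i, rfl⟩)).trans hf2
  have hw0 : w ≠ 0 := by
    intro h
    have h1 := hai i0
    rw [h, dotProduct_zero, dotProduct_zero] at h1
    exact lt_irrefl _ h1
  have hwn : 0 < ‖w‖ := norm_pos_iff.2 hw0
  have hgw : m * ‖w‖ ≤ g w := by
    have h1 : ‖w‖⁻¹ • w ∈ Metric.sphere (0 : Fin d → ℝ) 1 := by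
      rw [mem_sphere_zero_iff_norm, norm_smul, norm_inv, norm_norm, inv_mul_cancel₀ hwn.ne']
    have h2 : m ≤ g (‖w‖⁻¹ • w) := hmin h1
    have h3 : g (‖w‖⁻¹ • w) ≤ ‖w‖⁻¹ * g w := by
      refine Finset.sup'_le hne _ fun i _ => ?_
      rw [dotProduct_smul, smul_eq_mul]
      exact mul_le_mul_of_nonneg_left
        (Finset.le_sup' (fun i => (a i - y) ⬝ᵥ w) (Finset.mem_univ i)) (inv_nonneg.2 hwn.le)
    have h4 := h2.trans h3
    rw [inv_mul_eq_div, le_div_iff₀ hwn] at h4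
    exact h4
  have hlt : g w < (z - y) ⬝ᵥ w := by
    refine (Finset.sup'_lt_iff hne).2 fun i _ => ?_
    rw [sub_dotProduct, sub_dotProduct]
    linarith [hai i]
  have hle : (z - y) ⬝ᵥ w ≤ (d * ‖z - y‖) * (d * ‖w‖) := by
    refine (dot_le _ _).trans ?_
    exact mul_le_mul (n2_le _) (n2_le _) (n2_nonneg _) (by positivity)
  have hz2 : ‖z - y‖ < m / d ^ 2 := by
    rw [← dist_eq_norm]
    exact hz
  rw [lt_div_iff₀ (by positivity)] at hz2
  have h5 : (d * ‖z - y‖) * (d * ‖w‖) < m * ‖w‖ := by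
    have : (d * ‖z - y‖) * (d * ‖w‖) = (‖z - y‖ * d ^ 2) * ‖w‖ := by ring
    rw [this]
    exact mul_lt_mul_of_pos_right hz2 hwn
  linarith

/-- With overwhelming probability the origin is an interior point. -/
theorem prob_not_interior (hn : 2 ≤ n) (hd : 1 ≤ d) {σ : ℝ} (hσ : 0 < σ)
    (c : Fin n → Fin d → ℝ)
    (hr : ∀ x : Fin d → ℝ, ∃ i, 6 * σ * Real.sqrt (d * Real.log n) * n2 x ≤ c i ⬝ᵥ x) :
    noise c σ {a | (0 : Fin d → ℝ) ∉ interior (convexHull ℝ (Set.range a))} ≤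
      ENNReal.ofReal (1 / (n : ℝ) ^ d) := by
  have hn1 : (2 : ℝ) ≤ n := by exact_mod_cast hn
  have hd1 : (1 : ℝ) ≤ d := by exact_mod_cast hd
  have hlog : 0 < Real.log n := Real.log_pos (by linarith)
  have h0 : (0 : ℝ) < d * Real.log n := by positivity
  have hs := Real.sqrt_pos.mpr h0
  set Rg : ℝ := 4 * σ * Real.sqrt (d * Real.log n) with hRg
  have hRg0 : 0 ≤ Rg := by positivity
  have hsub : {a : Fin n → Fin d → ℝ | (0 : Fin d → ℝ) ∉ interior (convexHull ℝ (Set.range a))} ⊆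
      ⋃ i, {a | Rg < n2 (a i - c i)} := by
    intro a ha
    by_contra hcon
    simp only [Set.mem_iUnion, Set.mem_ofPred_eq, not_exists, not_lt] at hcon
    refine ha (Small_interior hd fun v hv => ?_)
    obtain ⟨i, hi⟩ := hr v
    refine ⟨i, ?_⟩
    have hvn : 0 < n2 v := by
      rw [n2_eq]
      exact norm_pos_iff.2 fun h => hv (by simpa using congrArg (WithLp.ofLp) h)
    have h1 : a i ⬝ᵥ v = c i ⬝ᵥ v + (a i - c i) ⬝ᵥ v := by
      rw [sub_dotProduct]
      ring
    have h2 := neg_le_of_abs_le (abs_dot_le (a i - c i) v)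
    have h3 : n2 (a i - c i) * n2 v ≤ Rg * n2 v := mul_le_mul_of_nonneg_right (hcon i) hvn.le
    have h4 : Rg * n2 v < 6 * σ * Real.sqrt (d * Real.log n) * n2 v := by
      refine mul_lt_mul_of_pos_right ?_ hvn
      rw [hRg]
      have : 0 < σ * Real.sqrt (d * Real.log n) := by positivity
      nlinarith
    rw [zero_dotProduct, h1]
    linarith
  refine (measure_mono hsub).trans ?_
  have hexp : Real.exp (-(Rg ^ 2 / (4 * σ ^ 2))) = 1 / (n : ℝ) ^ (4 * d) := by
    have h3 : Rg ^ 2 / (4 * σ ^ 2) = (4 * d : ℝ) * Real.log n := by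
      rw [hRg, mul_pow, mul_pow, Real.sq_sqrt h0.le]
      field_simp
    rw [h3, Real.exp_neg, one_div]
    congr 1
    rw [← Real.exp_log (show (0 : ℝ) < n by linarith), ← Real.exp_nat_mul, Real.log_exp]
    push_cast
    ring_nf
  have h5 : ∀ i : Fin n, noise c σ {a | Rg < n2 (a i - c i)} ≤
      ENNReal.ofReal (Real.sqrt 2 ^ d * (1 / (n : ℝ) ^ (4 * d))) := by
    intro i
    have hm : MeasurableSet {x : Fin d → ℝ | Rg < n2 (x - c i)} :=
      measurableSet_lt measurable_const (helper94.measurable_n2.comp (by fun_prop))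
    have h6 : noise c σ {a | Rg < n2 (a i - c i)} = gau (c i) σ {x | Rg < n2 (x - c i)} :=
      qp.noise_eval c σ i hm
    rw [h6, ← hexp]
    exact helper11.TD.gau_tail (c i) hσ hRg0
  refine (measure_iUnion_fintype_le _ _).trans ((Finset.sum_le_sum fun i _ => h5 i).trans ?_)
  rw [Finset.sum_const, Finset.card_univ, Fintype.card_fin, nsmul_eq_mul,
    ← ENNReal.ofReal_natCast, ← ENNReal.ofReal_mul (by positivity)]
  apply ENNReal.ofReal_le_ofReal
  have hs2 : Real.sqrt 2 ≤ n := by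
    have h7 : Real.sqrt 2 ≤ Real.sqrt (2 ^ 2) := Real.sqrt_le_sqrt (by norm_num)
    rw [Real.sqrt_sq (by norm_num)] at h7
    linarith
  have h7 : Real.sqrt 2 ^ d ≤ (n : ℝ) ^ d := pow_le_pow_left₀ (Real.sqrt_nonneg _) hs2 d
  rw [show (n : ℝ) * (Real.sqrt 2 ^ d * (1 / (n : ℝ) ^ (4 * d))) =
    (n * Real.sqrt 2 ^ d) / (n : ℝ) ^ (4 * d) by ring, div_le_div_iff₀ (by positivity)
      (by positivity), one_mul]
  calc (n : ℝ) * Real.sqrt 2 ^ d * (n : ℝ) ^ d
      ≤ n * (n : ℝ) ^ d * (n : ℝ) ^ d := by gcongr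
    _ = (n : ℝ) ^ (1 + d + d) := by rw [pow_add, pow_add, pow_one]
    _ ≤ (n : ℝ) ^ (4 * d) := pow_le_pow_right₀ (by linarith) (by omega)

end Pool.Agent.H.MP_0cad2f_co.bd
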