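import Pool.Agent.H.MP_0cad2f_co.bd.Marg
import Pool.Agent.H.MP_0cad2f_co.bd.Meas
import Pool.Agent.H.MP_0cad2f_co.bd.NuFix
import Pool.Agent.H.MP_0cad2f_co.bd.CardFat
import Pool.Agent.H.MP_0cad2f_co.bd.Events
import Pool.Agent.H.MP_0cad2f_co.bd.SumJ

/-!
The mean number of feasible bases in a set of random constraints, the other constraints being
fixed.
-/

set_option autoImplicit false

namespace Pool.Agent.H.MP_0cad2f_co.bd

open MeasureTheory ProbabilityTheory Matrix Finset
open scoped NNReal ENNReal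
open Pool.Agent.H.MP_0cad2f_co.helper47

variable {n d : ℕ}

private theorem vs_meas_mask (S : Finset (Fin n)) :
    Measurable fun a : Fin n → Fin d → ℝ => mask S a := by
  refine measurable_pi_lambda _ fun i => ?_
  unfold mask
  by_cases h : i ∈ S
  · simp only [if_pos h]
    exact measurable_pi_apply i
  · simp only [if_neg h]
    exact measurable_const

/-- Feasible for the constraints in `S`. -/
private def GS (S : Finset (Fin n)) (I : Idx n d) : Set (Fin n → Fin d → ℝ) :=
  {a | Good (mask S a) I}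

private theorem vs_meas_GS (S : Finset (Fin n)) (I : Idx n d) : MeasurableSet (GS S I) :=
  vs_meas_mask S (helper11.TD.measurableSet_good I)

/-- A long dual vector. -/
private def TS (cc : Fin n → Fin d → ℝ) (ρ T : ℝ) (J Z : Finset (Fin n)) (I : Idx n d)
    (k : Fin d) : Set (Fin n → Fin d → ℝ) :=
  {a | Ok cc a ρ J Z I ∧ T < n2 (nu a I k)}

private theorem vs_meas_TS (cc : Fin n → Fin d → ℝ) (ρ T : ℝ) (J Z : Finset (Fin n))
    (I : Idx n d) (k : Fin d) : MeasurableSet (TS cc ρ T J Z I k) :=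
  (measurableSet_ok cc ρ J Z I).inter
    (measurableSet_lt measurable_const
      (helper11.TD.measurable_n2.comp (helper11.TD.measurable_nu I k)))

/-- Long dual vectors are rare among the feasible bases in `Z`. -/
private theorem vs_thin (cc : Fin n → Fin d → ℝ) {σ ρ : ℝ} (hd : 2 ≤ d) (hσ : 0 < σ)
    (hσ1 : σ ≤ 1) (hρ : 0 ≤ ρ) {J Z : Finset (Fin n)}
    (hcc : ∀ i ∈ Z, n2 (cc i) ≤ 3) (a : Fin n → Fin d → ℝ)
    (ha : ∀ i ∈ J, n2 (a i) ≤ 4) {I : Idx n d} (hI : rng I ⊆ Z) (hJZ : Disjoint J Z)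
    (k : Fin d) :
    (∫⋯∫⁻_Z, (TS cc ρ (48 * d * (1 + 4 * ρ) / σ ^ 2) J Z I k).indicator (fun _ => (1 : ℝ≥0∞))
      ∂(law cc σ)) a ≤
      ENNReal.ofReal (1 / (2 * d)) *
        (∫⋯∫⁻_Z, (GS (J ∪ Z) I).indicator (fun _ => (1 : ℝ≥0∞)) ∂(law cc σ)) a := by
  classical
  set T : ℝ := 48 * d * (1 + 4 * ρ) / σ ^ 2 with hTdef
  have hkZ : I k ∈ Z := hI (mem_rng_self I k)
  have hmT : Measurable ((TS cc ρ T J Z I k).indicator (fun _ => (1 : ℝ≥0∞))) :=
    measurable_const.indicator (vs_meas_TS cc ρ T J Z I k)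
  have hmG : Measurable ((GS (J ∪ Z) I).indicator (fun _ => (1 : ℝ≥0∞))) :=
    measurable_const.indicator (vs_meas_GS (J ∪ Z) I)
  rw [lmarginal_erase' _ hmT hkZ, lmarginal_erase' _ hmG hkZ]
  have hmG' : Measurable fun b : Fin n → Fin d → ℝ => ∫⁻ x, (GS (J ∪ Z) I).indicator
      (fun _ => (1 : ℝ≥0∞)) (Function.update b (I k) x) ∂(law cc σ (I k)) := by
    have := hmG.lmarginal (law cc σ) (s := {I k})
    simpa [lmarginal_singleton] using this
  rw [← lmarginal_const_mul hmG']
  refine lmarginal_mono_of fun b hb => ?_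
  have hIS : rng I ⊆ J ∪ Z := hI.trans Finset.subset_union_right
  have hkS : I k ∈ J ∪ Z := Finset.mem_union_right _ hkZ
  have hd0 : (0 : ℝ) < d := by
    have : 0 < d := by omega
    exact_mod_cast this
  have hσ2 : 0 < σ ^ 2 := by positivity
  have e1 : ∫⁻ x, (TS cc ρ T J Z I k).indicator (fun _ => (1 : ℝ≥0∞))
      (Function.update b (I k) x) ∂(law cc σ (I k)) =
      gau (cc (I k)) σ {x | Function.update b (I k) x ∈ TS cc ρ T J Z I k} := by
    have h3 : MeasurableSet {x : Fin d → ℝ | Function.update b (I k) x ∈ TS cc ρ T J Z I k} :=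
      helper52.measurable_update_fix b (I k) (vs_meas_TS cc ρ T J Z I k)
    exact (lintegral_indicator_const h3 1).trans (one_mul _)
  have e2 : ∫⁻ x, (GS (J ∪ Z) I).indicator (fun _ => (1 : ℝ≥0∞))
      (Function.update b (I k) x) ∂(law cc σ (I k)) =
      gau (cc (I k)) σ {x | Function.update b (I k) x ∈ GS (J ∪ Z) I} := by
    have h3 : MeasurableSet {x : Fin d → ℝ | Function.update b (I k) x ∈ GS (J ∪ Z) I} :=
      helper52.measurable_update_fix b (I k) (vs_meas_GS (J ∪ Z) I)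
    exact (lintegral_indicator_const h3 1).trans (one_mul _)
  rw [e1, e2]
  by_cases hne : ∀ x : Fin d → ℝ, Function.update b (I k) x ∉ TS cc ρ T J Z I k
  · have h0 : {x : Fin d → ℝ | Function.update b (I k) x ∈ TS cc ρ T J Z I k} = ∅ :=
      Set.eq_empty_iff_forall_notMem.mpr hne
    rw [h0, measure_empty]
    exact zero_le
  push Not at hne
  obtain ⟨x₀, hx₀⟩ := hne
  have hnear : ∀ i ∈ Z, i ≠ I k → n2 (b i) ≤ 4 := by
    intro i hi hik
    have h1 := hx₀.1.near i hi
    rw [Function.update_of_ne hik] at h1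
    have h2 : b i = (b i - cc i) + cc i := by abel
    rw [h2]
    linarith [n2_add_le (b i - cc i) (cc i), hcc i hi]
  have hb4 : ∀ i, i ≠ I k → n2 (mask (J ∪ Z) b i) ≤ 4 := by
    intro i hik
    unfold mask
    by_cases hi : i ∈ J ∪ Z
    · rw [if_pos hi]
      rcases Finset.mem_union.mp hi with h | h
      · have h1 : b i = a i := hb i fun hmem =>
          (Finset.disjoint_left.mp hJZ h) (Finset.mem_of_mem_erase hmem)
        rw [h1]
        exact ha i h
      · exact hnear i h hik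
    · rw [if_neg hi]
      have : n2 (0 : Fin d → ℝ) = 0 := by simp [n2]
      rw [this]
      norm_num
  have hfix := nu_bound_fix (mask (J ∪ Z) b) (cc (I k)) (ρ := ρ) (A := 4) (T := T) hσ hσ1 hd hρ
    (by linarith [hcc (I k) hkZ]) I k hb4 (by
      rw [hTdef]
      field_simp
      have hd2 : (2 : ℝ) ≤ d := by exact_mod_cast hd
      nlinarith)
  have hcoef : 24 * (1 + 4 * ρ) / (σ ^ 2 * T) = 1 / (2 * d) := by
    rw [hTdef]
    field_simp
    ring
  rw [hcoef] at hfix
  refine le_trans (measure_mono ?_) (hfix.trans (le_of_eq ?_))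
  · rintro x ⟨hx1, hx2⟩
    have h1 := mask_update (S := J ∪ Z) b hkS x
    have h2 : nu (mask (J ∪ Z) (Function.update b (I k) x)) I k =
      nu (Function.update b (I k) x) I k := nu_mask _ hIS k
    have h3 : vtx (mask (J ∪ Z) (Function.update b (I k) x)) I =
      vtx (Function.update b (I k) x) I := vtx_mask _ hIS
    refine ⟨?_, ?_, ?_, ?_⟩
    · have := hx1.near (I k) hkZ
      rwa [Function.update_self] at this
    · rw [← h1]
      exact hx1.good
    · rw [← h1, h3]
      exact hx1.vtx_le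
    · rw [← h1, h2]
      exact hx2
  · congr 1
    congr 1
    ext x
    simp only [GS, Set.mem_ofPred_eq]
    rw [mask_update (S := J ∪ Z) b hkS x]

/-- The probability that some constraint in `Z` is far away. -/
private theorem vs_far (cc : Fin n → Fin d → ℝ) {σ : ℝ} (hσ : 0 < σ) (hn : 2 ≤ n) (hd : 1 ≤ d)
    (hσ1 : σ ≤ 1 / (6 * Real.sqrt (d * Real.log n))) (Z : Finset (Fin n))
    (a : Fin n → Fin d → ℝ) :
    (∫⋯∫⁻_Z, ({a | ∃ i ∈ Z, 1 < n2 (a i - cc i)} : Set (Fin n → Fin d → ℝ)).indicator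
      (fun _ => (1 : ℝ≥0∞)) ∂(law cc σ)) a ≤ ENNReal.ofReal (1 / (n : ℝ) ^ (2 * d)) := by
  classical
  set F : Set (Fin n → Fin d → ℝ) := {a | ∃ i ∈ Z, 1 < n2 (a i - cc i)} with hF
  have hmF : MeasurableSet F := by
    have h1 : F = ⋃ i ∈ Z, {a : Fin n → Fin d → ℝ | 1 < n2 (a i - cc i)} := by
      ext b
      simp [hF]
    rw [h1]
    refine Finset.measurableSet_biUnion _ fun i _ => ?_
    exact measurableSet_lt measurable_const (helper11.TD.measurable_n2.comp
      ((measurable_pi_apply i).sub_const _))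
  have hm : Measurable (F.indicator (fun _ => (1 : ℝ≥0∞))) := measurable_const.indicator hmF
  -- the function does not depend on the other coordinates
  have hindep : ∀ b : Fin n → Fin d → ℝ,
      (∫⋯∫⁻_Z, F.indicator (fun _ => (1 : ℝ≥0∞)) ∂(law cc σ)) b =
      (∫⋯∫⁻_Z, F.indicator (fun _ => (1 : ℝ≥0∞)) ∂(law cc σ)) a := by
    intro b
    unfold lmarginal
    refine lintegral_congr fun y => ?_
    have h1 : Function.updateFinset b Z y ∈ F ↔ Function.updateFinset a Z y ∈ F := by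
      have h2 : ∀ i ∈ Z, Function.updateFinset b Z y i = Function.updateFinset a Z y i := by
        intro i hi
        unfold Function.updateFinset
        rw [dif_pos hi, dif_pos hi]
      constructor
      · rintro ⟨i, hi, h⟩
        exact ⟨i, hi, by rwa [← h2 i hi]⟩
      · rintro ⟨i, hi, h⟩
        exact ⟨i, hi, by rwa [h2 i hi]⟩
    by_cases h : Function.updateFinset b Z y ∈ F
    · rw [Set.indicator_of_mem h, Set.indicator_of_mem (h1.mp h)]
    · rw [Set.indicator_of_notMem h, Set.indicator_of_notMem (fun h' => h (h1.mpr h'))]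
  have h2 : noise cc σ F = (∫⋯∫⁻_Z, F.indicator (fun _ => (1 : ℝ≥0∞)) ∂(law cc σ)) a := by
    have h3 : noise cc σ F = ∫⁻ b, F.indicator (fun _ => (1 : ℝ≥0∞)) b ∂(noise cc σ) := by
      exact ((lintegral_indicator_const hmF 1).trans (one_mul _)).symm
    rw [h3, lintegral_eq_lmarginal_univ a,
      show (Finset.univ : Finset (Fin n)) = Zᶜ ∪ Z by
        rw [Finset.union_comm, Finset.union_compl],
      lmarginal_union _ _ hm disjoint_compl_left]
    rw [lmarginal_of_indep]
    intro b _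
    exact hindep b
  rw [← h2]
  refine (measure_mono ?_).trans (prob_far cc hσ hn hd hσ1)
  rintro b ⟨i, _, hi⟩
  exact ⟨i, hi⟩

open Classical in
theorem vstar (cc : Fin n → Fin d → ℝ) {σ ρ : ℝ} (hn : 2 ≤ n) (hd : 2 ≤ d) (hσ : 0 < σ)
    (hσ1 : σ ≤ 1 / (6 * Real.sqrt (d * Real.log n))) (hρ : 0 ≤ ρ) {J Z : Finset (Fin n)}
    (hJZ : Disjoint J Z) (hcc : ∀ i ∈ Z, n2 (cc i) ≤ 3) (a : Fin n → Fin d → ℝ)
    (ha : ∀ i ∈ J, n2 (a i) ≤ 4) (hb : Bdd a J ρ) :
    (∫⋯∫⁻_Z, (fun a => ∑ I : Idx n d, if rng I ⊆ Z ∧ Ok cc a ρ J Z I then (1 : ℝ≥0∞) else 0)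
      ∂(law cc σ)) a ≤
      ENNReal.ofReal ((24 * (d : ℝ) ^ 2 * (48 * d * (1 + 4 * ρ) / σ ^ 2)) ^ d) := by
  have hd1 : 1 ≤ d := by omega
  have hd2 : (2 : ℝ) ≤ d := by exact_mod_cast hd
  have hn2 : (2 : ℝ) ≤ n := by exact_mod_cast hn
  have hσle : σ ≤ 1 := by
    refine hσ1.trans ?_
    have hlog : (1 : ℝ) / 2 ≤ Real.log n := by
      have h1 : Real.log 2 ≤ Real.log n := Real.log_le_log two_pos hn2
      have h2 := Real.log_two_gt_d9
      linarith
    have h1 : (1 : ℝ) ≤ Real.sqrt (d * Real.log n) := by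
      rw [Real.one_le_sqrt]
      nlinarith
    rw [div_le_one (by positivity)]
    linarith
  have hσ2 : 0 < σ ^ 2 := by positivity
  have hσ2' : σ ^ 2 ≤ 1 := pow_le_one₀ hσ.le hσle
  set T : ℝ := 48 * d * (1 + 4 * ρ) / σ ^ 2 with hTdef
  have hT1 : 1 ≤ T := by
    rw [hTdef, le_div_iff₀ hσ2]
    nlinarith
  set N : (Fin n → Fin d → ℝ) → ℝ≥0∞ := fun a =>
    ∑ I : Idx n d, if rng I ⊆ Z ∧ Ok cc a ρ J Z I then (1 : ℝ≥0∞) else 0 with hN
  set V : ℝ≥0∞ := ENNReal.ofReal ((8 * (d : ℝ) ^ 2 * T) ^ d) with hV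
  set P : Finset (Idx n d) := Finset.univ.filter fun I : Idx n d => rng I ⊆ Z with hP
  have hmT : ∀ I k, Measurable ((TS cc ρ T J Z I k).indicator (fun _ => (1 : ℝ≥0∞))) :=
    fun I k => measurable_const.indicator (vs_meas_TS cc ρ T J Z I k)
  have hmG : ∀ I : Idx n d, Measurable ((GS (J ∪ Z) I).indicator (fun _ => (1 : ℝ≥0∞))) :=
    fun I => measurable_const.indicator (vs_meas_GS (J ∪ Z) I)
  have hmS : Measurable (({a | ¬ SimpleJ a J Z}.indicator 1 :
      (Fin n → Fin d → ℝ) → ℝ≥0∞)) :=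
    measurable_one.indicator (measurableSet_simpleJ J Z).compl
  have hNP : ∀ b, N b = ∑ I ∈ P, if Ok cc b ρ J Z I then (1 : ℝ≥0∞) else 0 := by
    intro b
    rw [hN, hP, Finset.sum_filter]
    refine Finset.sum_congr rfl fun I _ => ?_
    by_cases h1 : rng I ⊆ Z
    · simp [h1]
    · simp [h1]
  have hmN : Measurable N := by
    rw [hN]
    refine Finset.measurable_fun_sum _ fun I _ => ?_
    by_cases h1 : rng I ⊆ Z
    · simp only [h1, true_and]
      exact Measurable.ite (measurableSet_ok cc ρ J Z I) measurable_const measurable_const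
    · simp only [h1, false_and, if_false]
      exact measurable_const
  have hcard : (P.card : ℝ≥0∞) ≤ ((n ^ d : ℕ) : ℝ≥0∞) := by
    have h1 : P.card ≤ n ^ d := (Finset.card_le_univ P).trans card_idx_le
    exact_mod_cast h1
  have hNle : ∀ b, N b ≤ ((n ^ d : ℕ) : ℝ≥0∞) := by
    intro b
    rw [hNP]
    refine le_trans ?_ hcard
    refine (Finset.sum_le_card_nsmul _ _ 1 fun I _ => ?_).trans (by simp)
    split_ifs
    · exact le_rfl
    · exact zero_le_one
  -- pointwise: fat or thin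
  have hpt : ∀ b, N b ≤ (V + ((n ^ d : ℕ) : ℝ≥0∞) *
      ({a | ¬ SimpleJ a J Z}.indicator 1 : (Fin n → Fin d → ℝ) → ℝ≥0∞) b) +
      ∑ I ∈ P, ∑ k, (TS cc ρ T J Z I k).indicator (fun _ => (1 : ℝ≥0∞)) b := by
    intro b
    by_cases hs : SimpleJ b J Z
    · set Q : Finset (Idx n d) := Finset.univ.filter fun I : Idx n d => rng I ⊆ Z ∧
        Good (mask (J ∪ Z) b) I ∧ (∀ k, n2 (b (I k)) ≤ 4) ∧ ∀ k, n2 (nu b I k) ≤ T with hQ
      have hQV : (Q.card : ℝ≥0∞) ≤ V := by
        have h1 := card_fat_le hd1 hs hT1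
        rw [hV, ← ENNReal.ofReal_natCast]
        exact ENNReal.ofReal_le_ofReal h1
      have h2 : N b ≤ (Q.card : ℝ≥0∞) +
          ∑ I ∈ P, ∑ k, (TS cc ρ T J Z I k).indicator (fun _ => (1 : ℝ≥0∞)) b := by
        have h3 : (Q.card : ℝ≥0∞) = ∑ I ∈ P, if I ∈ Q then (1 : ℝ≥0∞) else 0 := by
          rw [Finset.sum_ite_mem, Finset.sum_const, nsmul_eq_mul, mul_one]
          congr 2
          rw [Finset.inter_eq_right.mpr]
          intro I hI
          rw [hQ, Finset.mem_filter] at hI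
          rw [hP, Finset.mem_filter]
          exact ⟨Finset.mem_univ _, hI.2.1⟩
        rw [h3, hNP, ← Finset.sum_add_distrib]
        refine Finset.sum_le_sum fun I hI => ?_
        rw [hP, Finset.mem_filter] at hI
        by_cases hok : Ok cc b ρ J Z I
        · rw [if_pos hok]
          by_cases hIQ : I ∈ Q
          · rw [if_pos hIQ]
            exact le_self_add
          · rw [if_neg hIQ, zero_add]
            have h4 : ∃ k, T < n2 (nu b I k) := by
              by_contra hcon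
              push Not at hcon
              apply hIQ
              rw [hQ, Finset.mem_filter]
              refine ⟨Finset.mem_univ _, hI.2, hok.good, fun k => ?_, hcon⟩
              have hkZ : I k ∈ Z := hI.2 (mem_rng_self I k)
              have h5 : b (I k) = (b (I k) - cc (I k)) + cc (I k) := by abel
              rw [h5]
              linarith [n2_add_le (b (I k) - cc (I k)) (cc (I k)), hcc _ hkZ,
                hok.near (I k) hkZ]
            obtain ⟨k, hk⟩ := h4
            have h6 : (TS cc ρ T J Z I k).indicator (fun _ => (1 : ℝ≥0∞)) b = 1 :=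
              Set.indicator_of_mem (show b ∈ TS cc ρ T J Z I k from ⟨hok, hk⟩) _
            refine h6.symm.le.trans ?_
            exact Finset.single_le_sum
              (f := fun k => (TS cc ρ T J Z I k).indicator (fun _ => (1 : ℝ≥0∞)) b)
              (fun _ _ => zero_le) (Finset.mem_univ k)
        · rw [if_neg hok]
          exact zero_le
      refine h2.trans ?_
      gcongr
      exact hQV.trans le_self_add
    · have h1 : ({a | ¬ SimpleJ a J Z}.indicator 1 : (Fin n → Fin d → ℝ) → ℝ≥0∞) b = 1 :=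
        Set.indicator_of_mem (show b ∈ {a | ¬ SimpleJ a J Z} from hs) _
      rw [h1, mul_one]
      exact (hNle b).trans (le_add_left le_rfl |>.trans le_self_add)
  -- the mean of the number of thin bases
  have hthin : ∀ I ∈ P, ∑ k, (∫⋯∫⁻_Z, (TS cc ρ T J Z I k).indicator
      (fun _ => (1 : ℝ≥0∞)) ∂(law cc σ)) a ≤
      ENNReal.ofReal (1 / 2) *
        (∫⋯∫⁻_Z, (GS (J ∪ Z) I).indicator (fun _ => (1 : ℝ≥0∞)) ∂(law cc σ)) a := by
    intro I hI
    rw [hP, Finset.mem_filter] at hI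
    refine (Finset.sum_le_sum fun k _ =>
      vs_thin cc hd hσ hσle hρ hcc a ha hI.2 hJZ k).trans ?_
    rw [Finset.sum_const, Finset.card_univ, Fintype.card_fin, nsmul_eq_mul, ← mul_assoc,
      ← ENNReal.ofReal_natCast, ← ENNReal.ofReal_mul (Nat.cast_nonneg d)]
    refine le_of_eq ?_
    congr 2
    field_simp
  -- the feasible bases
  have hG : ∀ b, (∀ i, i ∉ Z → b i = a i) →
      ∑ I ∈ P, (GS (J ∪ Z) I).indicator (fun _ => (1 : ℝ≥0∞)) b ≤
      N b + ((n ^ d : ℕ) : ℝ≥0∞) * ({a | ∃ i ∈ Z, 1 < n2 (a i - cc i)} :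
        Set (Fin n → Fin d → ℝ)).indicator (fun _ => (1 : ℝ≥0∞)) b := by
    intro b hba
    by_cases hfar : ∃ i ∈ Z, 1 < n2 (b i - cc i)
    · have h1 : ({a | ∃ i ∈ Z, 1 < n2 (a i - cc i)} :
        Set (Fin n → Fin d → ℝ)).indicator (fun _ => (1 : ℝ≥0∞)) b = 1 :=
        Set.indicator_of_mem (show b ∈ {a | ∃ i ∈ Z, 1 < n2 (a i - cc i)} from hfar) _
      rw [h1, mul_one]
      refine le_trans ?_ (le_add_left hcard)
      refine (Finset.sum_le_card_nsmul _ _ 1 fun I _ => ?_).trans (by simp)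
      exact Set.indicator_le' (fun _ _ => le_rfl) (fun _ _ => zero_le_one) b
    · push Not at hfar
      refine le_trans ?_ le_self_add
      rw [hNP]
      refine Finset.sum_le_sum fun I hI => ?_
      rw [hP, Finset.mem_filter] at hI
      by_cases hg : b ∈ GS (J ∪ Z) I
      · have hIS : rng I ⊆ J ∪ Z := hI.2.trans Finset.subset_union_right
        have hok : Ok cc b ρ J Z I := by
          refine ⟨hg, ?_, hfar⟩
          apply hb
          intro i hi
          have h1 : b i = a i := hba i (Finset.disjoint_left.mp hJZ hi)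
          have h2 := hg.2 i
          rw [vtx_mask b hIS] at h2
          unfold mask at h2
          rw [if_pos (Finset.mem_union_left _ hi), h1] at h2
          exact h2
        rw [if_pos hok, Set.indicator_of_mem hg]
      · rw [Set.indicator_of_notMem hg]
        exact zero_le
  -- assemble
  set E : ℝ≥0∞ := (∫⋯∫⁻_Z, N ∂(law cc σ)) a with hE
  have hEtop : E ≠ ⊤ := by
    have h1 : E ≤ ((n ^ d : ℕ) : ℝ≥0∞) := by
      rw [hE]
      refine (lmarginal_mono_of (g := fun _ => ((n ^ d : ℕ) : ℝ≥0∞)) fun b _ => hNle b).trans ?_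
      rw [lmarginal_const]
    exact ne_top_of_le_ne_top (ENNReal.natCast_ne_top _) h1
  have hGE : ∑ I ∈ P, (∫⋯∫⁻_Z, (GS (J ∪ Z) I).indicator (fun _ => (1 : ℝ≥0∞))
      ∂(law cc σ)) a ≤ E + 1 := by
    rw [← lmarginal_sum P (fun I _ => hmG I) a]
    have hmF : Measurable (({a | ∃ i ∈ Z, 1 < n2 (a i - cc i)} :
        Set (Fin n → Fin d → ℝ)).indicator (fun _ => (1 : ℝ≥0∞))) := by
      refine measurable_const.indicator ?_
      have h1 : {a : Fin n → Fin d → ℝ | ∃ i ∈ Z, 1 < n2 (a i - cc i)} =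
          ⋃ i ∈ Z, {a : Fin n → Fin d → ℝ | 1 < n2 (a i - cc i)} := by
        ext b
        simp
      rw [h1]
      refine Finset.measurableSet_biUnion _ fun i _ => ?_
      exact measurableSet_lt measurable_const (helper11.TD.measurable_n2.comp
        ((measurable_pi_apply i).sub_const _))
    refine (lmarginal_mono_of fun b hba => hG b hba).trans ?_
    rw [lmarginal_add hmN, lmarginal_const_mul hmF]
    refine add_le_add le_rfl ?_
    refine (mul_le_mul' le_rfl (vs_far cc hσ hn hd1 hσ1 Z a)).trans ?_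
    rw [← ENNReal.ofReal_natCast, ← ENNReal.ofReal_mul (Nat.cast_nonneg _), ← ENNReal.ofReal_one]
    apply ENNReal.ofReal_le_ofReal
    push_cast
    rw [mul_one_div, div_le_one (by positivity)]
    exact pow_le_pow_right₀ (by linarith) (by omega)
  have hmain : E ≤ V + ENNReal.ofReal (1 / 2) * (E + 1) := by
    have h1 : E ≤ (V + ((n ^ d : ℕ) : ℝ≥0∞) * 0) +
        ∑ I ∈ P, ∑ k, (∫⋯∫⁻_Z, (TS cc ρ T J Z I k).indicator
          (fun _ => (1 : ℝ≥0∞)) ∂(law cc σ)) a := by
      rw [hE]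
      refine (lmarginal_mono_of fun b _ => hpt b).trans ?_
      have hm1 : Measurable fun b : Fin n → Fin d → ℝ => V + ((n ^ d : ℕ) : ℝ≥0∞) *
          ({a | ¬ SimpleJ a J Z}.indicator 1 : (Fin n → Fin d → ℝ) → ℝ≥0∞) b :=
        measurable_const.add (hmS.const_mul _)
      have hm0 : Measurable fun _ : Fin n → Fin d → ℝ => V := measurable_const
      rw [lmarginal_add hm1, lmarginal_add hm0, lmarginal_const, lmarginal_const_mul hmS,
        null_simpleJ cc hσ hd1 hJZ a]
      refine add_le_add le_rfl (le_of_eq ?_)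
      rw [lmarginal_sum P (fun I _ => Finset.measurable_fun_sum _ fun k _ => hmT I k) a]
      refine Finset.sum_congr rfl fun I _ => ?_
      exact lmarginal_sum _ (fun k _ => hmT I k) a
    rw [mul_zero, add_zero] at h1
    refine h1.trans (add_le_add le_rfl ?_)
    refine (Finset.sum_le_sum hthin).trans ?_
    rw [← Finset.mul_sum]
    exact mul_le_mul' le_rfl hGE
  have hreal : E.toReal ≤ (8 * (d : ℝ) ^ 2 * T) ^ d + 1 / 2 * (E.toReal + 1) := by
    have h1 := ENNReal.toReal_mono (by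
      rw [hV]
      exact ENNReal.add_ne_top.mpr ⟨ENNReal.ofReal_ne_top, ENNReal.mul_ne_top
        ENNReal.ofReal_ne_top (ENNReal.add_ne_top.mpr ⟨hEtop, ENNReal.one_ne_top⟩)⟩) hmain
    rw [hV, ENNReal.toReal_add ENNReal.ofReal_ne_top (ENNReal.mul_ne_top
        ENNReal.ofReal_ne_top (ENNReal.add_ne_top.mpr ⟨hEtop, ENNReal.one_ne_top⟩)),
      ENNReal.toReal_mul, ENNReal.toReal_ofReal (by positivity),
      ENNReal.toReal_ofReal (by norm_num), ENNReal.toReal_add hEtop ENNReal.one_ne_top,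
      ENNReal.toReal_one] at h1
    exact h1
  have hX1 : (1 : ℝ) ≤ (8 * (d : ℝ) ^ 2 * T) ^ d := by
    apply one_le_pow₀
    nlinarith
  have h3d : (9 : ℝ) ≤ 3 ^ d := by
    calc (9 : ℝ) = 3 ^ 2 := by norm_num
      _ ≤ 3 ^ d := pow_le_pow_right₀ (by norm_num) hd
  rw [← ENNReal.ofReal_toReal hEtop]
  apply ENNReal.ofReal_le_ofReal
  have h4 : (24 * (d : ℝ) ^ 2 * T) ^ d = 3 ^ d * (8 * (d : ℝ) ^ 2 * T) ^ d := by
    rw [← mul_pow]
    ring
  rw [h4]
  nlinarith

end Pool.Agent.H.MP_0cad2f_co.bd
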