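import Pool.Agent.H.MP_0cad2f_co.bd.Defs
import Pool.Agent.H.MP_0cad2f_co.bd.Basic
import Pool.Agent.H.MP_0cad2f_co.bd.Walk
import Pool.Agent.H.MP_0cad2f_co.helper73.Walk

/-!
The diameter in bounded dimension: the normal cones met by a segment are sorted by their
constraints outside `U`; there are few cones of each sort, and all sorts but one are found on a
crossed facet whose opposite constraint is new.
-/

set_option autoImplicit false

namespace Pool.Agent.H.MP_0cad2f_co.bd

open MeasureTheory ProbabilityTheory Matrix Finset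
open scoped NNReal ENNReal
open Pool.Agent.H.MP_0cad2f_co.helper47

variable {n d : ℕ}

/-- There are few bases with a given set of constraints outside `U`. -/
theorem card_fiber_le (V : Finset (Idx n d)) (U H : Finset (Fin n)) :
    (V.filter fun B => rng B \ U = H).card ≤ (U.card + 1) ^ d := by
  refine le_trans ?_ (card_small_le U d)
  refine Finset.card_le_card_of_injOn (fun B => rng B ∩ U) (fun B _ => ?_) (fun B hB B' hB' h => ?_)
  · rw [Finset.mem_coe, Finset.mem_filter, Finset.mem_powerset]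
    refine ⟨Finset.inter_subset_right, ?_⟩
    exact (Finset.card_le_card Finset.inter_subset_left).trans (card_rng B).le
  · rw [Finset.mem_coe, Finset.mem_filter] at hB hB'
    apply rng_injective
    have h1 : rng B ∩ U = rng B' ∩ U := h
    rw [← Finset.sdiff_union_inter (rng B) U, ← Finset.sdiff_union_inter (rng B') U, hB.2, hB'.2,
      h1]

/-- A generic point is on no facet hyperplane. -/
theorem nu_dot_ne {a : Fin n → Fin d → ℝ} {c X : Fin d → ℝ} (hX : Generic a c X) {B : Idx n d}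
    (hB : Good a B) (k : Fin d) : nu a B k ⬝ᵥ X ≠ 0 := by
  intro h0
  have hd : 0 < d := lt_of_le_of_lt (Nat.zero_le _) k.2
  refine (hX ((Finset.univ.erase k).map B.toEmbedding)).1 ?_ ?_
  · rw [Finset.card_map, Finset.card_erase_of_mem (Finset.mem_univ k), Finset.card_univ,
      Fintype.card_fin]
    omega
  · refine helper73.mem_span_support hB.1 X _ fun l hl => ?_
    rw [Finset.mem_erase]
    refine ⟨?_, Finset.mem_univ l⟩
    rintro rfl
    exact hl h0

/-- If two normal cones meet in a point of the segment, the common facet is crossed. -/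
theorem crossed {a : Fin n → Fin d → ℝ} (hs : Simple a) {c X : Fin d → ℝ} {M : ℝ}
    (hX : Generic a c X) {B B' : Idx n d} (hB : Good a B) (hB' : Good a B') {μ : ℝ}
    (hμ : μ ∈ Set.Icc (0 : ℝ) M) (h : InCone a B (X + μ • c)) (h' : InCone a B' (X + μ • c))
    {k : Fin d} (hk : B k ∉ rng B') : HitE a B k c M X := by
  refine hitE_of_hit (nu_dot_ne hX hB k) ⟨μ, hμ, h, ?_⟩
  by_contra hne
  obtain ⟨l, hl⟩ := helper73.mem_range_of_ne hs hB hB' h h' hne
  exact hk (mem_rng.2 ⟨l, hl⟩)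

/-- Two different sorts which meet are seen at a crossed facet. -/
theorem sort_seen {a : Fin n → Fin d → ℝ} (hd : 1 ≤ d) (hs : Simple a) {c X : Fin d → ℝ} {M : ℝ}
    (hX : Generic a c X) {U : Finset (Fin n)} {B B' : Idx n d} (hB : Good a B)
    (hB' : Good a B') {μ : ℝ} (hμ : μ ∈ Set.Icc (0 : ℝ) M) (h : InCone a B (X + μ • c))
    (h' : InCone a B' (X + μ • c)) (hne : rng B \ U ≠ rng B' \ U) :
    (∃ k, B k ∉ U ∧ HitE a B k c M X) ∨
      ∃ k, B' k ∉ U ∧ HitE a B' k c M X ∧ rng B \ U = (rng B').erase (B' k) \ U := by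
  have hBB : B ≠ B' := fun he => hne (by rw [he])
  have hcard := Walk_card hs hB hB' hBB h h' fun s hsc => helper73.line_generic hX μ s hsc
  have h1 : (rng B \ rng B').card = 1 := by
    have := Finset.card_sdiff_add_card_inter (rng B) (rng B')
    rw [hcard, card_rng] at this
    omega
  have h2 : (rng B' \ rng B).card = 1 := by
    have := Finset.card_sdiff_add_card_inter (rng B') (rng B)
    rw [Finset.inter_comm, hcard, card_rng] at this
    omega
  obtain ⟨f, hf⟩ := Finset.card_eq_one.1 h1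
  obtain ⟨b, hb⟩ := Finset.card_eq_one.1 h2
  have hf1 : f ∈ rng B \ rng B' := by rw [hf]; exact Finset.mem_singleton_self f
  have hb1 : b ∈ rng B' \ rng B := by rw [hb]; exact Finset.mem_singleton_self b
  rw [Finset.mem_sdiff] at hf1 hb1
  obtain ⟨k, rfl⟩ := mem_rng.1 hf1.1
  obtain ⟨l, rfl⟩ := mem_rng.1 hb1.1
  have e1 : ∀ i, i ∈ rng B → i ∉ rng B' → i = B k := fun i h1 h2 => by
    have : i ∈ rng B \ rng B' := Finset.mem_sdiff.2 ⟨h1, h2⟩
    rwa [hf, Finset.mem_singleton] at this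
  have e2 : ∀ i, i ∈ rng B' → i ∉ rng B → i = B' l := fun i h1 h2 => by
    have : i ∈ rng B' \ rng B := Finset.mem_sdiff.2 ⟨h1, h2⟩
    rwa [hb, Finset.mem_singleton] at this
  by_cases hU : B k ∈ U
  · right
    have hl : B' l ∉ U := by
      intro hl
      apply hne
      ext i
      rw [Finset.mem_sdiff, Finset.mem_sdiff]
      constructor
      · rintro ⟨hi, hiU⟩
        refine ⟨?_, hiU⟩
        by_contra hi'
        rw [e1 i hi hi'] at hiU
        exact hiU hU
      · rintro ⟨hi, hiU⟩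
        refine ⟨?_, hiU⟩
        by_contra hi'
        rw [e2 i hi hi'] at hiU
        exact hiU hl
    refine ⟨l, hl, crossed hs hX hB' hB hμ h' h hb1.2, ?_⟩
    ext i
    rw [Finset.mem_sdiff, Finset.mem_sdiff, Finset.mem_erase]
    constructor
    · rintro ⟨hi, hiU⟩
      refine ⟨⟨?_, ?_⟩, hiU⟩
      · rintro rfl
        exact hb1.2 hi
      · by_contra hi'
        rw [e1 i hi hi'] at hiU
        exact hiU hU
    · rintro ⟨⟨hne', hi⟩, hiU⟩
      refine ⟨?_, hiU⟩
      by_contra hi'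
      exact hne' (e2 i hi hi')
  · exact Or.inl ⟨k, hU, crossed hs hX hB hB' hμ h h' hf1.2⟩

open Classical in
/-- The number of cones met is controlled by the number of crossed facets with a new opposite
constraint. -/
theorem nVis_le {a : Fin n → Fin d → ℝ} (hd : 1 ≤ d) (hs : Simple a) {c X : Fin d → ℝ}
    {M : ℝ} (hM : 0 < M) (hX : Generic a c X)
    (hcov : ∀ μ ∈ Set.Icc (0 : ℝ) M, Generic a c (X + μ • c) →
      ∃ B, Good a B ∧ InCone a B (X + μ • c)) (U : Finset (Fin n)) :
    nVis a c M X ≤ (U.card + 1) ^ d *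
      (1 + 2 * ∑ B : Idx n d, ∑ k : Fin d,
        if Good a B ∧ B k ∉ U ∧ HitE a B k c M X then 1 else 0) := by
  set P : Finset (Idx n d × Fin d) :=
    Finset.univ.filter fun q => Good a q.1 ∧ q.1 q.2 ∉ U ∧ HitE a q.1 q.2 c M X with hP
  have hPc : (∑ B : Idx n d, ∑ k : Fin d,
      if Good a B ∧ B k ∉ U ∧ HitE a B k c M X then 1 else 0) = P.card := by
    rw [hP, Finset.card_filter, Fintype.sum_prod_type]
  rw [hPc]
  set V : Finset (Idx n d) := Finset.univ.filter fun B : Idx n d => Good a B ∧ Vis a c M B X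
    with hV
  have hVmem : ∀ B, B ∈ V ↔ Good a B ∧ Vis a c M B X := fun B => by
    rw [hV, Finset.mem_filter]
    exact ⟨fun h => h.2, fun h => ⟨Finset.mem_univ _, h⟩⟩
  have hnV : nVis a c M X = V.card := rfl
  rw [hnV]
  have hstep : V.card ≤ (U.card + 1) ^ d * (V.image fun B => rng B \ U).card :=
    Finset.card_le_mul_card_image V _ fun H _ => card_fiber_le V U H
  refine hstep.trans (Nat.mul_le_mul_left _ ?_)
  rcases Nat.lt_or_ge 1 (V.image fun B => rng B \ U).card with h1 | h1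
  swap
  · omega
  have hsub : (V.image fun B => rng B \ U) ⊆
      (P.image fun q => rng q.1 \ U) ∪ (P.image fun q => (rng q.1).erase (q.1 q.2) \ U) := by
    intro H hH
    obtain ⟨H', hH', hne⟩ := Finset.exists_mem_ne h1 H
    set S₁ : Set ℝ := ⋃ B : {B : Idx n d // Good a B ∧ rng B \ U = H},
      {μ : ℝ | InCone a B.1 (X + μ • c)} with hS₁
    set S₂ : Set ℝ := ⋃ B : {B : Idx n d // Good a B ∧ rng B \ U ≠ H},
      {μ : ℝ | InCone a B.1 (X + μ • c)} with hS₂
    have hc₁ : IsClosed S₁ := isClosed_iUnion_of_finite fun B => helper73.isClosed_inCone a B.1 c X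
    have hc₂ : IsClosed S₂ := isClosed_iUnion_of_finite fun B => helper73.isClosed_inCone a B.1 c X
    have hpre : IsPreconnected (Set.Icc (0 : ℝ) M) := isPreconnected_Icc
    rw [isPreconnected_closed_iff] at hpre
    have hcover : Set.Icc (0 : ℝ) M ⊆ S₁ ∪ S₂ := by
      intro μ hμ
      obtain ⟨B, hB⟩ := helper73.line_cover hM hX hcov hμ
      by_cases hr : rng B.1 \ U = H
      · exact Or.inl (Set.mem_iUnion.mpr ⟨⟨B.1, B.2, hr⟩, hB⟩)
      · exact Or.inr (Set.mem_iUnion.mpr ⟨⟨B.1, B.2, hr⟩, hB⟩)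
    rw [Finset.mem_image] at hH hH'
    obtain ⟨B, hB, hBH⟩ := hH
    obtain ⟨B', hB', hBH'⟩ := hH'
    rw [hVmem] at hB hB'
    obtain ⟨μ₁, hμ₁, hm₁⟩ := hB.2
    obtain ⟨μ₂, hμ₂, hm₂⟩ := hB'.2
    have hne' : rng B' \ U ≠ H := by rw [hBH']; exact hne
    obtain ⟨μ, hμ, hμ1, hμ2⟩ := hpre S₁ S₂ hc₁ hc₂ hcover
      ⟨μ₁, hμ₁, Set.mem_iUnion.mpr ⟨⟨B, hB.1, hBH⟩, hm₁⟩⟩
      ⟨μ₂, hμ₂, Set.mem_iUnion.mpr ⟨⟨B', hB'.1, hne'⟩, hm₂⟩⟩
    obtain ⟨⟨C, hC, hCH⟩, hC'⟩ := Set.mem_iUnion.mp hμ1
    obtain ⟨⟨D, hD, hDH⟩, hD'⟩ := Set.mem_iUnion.mp hμ2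
    have hCD : rng C \ U ≠ rng D \ U := by rw [hCH]; exact fun h => hDH h.symm
    rw [Finset.mem_union, Finset.mem_image, Finset.mem_image]
    rcases sort_seen hd hs hX hC hD hμ hC' hD' hCD with ⟨k, hk1, hk2⟩ | ⟨k, hk1, hk2, hk3⟩
    · left
      refine ⟨(C, k), ?_, hCH⟩
      rw [hP, Finset.mem_filter]
      exact ⟨Finset.mem_univ _, hC, hk1, hk2⟩
    · right
      refine ⟨(D, k), ?_, ?_⟩
      · rw [hP, Finset.mem_filter]
        exact ⟨Finset.mem_univ _, hD, hk1, hk2⟩
      · rw [← hCH, hk3]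
  have h2 := (Finset.card_le_card hsub).trans (Finset.card_union_le _ _)
  have h3 : (P.image fun q => rng q.1 \ U).card ≤ P.card := Finset.card_image_le
  have h4 : (P.image fun q => (rng q.1).erase (q.1 q.2) \ U).card ≤ P.card :=
    Finset.card_image_le
  omega

end Pool.Agent.H.MP_0cad2f_co.bd
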